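import Pool.Agent.Helper13K9.Drn.Lib

/-!
# Deletion of leaves in rooted trees
-/

set_option autoImplicit false

namespace Pool.Agent.Helper13K9.Drn

open Multiset

theorem Del.size1 {X Y : RT} (h : Del leaf X Y) : size X = size Y + 1 := by
  have := h.size_eq
  rw [size_leaf] at this
  omega

theorem Del.ne {X Y : RT} (h : Del leaf X Y) : X ≠ Y := by
  intro h'
  have := h.size1
  rw [h'] at this
  omega

theorem del_iff {K : Multiset RT} {Y : RT} : Del leaf (node K) Y ↔
    (∃ M, K = leaf ::ₘ M ∧ Y = node M) ∨
      ∃ D D' M, K = D ::ₘ M ∧ Del leaf D D' ∧ Y = node (D' ::ₘ M) := by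
  constructor
  · intro h
    generalize hX : node K = X at h
    cases h with
    | here M => exact Or.inl ⟨M, node_inj.1 hX, rfl⟩
    | @deep D D' M h => exact Or.inr ⟨D, D', M, node_inj.1 hX, h, rfl⟩
  · rintro (⟨M, rfl, rfl⟩ | ⟨D, D', M, rfl, h, rfl⟩)
    · exact Del.here M
    · exact Del.deep M h

theorem del_to {Z : RT} {K : Multiset RT} : Del leaf Z (node K) ↔
    Z = node (leaf ::ₘ K) ∨ ∃ D D' M, Z = node (D ::ₘ M) ∧ Del leaf D D' ∧ K = D' ::ₘ M := by
  constructor
  · intro h
    generalize hX : node K = X at h
    cases h with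
    | here M => exact Or.inl (by rw [node_inj.1 hX])
    | @deep D D' M h => exact Or.inr ⟨D, D', M, rfl, h, node_inj.1 hX⟩
  · rintro (rfl | ⟨D, D', M, rfl, h, rfl⟩)
    · exact Del.here K
    · exact Del.deep M h

theorem not_del_leaf {Y : RT} : ¬ Del leaf leaf Y := by
  intro h
  have h1 := h.size1
  have h2 := size_pos Y
  rw [size_leaf] at h1
  omega

theorem size_eq_one {X : RT} (h : size X = 1) : X = leaf := by
  rw [size_eq] at h
  have h1 : ch X = 0 := by
    by_contra h0
    obtain ⟨D, hD⟩ := Multiset.exists_mem_of_ne_zero h0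
    have := Multiset.single_le_sum (s := (ch X).map size) (fun _ _ => Nat.zero_le _) _
      (Multiset.mem_map_of_mem _ hD)
    have := size_pos D
    omega
  rw [← node_ch X, h1]
  rfl

theorem eq_leaf_iff {X : RT} : X = leaf ↔ size X = 1 :=
  ⟨fun h => by rw [h, size_leaf], size_eq_one⟩

theorem size_up (X : RT) : size (node {X}) = size X + 1 := by
  rw [size_node, Multiset.map_singleton, Multiset.sum_singleton]; omega

theorem size_pair (X Y : RT) : size (node {X, Y}) = size X + size Y + 1 := by
  rw [size_node]
  simp only [Multiset.insert_eq_cons, Multiset.map_cons, Multiset.map_singleton,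
    Multiset.sum_cons, Multiset.sum_singleton]
  omega

theorem size_triple (X Y Z : RT) : size (node {X, Y, Z}) = size X + size Y + size Z + 1 := by
  rw [size_node]
  simp only [Multiset.insert_eq_cons, Multiset.map_cons, Multiset.map_singleton,
    Multiset.sum_cons, Multiset.sum_singleton]
  omega

theorem up_inj {X Y : RT} : node {X} = node {Y} ↔ X = Y := by
  rw [node_inj, Multiset.singleton_inj]

theorem pair_eq {a b c d : RT} : ({a, b} : Multiset RT) = {c, d} ↔
    (a = c ∧ b = d) ∨ (a = d ∧ b = c) := by
  simp only [Multiset.insert_eq_cons]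
  constructor
  · intro h
    rcases Multiset.cons_eq_cons.1 h with ⟨h1, h2⟩ | ⟨_, N, h1, h2⟩
    · exact Or.inl ⟨h1, by simpa using h2⟩
    · have hN : N = 0 := by
        have := congrArg Multiset.card h1
        simp at this
        exact this
      subst hN
      right
      constructor
      · simpa using h2.symm
      · simpa using h1
  · rintro (⟨rfl, rfl⟩ | ⟨rfl, rfl⟩)
    · rfl
    · exact Multiset.cons_swap _ _ _

theorem up_ne_pair {X Y Z : RT} : node {X} ≠ node {Y, Z} := by
  intro h
  have := congrArg Multiset.card (node_inj.1 h)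
  simp at this

theorem card_ch_up {X : RT} : Multiset.card (ch (node {X})) = 1 := by simp

theorem del_up {X Y : RT} : Del leaf (node {X}) Y ↔
    (X = leaf ∧ Y = leaf) ∨ ∃ X', Del leaf X X' ∧ Y = node {X'} := by
  rw [del_iff]
  constructor
  · rintro (⟨M, h1, h2⟩ | ⟨D, D', M, h1, h2, h3⟩)
    · have hM : M = 0 := by
        have := congrArg Multiset.card h1
        simp at this
        exact this
      subst hM
      left
      exact ⟨by simpa using h1, h2⟩
    · have hM : M = 0 := by
        have := congrArg Multiset.card h1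
        simp at this
        exact this
      subst hM
      right
      have : X = D := by simpa using h1
      subst this
      exact ⟨D', h2, h3⟩
  · rintro (⟨rfl, rfl⟩ | ⟨X', h1, rfl⟩)
    · exact Or.inl ⟨0, rfl, rfl⟩
    · exact Or.inr ⟨X, X', 0, rfl, h1, rfl⟩

theorem del_to_up {Z C : RT} : Del leaf Z (node {C}) ↔
    Z = node {leaf, C} ∨ ∃ C', Z = node {C'} ∧ Del leaf C' C := by
  rw [del_to]
  constructor
  · rintro (h | ⟨D, D', M, h1, h2, h3⟩)
    · exact Or.inl h
    · have hM : M = 0 := by
        have := congrArg Multiset.card h3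
        simp at this
        exact this
      subst hM
      right
      have : C = D' := by simpa using h3
      subst this
      exact ⟨D, h1, h2⟩
  · rintro (h | ⟨C', h1, h2⟩)
    · exact Or.inl h
    · exact Or.inr ⟨C', C, 0, h1, h2, rfl⟩

theorem Del.up {X Y : RT} (h : Del leaf X Y) : Del leaf (node {X}) (node {Y}) := Del.deep 0 h

theorem del_exists {X : RT} : X ≠ leaf → ∃ Y, Del leaf X Y := by
  induction X using RT.ind with
  | h M ih =>
    intro h
    have hM : M ≠ 0 := by
      rintro rfl
      exact h rfl
    obtain ⟨D, hD⟩ := Multiset.exists_mem_of_ne_zero hM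
    obtain ⟨N, rfl⟩ := Multiset.exists_cons_of_mem hD
    by_cases hl : D = leaf
    · subst hl
      exact ⟨_, Del.here N⟩
    · obtain ⟨D', h1⟩ := ih D hD hl
      exact ⟨_, Del.deep N h1⟩

/-! ### Paths -/

/-- path rooted at an end -/
def IsPt (X : RT) : Prop := ∃ k, X = Pt (k + 1)

theorem isPt_leaf : IsPt leaf := ⟨0, rfl⟩

theorem IsPt.up {X : RT} (h : IsPt X) : IsPt (node {X}) := by
  obtain ⟨k, rfl⟩ := h
  exact ⟨k + 1, rfl⟩

theorem IsPt.cases' {X : RT} (h : IsPt X) : X = leaf ∨ ∃ Y, X = node {Y} ∧ IsPt Y := by
  obtain ⟨k, rfl⟩ := h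
  cases k with
  | zero => exact Or.inl rfl
  | succ k => exact Or.inr ⟨Pt (k + 1), rfl, k, rfl⟩

theorem isPt_up {X : RT} : IsPt (node {X}) ↔ IsPt X := by
  constructor
  · intro h
    rcases h.cases' with h | ⟨Y, h, h'⟩
    · have := congrArg Multiset.card (node_inj.1 h)
      simp at this
    · rw [up_inj] at h
      rwa [h]
  · exact IsPt.up

theorem IsPt.card_le {X : RT} (h : IsPt X) : Multiset.card (ch X) ≤ 1 := by
  rcases h.cases' with rfl | ⟨Y, rfl, _⟩
  · simp [leaf]
  · simp

theorem size_Pt (k : ℕ) : size (Pt (k + 1)) = k + 1 := by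
  induction k with
  | zero => exact size_leaf
  | succ k ih =>
    have : Pt (k + 1 + 1) = node {Pt (k + 1)} := rfl
    rw [this, size_up, ih]

theorem size_Pt' {k : ℕ} (h : 1 ≤ k) : size (Pt k) = k := by
  obtain ⟨j, rfl⟩ := Nat.exists_eq_add_of_le' h
  exact size_Pt j

theorem IsPt.eq {X : RT} (h : IsPt X) : X = Pt (size X) := by
  obtain ⟨k, rfl⟩ := h
  rw [size_Pt]

theorem IsPt.unique {X Y : RT} (h : IsPt X) (h' : IsPt Y) (hs : size X = size Y) : X = Y := by
  rw [h.eq, h'.eq, hs]

theorem IsPt.del {X Y : RT} (h : IsPt X) (h' : Del leaf X Y) : IsPt Y := by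
  obtain ⟨k, rfl⟩ := h
  induction k generalizing Y with
  | zero => exact absurd h' not_del_leaf
  | succ k ih =>
    have : Pt (k + 1 + 1) = node {Pt (k + 1)} := rfl
    rw [this, del_up] at h'
    rcases h' with ⟨_, rfl⟩ | ⟨X', h1, rfl⟩
    · exact isPt_leaf
    · exact (ih h1).up

theorem PL1 {Y : RT} : Del leaf (node {Y}) Y → IsPt Y := by
  have key : ∀ s : ℕ, ∀ Y : RT, size Y = s → Del leaf (node {Y}) Y → IsPt Y := by
    intro s
    induction s using Nat.strong_induction_on with
    | _ s ih =>
      intro Y hs h
      rcases del_up.1 h with ⟨rfl, _⟩ | ⟨X', h1, h2⟩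
      · exact isPt_leaf
      · have h3 := h1.size1
        rw [h2]
        refine IsPt.up (ih (size X') (by omega) X' rfl ?_)
        rw [← h2]
        exact h1
  exact key _ Y rfl

theorem PL2 {X Y : RT} : Del leaf (node {node {Y}}) X → Del leaf X Y → IsPt Y := by
  have key : ∀ s : ℕ, ∀ X Y : RT, size Y = s → Del leaf (node {node {Y}}) X → Del leaf X Y →
      IsPt Y := by
    intro s
    induction s using Nat.strong_induction_on with
    | _ s ih =>
      intro X Y hs h h'
      rcases del_up.1 h with ⟨h1, _⟩ | ⟨X', h1, h2⟩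
      · have := congrArg size h1
        rw [size_up, size_leaf] at this
        have := size_pos Y
        omega
      rcases del_up.1 h1 with ⟨rfl, _⟩ | ⟨Y', h3, h4⟩
      · exact isPt_leaf
      · subst h4 h2
        have h5 := h3.size1
        exact (ih (size Y') (by omega) Y Y' rfl h' h3).up.up.del h'
  exact key _ X Y rfl

theorem PL2' {X Y : RT} (h : Del leaf (node {node {Y}}) X) (h' : Del leaf X Y) : IsPt X :=
  (PL2 h h').up.up.del h

theorem PL1' {Y : RT} (h : Del leaf (node {Y}) Y) : IsPt (node {Y}) := (PL1 h).up

theorem size_replicate (k : ℕ) (C : RT) : size (node (replicate k C)) = k * size C + 1 := by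
  rw [size_node, Multiset.map_replicate, Multiset.sum_replicate, smul_eq_mul]; omega

/-! ### Replacement of a branch -/

/-- `N` are the branches which remain of the branch `B` after deletion of a leaf -/
def Rp (B : RT) (N : Multiset RT) : Prop := (B = leaf ∧ N = 0) ∨ ∃ B', Del leaf B B' ∧ N = {B'}

theorem Rp.exists (B : RT) : ∃ N, Rp B N := by
  by_cases h : B = leaf
  · exact ⟨0, Or.inl ⟨h, rfl⟩⟩
  · obtain ⟨B', h'⟩ := del_exists h
    exact ⟨_, Or.inr ⟨B', h', rfl⟩⟩

theorem Rp.size_eq {B E : RT} {N : Multiset RT} (h : Rp B N) (hE : E ∈ N) : size B = size E + 1 := by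
  rcases h with ⟨_, rfl⟩ | ⟨B', h, rfl⟩
  · exact absurd hE (Multiset.notMem_zero _)
  · rw [Multiset.mem_singleton] at hE
    rw [hE, h.size1]

theorem Rp.del' {B E : RT} {N : Multiset RT} (h : Rp B N) (hE : E ∈ N) : Del leaf B E ∧ N = {E} := by
  rcases h with ⟨_, rfl⟩ | ⟨B', h, rfl⟩
  · exact absurd hE (Multiset.notMem_zero _)
  · rw [Multiset.mem_singleton] at hE
    rw [hE]
    exact ⟨h, rfl⟩

theorem Rp.card_le {B : RT} {N : Multiset RT} (h : Rp B N) : Multiset.card N ≤ 1 := by
  rcases h with ⟨_, rfl⟩ | ⟨B', h, rfl⟩
  · simp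
  · simp

theorem Rp.del {B : RT} {N : Multiset RT} (h : Rp B N) (M : Multiset RT) :
    Del leaf (node (B ::ₘ M)) (node (N + M)) := by
  rcases h with ⟨rfl, rfl⟩ | ⟨B', h, rfl⟩
  · rw [zero_add]
    exact Del.here M
  · rw [Multiset.singleton_add]
    exact Del.deep M h

theorem del_rp {Z Y : RT} : Del leaf Z Y ↔
    ∃ B N M, ch Z = B ::ₘ M ∧ ch Y = N + M ∧ Rp B N := by
  constructor
  · intro h
    cases h with
    | here M => exact ⟨leaf, 0, M, by rw [ch_node], by rw [ch_node, zero_add], Or.inl ⟨rfl, rfl⟩⟩
    | @deep D D' M h => exact ⟨D, {D'}, M, by rw [ch_node], by rw [ch_node, Multiset.singleton_add],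
        Or.inr ⟨D', h, rfl⟩⟩
  · rintro ⟨B, N, M, h1, h2, h3⟩
    have := h3.del M
    rwa [← h1, ← h2, node_ch, node_ch] at this

theorem singleton_add_eq {a b : RT} {s t : Multiset RT} (h : s + {a} = t + {b}) :
    (a = b ∧ s = t) ∨ (a ∈ t ∧ b ∈ s) := by
  by_cases hab : a = b
  · subst hab
    exact Or.inl ⟨rfl, add_right_cancel h⟩
  · right
    constructor
    · have h1 : a ∈ s + {a} := by simp
      rw [h, Multiset.mem_add, Multiset.mem_singleton] at h1
      exact h1.resolve_right hab
    · have h1 : b ∈ t + {b} := by simp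
      rw [← h, Multiset.mem_add, Multiset.mem_singleton] at h1
      exact h1.resolve_right (Ne.symm hab)

/-- all cards equal: the branches are equal -/
theorem replicate_of_cards {K : Multiset RT} {X₀ : RT}
    (h : ∀ Y, Del leaf (node K) Y → Y = X₀) : ∀ C ∈ K, ∀ D ∈ K, C = D := by
  intro C hC D hD
  by_contra hne
  obtain ⟨M, rfl⟩ := Multiset.exists_cons_of_mem hC
  rcases Multiset.mem_cons.1 hD with h1 | h1
  · exact hne h1.symm
  obtain ⟨M', rfl⟩ := Multiset.exists_cons_of_mem h1
  obtain ⟨NC, hNC⟩ := Rp.exists C
  obtain ⟨ND, hND⟩ := Rp.exists D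
  have e1 := h _ (hNC.del _)
  have e2 := h _ (by rw [Multiset.cons_swap]; exact hND.del _)
  have e3 := node_inj.1 (e1.trans e2.symm)
  have e4 : NC + {D} = ND + {C} := by
    have e5 : (NC + {D}) + M' = (ND + {C}) + M' := by
      rw [add_assoc, add_assoc, Multiset.singleton_add, Multiset.singleton_add, e3]
    exact add_right_cancel e5
  rcases singleton_add_eq e4 with ⟨h2, _⟩ | ⟨h2, h3⟩
  · exact hne h2.symm
  · have := hNC.size_eq h3
    omega

/-- the shape of a tree all of whose cards are equal -/
theorem unique_card_shape {X X₀ : RT} (hX : X ≠ leaf) (h : ∀ Y, Del leaf X Y → Y = X₀) :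
    ∃ C k, X = node (replicate (k + 1) C) ∧
      ((C = leaf ∧ ch X₀ = replicate k C) ∨
        ∃ C₀, ch X₀ = C₀ ::ₘ replicate k C ∧ size C = size C₀ + 1 ∧
          ∀ Y, Del leaf C Y → Y = C₀) := by
  obtain ⟨K, rfl⟩ : ∃ K, X = node K := ⟨ch X, (node_ch X).symm⟩
  have hK : K ≠ 0 := by
    rintro rfl
    exact hX rfl
  obtain ⟨C, hC⟩ := Multiset.exists_mem_of_ne_zero hK
  have h1 := replicate_of_cards h
  obtain ⟨M, rfl⟩ := Multiset.exists_cons_of_mem hC
  have hM : M = replicate (Multiset.card M) C := by
    rw [Multiset.eq_replicate]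
    exact ⟨rfl, fun b hb => h1 b (Multiset.mem_cons_of_mem hb) C hC⟩
  refine ⟨C, Multiset.card M, ?_, ?_⟩
  · rw [Multiset.replicate_succ, ← hM]
  · rw [← hM]
    by_cases hl : C = leaf
    · subst hl
      left
      exact ⟨rfl, by rw [← h _ (Del.here M), ch_node]⟩
    · right
      obtain ⟨C₀, h2⟩ := del_exists hl
      refine ⟨C₀, by rw [← h _ (Del.deep M h2), ch_node], h2.size1, ?_⟩
      intro Y hY
      have e1 := h _ (Del.deep M h2)
      have e2 := h _ (Del.deep M hY)
      have e3 := node_inj.1 (e1.trans e2.symm)
      exact ((Multiset.cons_inj_left M).1 e3).symm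

/-- two different trees of the same size all of whose cards are equal: one is a path -/
theorem SHcard {A B : RT} (hAB : A ≠ B) (hs : size A = size B)
    (h : ∀ A' B', Del leaf A A' → Del leaf B B' → A' = B') : IsPt A ∨ IsPt B := by
  have key : ∀ s : ℕ, ∀ A B : RT, size A = s → A ≠ B → size A = size B →
      (∀ A' B', Del leaf A A' → Del leaf B B' → A' = B') → IsPt A ∨ IsPt B := by
    intro s
    induction s using Nat.strong_induction_on with
    | _ s ih =>
      intro A B hs hAB hs' h
      by_cases hA : A = leaf
      · exact Or.inl (hA ▸ isPt_leaf)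
      by_cases hB : B = leaf
      · exact Or.inr (hB ▸ isPt_leaf)
      obtain ⟨A₀, hA₀⟩ := del_exists hA
      obtain ⟨B₀, hB₀⟩ := del_exists hB
      have hAB₀ := h _ _ hA₀ hB₀
      have hA1 : ∀ Y, Del leaf A Y → Y = A₀ := fun Y hY => (h _ _ hY hB₀).trans hAB₀.symm
      have hB1 : ∀ Y, Del leaf B Y → Y = A₀ := fun Y hY => (h _ _ hA₀ hY).symm
      obtain ⟨C, k, rfl, hC⟩ := unique_card_shape hA hA1
      obtain ⟨D, l, rfl, hD⟩ := unique_card_shape hB hB1
      rw [size_replicate] at hs
      rw [size_replicate, size_replicate] at hs'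
      have hCp := size_pos C
      have hDp := size_pos D
      have hkl : ¬ (C = D) := by
        rintro rfl
        apply hAB
        have h1 : (k + 1) * size C = (l + 1) * size C := by omega
        have h2 := Nat.eq_of_mul_eq_mul_right hCp h1
        rw [h2]
      rcases hC with ⟨rfl, hC⟩ | ⟨C₀, hC, hC1, hC2⟩
      · rcases hD with ⟨rfl, hD⟩ | ⟨D₀, hD, hD1, hD2⟩
        · exact absurd rfl hkl
        · -- `A` is a star, `B` is not
          rw [hC] at hD
          have h1 : D₀ ∈ replicate k leaf := by rw [hD]; exact Multiset.mem_cons_self _ _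
          have h2 := Multiset.eq_of_mem_replicate h1
          rcases l with _ | l
          · right
            subst h2
            have h3 : D = node {leaf} := by
              by_cases hDl : D = leaf
              · exact absurd hDl.symm hkl
              · obtain ⟨D₁, h4⟩ := del_exists hDl
                have h5 := hD2 _ h4
                subst h5
                rcases (del_to (K := 0)).1 h4 with h6 | ⟨_, _, _, _, _, h7⟩
                · exact h6
                · exact absurd h7.symm (Multiset.cons_ne_zero)
            rw [h3]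
            exact isPt_leaf.up.up
          · exfalso
            have h3 : D ∈ replicate k leaf := by
              rw [hD, Multiset.replicate_succ]
              exact Multiset.mem_cons_of_mem (Multiset.mem_cons_self _ _)
            exact hkl (Multiset.eq_of_mem_replicate h3).symm
      · rcases hD with ⟨rfl, hD⟩ | ⟨D₀, hD, hD1, hD2⟩
        · rw [hC] at hD
          have h1 : C₀ ∈ replicate l leaf := by rw [← hD]; exact Multiset.mem_cons_self _ _
          have h2 := Multiset.eq_of_mem_replicate h1
          rcases k with _ | k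
          · left
            subst h2
            have h3 : C = node {leaf} := by
              by_cases hDl : C = leaf
              · exact absurd hDl hkl
              · obtain ⟨D₁, h4⟩ := del_exists hDl
                have h5 := hC2 _ h4
                subst h5
                rcases (del_to (K := 0)).1 h4 with h6 | ⟨_, _, _, _, _, h7⟩
                · exact h6
                · exact absurd h7.symm (Multiset.cons_ne_zero)
            rw [h3]
            exact isPt_leaf.up.up
          · exfalso
            have h3 : C ∈ replicate l leaf := by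
              rw [← hD, Multiset.replicate_succ]
              exact Multiset.mem_cons_of_mem (Multiset.mem_cons_self _ _)
            exact hkl (Multiset.eq_of_mem_replicate h3)
        · rw [hC] at hD
          rcases k with _ | k
          · rcases l with _ | l
            · -- both have one branch
              have e1 : C₀ = D₀ := by simpa using hD
              subst e1
              rcases ih (size C) (by omega) C D rfl hkl (by omega)
                (fun A' B' h1 h2 => (hC2 _ h1).trans (hD2 _ h2).symm) with h1 | h1
              · exact Or.inl h1.up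
              · exact Or.inr h1.up
            · exfalso
              have := congrArg Multiset.card hD
              simp at this
          · rcases l with _ | l
            · exfalso
              have := congrArg Multiset.card hD
              simp at this
            · exfalso
              have h1 : C ∈ D₀ ::ₘ replicate (l + 1) D := by
                rw [← hD, Multiset.replicate_succ]
                exact Multiset.mem_cons_of_mem (Multiset.mem_cons_self _ _)
              have h2 : D ∈ C₀ ::ₘ replicate (k + 1) C := by
                rw [hD, Multiset.replicate_succ]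
                exact Multiset.mem_cons_of_mem (Multiset.mem_cons_self _ _)
              rcases Multiset.mem_cons.1 h1 with h3 | h3
              · rcases Multiset.mem_cons.1 h2 with h4 | h4
                · rw [h3] at hC1
                  rw [h4] at hD1
                  omega
                · exact hkl (Multiset.eq_of_mem_replicate h4).symm
              · exact hkl (Multiset.eq_of_mem_replicate h3)
  exact key _ A B rfl hAB hs h

theorem choose_ne {A B : RT} (hAB : A ≠ B) (hs : size A = size B) (hA : ¬ IsPt A)
    (hB : ¬ IsPt B) : ∃ A' B', Del leaf A A' ∧ Del leaf B B' ∧ A' ≠ B' := by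
  by_contra h
  push Not at h
  rcases SHcard hAB hs h with h1 | h1
  · exact hA h1
  · exact hB h1

/-- decomposition of a rooted tree into a path and a branching vertex -/
theorem path_or_chain (X : RT) : IsPt X ∨ ∃ j W, X = Nn j W ∧ 2 ≤ Multiset.card (ch W) := by
  induction X using RT.ind with
  | h M ih =>
    by_cases h2 : 2 ≤ Multiset.card M
    · exact Or.inr ⟨0, node M, rfl, by rwa [ch_node]⟩
    · rcases Nat.lt_or_ge (Multiset.card M) 1 with h1 | h1
      · left
        have : M = 0 := by
          rw [← Multiset.card_eq_zero]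
          omega
        rw [this]
        exact isPt_leaf
      · have : Multiset.card M = 1 := by omega
        obtain ⟨Y, rfl⟩ := Multiset.card_eq_one.1 this
        rcases ih Y (Multiset.mem_singleton_self Y) with h | ⟨j, W, rfl, hW⟩
        · exact Or.inl h.up
        · exact Or.inr ⟨j + 1, W, by simp only [Nn, Function.iterate_succ_apply'], hW⟩

theorem Nn_succ (j : ℕ) (X : RT) : Nn (j + 1) X = node {Nn j X} := by
  simp only [Nn, Function.iterate_succ_apply']

theorem Nn_zero (X : RT) : Nn 0 X = X := rfl

theorem size_Nn (j : ℕ) (X : RT) : size (Nn j X) = size X + j := by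
  induction j with
  | zero => rfl
  | succ j ih => rw [Nn_succ, size_up, ih]; omega

theorem size_eq_two {X : RT} (h : size X = 2) : X = node {leaf} := by
  have hX : X ≠ leaf := by
    rintro rfl
    rw [size_leaf] at h
    omega
  obtain ⟨Y, hY⟩ := del_exists hX
  have h1 := hY.size1
  have h2 : Y = leaf := size_eq_one (by omega)
  subst h2
  rcases (del_to (K := 0)).1 hY with h6 | ⟨_, _, _, _, _, h7⟩
  · exact h6
  · exact absurd h7.symm (Multiset.cons_ne_zero)

end Pool.Agent.Helper13K9.Drn
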