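import Pool.Agent.Helper13K9.Drn.H12

/-!
# LL_N1
-/

set_option autoImplicit false

namespace Pool.Agent.Helper13K9.Drn

open Multiset

theorem ll_N1 : LL_N1 := by
  intro B₁ M m hm sB sM cM
  have hB₁ : B₁ ≠ leaf := ne_leaf_of_size (by omega)
  have hR : node M ≠ leaf := ne_leaf_of_size (by omega)
  have hMsz : ∀ D ∈ M, size D + 1 ≤ m := by
    intro D hD
    obtain ⟨M₁, rfl⟩ := Multiset.exists_cons_of_mem hD
    rw [size_cons] at sM
    have h1 : M₁ ≠ 0 := by
      rintro rfl
      simp at cM
    obtain ⟨E, hE⟩ := Multiset.exists_mem_of_ne_zero h1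
    have := size_lt_of_mem (X := node M₁) (D := E) (by rwa [ch_node])
    have := size_pos E
    omega
  -- choices
  have hr : ∃ Rv, Del leaf (node M) Rv ∧ (Del leaf (node M) B₁ → Rv = B₁) ∧
      (¬ Del leaf (node M) B₁ → ∀ C, M = {C, leaf} → Rv = node {C}) := by
    by_cases hd : Del leaf (node M) B₁
    · exact ⟨B₁, hd, fun _ => rfl, fun h => absurd hd h⟩
    · by_cases hC : ∃ C, M = {C, leaf}
      · obtain ⟨C, hC⟩ := hC
        refine ⟨node {C}, ?_, fun h => absurd h hd, fun _ C' h => ?_⟩
        · rw [hC]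
          exact del_pair_leaf C
        · rw [pair_leaf_inj (congrArg node (hC.symm.trans h))]
      · obtain ⟨Rv, h⟩ := del_exists hR
        exact ⟨Rv, h, fun h => absurd h hd, fun _ C h => absurd ⟨C, h⟩ hC⟩
  have hb : ∃ B', Del leaf B₁ B' ∧ (∀ C, M = {C, leaf} → Del leaf B₁ C → B' = C) ∧
      (∀ C, M = {C, leaf} → ¬ Del leaf B₁ C → ∀ E, B₁ = node {E, leaf} → B' = node {E}) := by
    by_cases hC : ∃ C, M = {C, leaf}
    · obtain ⟨C, hC⟩ := hC
      have inj : ∀ C', M = {C', leaf} → C' = C := fun C' h =>
        (pair_leaf_inj (congrArg node (hC.symm.trans h))).symm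
      by_cases hd : Del leaf B₁ C
      · exact ⟨C, hd, fun C' h _ => (inj C' h).symm, fun C' h h' => absurd (inj C' h ▸ hd) h'⟩
      · by_cases hE : ∃ E, B₁ = node {E, leaf}
        · obtain ⟨E, hE⟩ := hE
          refine ⟨node {E}, ?_, fun C' h h' => absurd (inj C' h ▸ h') hd, fun C' h _ E' h' => ?_⟩
          · rw [hE]
            exact del_pair_leaf E
          · rw [pair_leaf_inj (hE.symm.trans h')]
        · obtain ⟨B', h⟩ := del_exists hB₁
          exact ⟨B', h, fun C' h h' => absurd (inj C' h ▸ h') hd,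
            fun C' _ _ E' h' => absurd ⟨E', h'⟩ hE⟩
    · obtain ⟨B', h⟩ := del_exists hB₁
      exact ⟨B', h, fun C' h _ => absurd ⟨C', h⟩ hC, fun C' h => absurd ⟨C', h⟩ hC⟩
  obtain ⟨Rv, r0, r1, r2⟩ := hr
  obtain ⟨B', b0, b1, b2⟩ := hb
  have sRv := r0.size1
  have sB' := b0.size1
  -- which branch of `R'` is changed
  have key : ∀ G W, size G = m → size W = m + 1 →
      Del leaf (node (G ::ₘ ch W)) (node (B' ::ₘ M)) →
      ∃ X', Del leaf G X' ∧ ((B' = X' ∧ M = ch W) ∨
        (B' ≠ X' ∧ M = {X', leaf} ∧ W = node {B', leaf})) := by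
    intro G W hG hW hd
    rcases del_iff.1 hd with ⟨M₁, h1, h2⟩ | ⟨D, D', M₁, h1, h2, h3⟩
    · exfalso
      have h2' := node_inj.1 h2
      rcases Multiset.cons_eq_cons.1 h1 with ⟨h3, _⟩ | ⟨_, N, _, h4⟩
      · rw [h3, size_leaf] at hG
        omega
      · have h5 : G ∈ B' ::ₘ M := by rw [h2', h4]; exact Multiset.mem_cons_self _ _
        rcases Multiset.mem_cons.1 h5 with h6 | h6
        · rw [← h6] at sB'
          omega
        · have := hMsz G h6
          omega
    · have h3' := node_inj.1 h3
      rcases Multiset.cons_eq_cons.1 h1 with ⟨h4, h5⟩ | ⟨_, N, _, h4⟩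
      · subst h4 h5
        refine ⟨D', h2, ?_⟩
        have sD := h2.size1
        rcases Multiset.cons_eq_cons.1 h3' with h6 | ⟨hne, N₂, h6, h7⟩
        · exact Or.inl h6
        · right
          have h8 : node N₂ = node {leaf} := by
            apply size_eq_two
            rw [h6, size_cons] at sM
            omega
          have h9 := node_inj.1 h8
          subst h9
          refine ⟨hne, h6, ?_⟩
          rw [← node_ch W, h7]
          rfl
      · exfalso
        have h5 : G ∈ B' ::ₘ M := by
          rw [h3', h4]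
          exact Multiset.mem_cons_of_mem (Multiset.mem_cons_self _ _)
        rcases Multiset.mem_cons.1 h5 with h6 | h6
        · rw [← h6] at sB'
          omega
        · have := hMsz G h6
          omega
  refine masterN1 _ (B' ::ₘ M) B₁ Rv m (by omega) sB (by omega) ?_
    (UCard.of_del (Del.deep _ b0)) (UCard.of_del ?_) ?_
  · intro D hD
    rcases Multiset.mem_cons.1 hD with rfl | hD
    · omega
    · exact hMsz D hD
  · have := r0.add B₁
    rwa [ch_node] at this
  · intro R' hR' hE
    rcases hE with ⟨W, hW, rfl⟩ | ⟨W, hW, rfl⟩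
    · -- (a)
      have sW := hW.size1
      obtain ⟨X', h1, h2⟩ := key Rv W (by omega) (by omega) hR'
      rcases h2 with ⟨_, h3⟩ | ⟨hne, h3, h4⟩
      · have hWM : W = node M := by rw [h3, node_ch]
        rw [hWM] at hW
        rw [r1 hW, ← h3]
        exact UI.refl _
      · exfalso
        have sX := h1.size1
        by_cases hd : Del leaf (node M) B₁
        · rw [r1 hd] at h1
          exact hne (b1 X' h3 h1)
        · rw [r2 hd X' h3] at h1
          have hP := PL1 h1
          have hnd : ¬ Del leaf B₁ X' := fun h => hne (b1 X' h3 h)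
          rw [h4] at hW
          rcases del_pair hW with ⟨h5, _⟩ | ⟨_, h5⟩ | ⟨E, h5, h6⟩ | ⟨F', h5, _⟩
          · rw [h5, size_leaf] at sB'
            omega
          · have h6 := b0
            rw [h5] at h6
            exact hne ((PL1 h6).unique hP (by omega))
          · have h7 := b2 X' h3 hnd E h6
            have h8 := h5
            rw [h7] at h8
            have h9 : IsPt B' := by
              rw [h7]
              exact PL1' h8
            exact hne (h9.unique hP (by omega))
          · exact not_del_leaf h5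
    · -- (b)
      have sW := hW.size1
      obtain ⟨X', h1, h2⟩ := key B₁ W sB (by omega) hR'
      rcases h2 with ⟨_, h3⟩ | ⟨hne, h3, _⟩
      · rw [h3]
        exact UI.refl _
      · exact absurd (b1 X' h3 h1) hne

end Pool.Agent.Helper13K9.Drn
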