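import Pool.Agent.Helper13K9.Drn.MainRT
import Pool.Agent.Helper13K9.Drn.N1
import Pool.Agent.Helper40K9.Drn.Bridge
import Pool.Agent.Helper50K9.Drn.NLAFin
import Pool.Agent.Helper87K9.Drn.NLB
import Pool.Agent.Helper95K9.Drn.NLC

/-!
# All pieces together
-/

set_option autoImplicit false

namespace Pool.Agent.Helper13K9.Drn

/-- every tree type with at least 20 vertices is determined by two cards -/
theorem good : ∃ N : ℕ, ∀ X : RT, N ≤ size X → LLgood X ∨ NLgood X :=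
  main_rt Pool.Agent.Helper95K9.Drn.nl_star (Pool.Agent.Helper50K9.Drn.nl_sym_HP lib_HP)
    (Pool.Agent.Helper50K9.Drn.nl_two_HP lib_HP) (Pool.Agent.Helper95K9.Drn.nl_leaf ui_iff uni)
    Pool.Agent.Helper87K9.Drn.nl_path Pool.Agent.Helper87K9.Drn.nl_spider
    (Pool.Agent.Helper95K9.Drn.nl_tail ui_iff lib_HP) (Pool.Agent.Helper95K9.Drn.nl_legs ui_iff)
    (Pool.Agent.Helper95K9.Drn.nl_dstar ui_iff uni)
    (Pool.Agent.Helper50K9.Drn.nl_double_HP lib_HP)
    (Pool.Agent.Helper87K9.Drn.nl_chain lib_HP (Pool.Agent.Helper50K9.Drn.lib_root lib_HP))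
    ll_H1 ll_H2 ll_H3 ll_N0 ll_N0' ll_N1

end Pool.Agent.Helper13K9.Drn
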