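import Pool.Agent.Helper13K9.Drn.N0

/-!
# LL_H1, LL_H2
-/

set_option autoImplicit false

namespace Pool.Agent.Helper13K9.Drn

open Multiset

theorem ne_leaf_of_size {X : RT} (h : 2 ≤ size X) : X ≠ leaf := by
  rintro rfl
  rw [size_leaf] at h
  omega

theorem not_isPt_of_card {X : RT} (h : 2 ≤ Multiset.card (ch X)) : ¬ IsPt X := by
  intro h'
  have := h'.card_le
  omega

theorem del_pair_leaf (C : RT) : Del leaf (node {C, leaf}) (node {C}) := by
  have e : node {C, leaf} = node (leaf ::ₘ {C}) := congrArg node (Multiset.cons_swap _ _ _)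
  rw [e]
  exact Del.here _

theorem isPt_eqPt {X : RT} {m : ℕ} (h : IsPt X) (hs : size X = m) : X = Pt m := by
  rw [h.eq, hs]

/-- the case LL_H1 given a suitable choice -/
theorem H1_aux {A B A' B' : RT} {m : ℕ} (hm : 5 ≤ m) (sA : size A = m) (sB : size B = m)
    (hAB : A ≠ B) (cA : 2 ≤ Multiset.card (ch A)) (cB : 2 ≤ Multiset.card (ch B))
    (h1 : Del leaf A A') (h2 : Del leaf B B') (h3 : A' ≠ B')
    (h4 : ∀ C E, A = node {C, leaf} → B = node {E, leaf} → ¬ IsPt C → A' = node {C})
    (h5 : ∀ C E, A = node {C, leaf} → B = node {E, leaf} → ¬ IsPt C) :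
    LLgood (node (A ::ₘ ch B)) := by
  have t1 := h1.size1
  have t2 := h2.size1
  have hT : UI (node (A ::ₘ ch B)) (node (B ::ₘ ch A)) := by
    have := UI.re A (ch B)
    rwa [node_ch] at this
  refine masterH _ A' B B' A m (by omega) (by omega) sB (by omega) sA
    (UCard.of_del (Del.deep _ h1)) ⟨_, _, hT, Del.deep _ h2, UI.refl _⟩ ?_ ?_ ?_ ?_ ?_ ?_
  · intro h
    rcases Multiset.cons_eq_cons.1 (node_inj.1 h) with ⟨h6, _⟩ | ⟨_, N, _, h7⟩
    · exact h3 h6
    · have h8 := rest_zero h7 (by omega)
      rw [h8, card_ch_up] at cA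
      omega
  · intro W V _ _ h
    rcases h with ⟨_, h⟩ | ⟨h, h'⟩
    · exact absurd h.symm hAB
    · rw [h]
      exact UI.refl _
  · intro W G _ hG _
    have := card_of_del_up hG
    omega
  · intro F V hF _ _
    have := card_of_del_up hF
    omega
  · intro F G hF _ _
    have := card_of_del_up hF
    omega
  · intro P P' hP hP' _ _ h
    exfalso
    have s3 := hP.size1
    have s4 := hP'.size1
    rcases Multiset.cons_eq_cons.1 h with ⟨h6, _⟩ | ⟨_, N, h6, h7⟩
    · exact h3 h6
    · have e1 := rest_leaf h6 (by omega)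
      have e2 := rest_leaf h7 (by omega)
      -- `P = {B', •} → B`, `P' = {A', •} → A`
      rw [e1] at hP
      rw [e2] at hP'
      rcases del_pair hP with ⟨h8, _⟩ | ⟨_, h8⟩ | ⟨E, h8, h9⟩ | ⟨F', h8, _⟩
      · rw [h8, size_leaf] at t2
        omega
      · rw [h8, card_ch_up] at cB
        omega
      · rcases del_pair hP' with ⟨h10, _⟩ | ⟨_, h10⟩ | ⟨C, h10, h11⟩ | ⟨F', h10, _⟩
        · rw [h10, size_leaf] at t1
          omega
        · rw [h10, card_ch_up] at cA
          omega
        · have h12 := h5 C E h11 h9
          have h13 := h4 C E h11 h9 h12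
          rw [h13] at h10
          exact h12 (PL1 h10)
        · exact not_del_leaf h10
      · exact not_del_leaf h8

theorem pair_leaf_inj {C D : RT} (h : node {C, leaf} = node {D, leaf}) : C = D := by
  rcases pair_eq.1 (node_inj.1 h) with ⟨h1, _⟩ | ⟨h1, h2⟩
  · exact h1
  · rw [h1, ← h2]

theorem ll_H1 : LL_H1 := by
  intro A B m hm sA sB hAB cA cB
  by_cases hc : ∃ C E, A = node {C, leaf} ∧ B = node {E, leaf}
  · obtain ⟨C, E, hA, hB⟩ := hc
    have sC : size C + 2 = m := by
      rw [hA, size_pair, size_leaf] at sA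
      omega
    have sE : size E + 2 = m := by
      rw [hB, size_pair, size_leaf] at sB
      omega
    have key : ∀ A B C E : RT, A = node {C, leaf} → B = node {E, leaf} → size C + 2 = m →
        size E + 2 = m → ¬ IsPt C → A ≠ B → LLgood (node (A ::ₘ ch B)) := by
      intro A B C E hA hB sC sE hP hAB
      obtain ⟨E', hE'⟩ := del_exists (X := E) (ne_leaf_of_size (by omega))
      refine H1_aux (A' := node {C}) (B' := node {E', leaf}) hm
        (by rw [hA, size_pair, size_leaf]; omega) (by rw [hB, size_pair, size_leaf]; omega)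
        hAB (by rw [hA]; simp) (by rw [hB]; simp) ?_ ?_ up_ne_pair ?_ ?_
      · rw [hA]
        exact del_pair_leaf C
      · rw [hB]
        exact Del.deep _ hE'
      · intro C₂ E₂ h1 _ _
        rw [pair_leaf_inj (hA.symm.trans h1)]
      · intro C₂ E₂ h1 _
        rw [← pair_leaf_inj (hA.symm.trans h1)]
        exact hP
    by_cases hP : IsPt C
    · have hP' : ¬ IsPt E := by
        intro h
        apply hAB
        rw [hA, hB, hP.unique h (by omega)]
      have h1 := key B A E C hB hA sE sC hP' hAB.symm
      refine h1.ui ?_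
      have := UI.re B (ch A)
      rwa [node_ch] at this
    · exact key A B C E hA hB sC sE hP hAB
  · obtain ⟨A', B', h1, h2, h3⟩ := choose_ne hAB (by omega) (not_isPt_of_card cA)
      (not_isPt_of_card cB)
    exact H1_aux hm sA sB hAB cA cB h1 h2 h3 (fun C E h4 h5 _ => absurd ⟨C, E, h4, h5⟩ hc)
      (fun C E h4 h5 => absurd ⟨C, E, h4, h5⟩ hc)

theorem ll_H2 : LL_H2 := by
  intro A B₁ m hm sA sB cA
  by_cases hex : A = node {leaf, Pt (m - 2)} ∧ B₁ = Pt (m - 1)
  · exact Or.inr hex
  left
  have hAl : A ≠ leaf := ne_leaf_of_size (by omega)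
  obtain ⟨B', h2⟩ := del_exists (X := B₁) (ne_leaf_of_size (by omega))
  -- the choice
  have hch : ∃ A', Del leaf A A' ∧ (Del leaf A B₁ → A' = B₁) ∧
      (¬ Del leaf A B₁ → ∀ C, A = node {C, leaf} → IsPt B₁ → A' = node {C}) ∧
      (¬ Del leaf A B₁ → ∀ C, A = node {C, leaf} → ¬ IsPt B₁ → ∃ C', A' = node {C', leaf}) := by
    by_cases hd : Del leaf A B₁
    · exact ⟨B₁, hd, fun _ => rfl, fun h => absurd hd h, fun h => absurd hd h⟩
    · by_cases hC : ∃ C, A = node {C, leaf}
      · obtain ⟨C, hC⟩ := hC
        by_cases hP : IsPt B₁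
        · refine ⟨node {C}, ?_, fun h => absurd h hd, fun _ C₂ h _ => ?_,
            fun _ _ _ h => absurd hP h⟩
          · rw [hC]
            exact del_pair_leaf C
          · rw [pair_leaf_inj (hC.symm.trans h)]
        · have sC : size C + 2 = m := by
            rw [hC, size_pair, size_leaf] at sA
            omega
          obtain ⟨C', hC'⟩ := del_exists (X := C) (ne_leaf_of_size (by omega))
          refine ⟨node {C', leaf}, ?_, fun h => absurd h hd, fun _ _ _ h => absurd h hP,
            fun _ _ _ _ => ⟨C', rfl⟩⟩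
          rw [hC]
          exact Del.deep _ hC'
      · obtain ⟨A', hA'⟩ := del_exists hAl
        exact ⟨A', hA', fun h => absurd h hd, fun _ C h => absurd ⟨C, h⟩ hC,
          fun _ C h => absurd ⟨C, h⟩ hC⟩
  obtain ⟨A', h1, p1, p2, p3⟩ := hch
  have t1 := h1.size1
  have t2 := h2.size1
  have hT : UI (node {A, B₁}) (node (node {B₁} ::ₘ ch A)) := UI.re A {B₁}
  refine masterH _ A' (node {B₁}) (node {B'}) A m (by omega) (by omega) (by rw [size_up]; omega)
    (by rw [size_up]; omega) sA (UCard.of_del ?_) ⟨_, _, hT, Del.deep _ h2.up, UI.refl _⟩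
    ?_ ?_ ?_ ?_ ?_ ?_
  · rw [ch_node]
    exact Del.deep _ h1
  · intro h
    have := congrArg Multiset.card (node_inj.1 h)
    rw [ch_node, Multiset.card_cons, Multiset.card_cons, Multiset.card_singleton] at this
    omega
  · intro W V _ _ h
    rcases h with ⟨_, h⟩ | ⟨h, _⟩
    · rw [← h, card_ch_up] at cA
      omega
    · rw [h, ch_node]
      exact UI.refl _
  · intro W G _ hG _
    have := card_of_del_up hG
    omega
  · intro F V hF _ h
    rcases h with ⟨_, h⟩ | ⟨h, _⟩
    · rw [← h, card_ch_up] at cA
      omega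
    · rw [h] at hF
      rcases del_up.1 hF with ⟨h6, _⟩ | ⟨X, h6, h7⟩
      · exact absurd h6 hAl
      · rw [up_inj] at h7
        subst h7
        rw [h, p1 h6]
        exact UI.refl _
  · intro F G _ hG _
    have := card_of_del_up hG
    omega
  · intro P P' hP hP' cP cP' h
    exfalso
    have sP' := hP'.size1
    rcases del_to_up.1 hP with h6 | ⟨W', h6, _⟩
    swap
    · rw [h6, card_ch_up] at cP
      omega
    rw [h6, ch_node] at h
    by_cases hB : B₁ = node {B'}
    · -- (i)
      have hPB : IsPt B₁ := by
        rw [hB] at h2 ⊢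
        exact PL1' h2
      have e : ch P' = {A', leaf} := by
        have e1 : node {B'} ::ₘ ch P' = node {B'} ::ₘ {A', leaf} := by
          rw [← h, ← hB]
          simp only [Multiset.insert_eq_cons, ← Multiset.singleton_add]
          abel
        exact (Multiset.cons_inj_right _).1 e1
      have e2 : P' = node {A', leaf} := by rw [← e, node_ch]
      rw [e2] at hP'
      rcases del_pair hP' with ⟨h8, _⟩ | ⟨_, h8⟩ | ⟨C, h8, h9⟩ | ⟨F', h8, _⟩
      · rw [h8, size_leaf] at t1
        omega
      · rw [h8, card_ch_up] at cA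
        omega
      · by_cases hd : Del leaf A B₁
        · have h10 := p1 hd
          rw [h10] at h8
          apply hex
          have hC := hPB.del h8
          have sC := h8.size1
          constructor
          · rw [h9, isPt_eqPt hC (show size C = m - 2 by omega)]
            exact congrArg node (Multiset.cons_swap _ _ _)
          · exact isPt_eqPt hPB (by omega)
        · have h10 := p2 hd C h9 hPB
          rw [h10] at h8
          have hC := PL1 h8
          apply hd
          have h11 : B₁ = node {C} := hPB.unique hC.up (by rw [← h10]; omega)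
          rw [h11, ← h10]
          exact h1
      · exact not_del_leaf h8
    · -- (ii)
      have h7 : node {B'} ∈ A' ::ₘ {leaf, B₁} := by rw [h]; exact Multiset.mem_cons_self _ _
      have h8 : node {B'} = A' := by
        rcases Multiset.mem_cons.1 h7 with h8 | h8
        · exact h8
        · exfalso
          simp only [Multiset.insert_eq_cons, Multiset.mem_cons, Multiset.mem_singleton] at h8
          rcases h8 with h8 | h8
          · have := congrArg size h8
            rw [size_up, size_leaf] at this
            omega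
          · exact hB h8.symm
      have e : ch P' = {leaf, B₁} := by
        rw [h8] at h
        exact ((Multiset.cons_inj_right _).1 h).symm
      have e2 : P' = node {B₁, leaf} := by
        rw [← node_ch P', e]
        exact congrArg node (Multiset.cons_swap _ _ _)
      rw [e2] at hP'
      rcases del_pair hP' with ⟨h9, _⟩ | ⟨_, h9⟩ | ⟨C, h9, h10⟩ | ⟨F', h9, _⟩
      · exact absurd h9 (ne_leaf_of_size (by omega))
      · rw [h9, card_ch_up] at cA
        omega
      · have h11 := h1
        rw [h10, ← h8] at h11
        have sC := h9.size1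
        rcases del_pair h11 with ⟨h12, _⟩ | ⟨_, h12⟩ | ⟨C', _, h12⟩ | ⟨F', h12, _⟩
        · rw [h12, size_leaf] at sC
          omega
        · rw [up_inj] at h12
          by_cases hd : Del leaf A B₁
          · exact hB (by rw [← p1 hd, h8])
          · by_cases hP2 : IsPt B₁
            · exact hB (hP2.unique (hP2.del h2).up (by rw [size_up]; omega))
            · obtain ⟨C', h13⟩ := p3 hd C h10 hP2
              rw [← h8] at h13
              exact up_ne_pair h13
        · exact up_ne_pair h12
        · exact not_del_leaf h12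
      · exact not_del_leaf h9

end Pool.Agent.Helper13K9.Drn
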