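import Pool.Agent.Helper13K9.Drn.Masters

/-!
# Two equal halves
-/

set_option autoImplicit false

namespace Pool.Agent.Helper13K9.Drn

open Multiset

theorem del_pair {D F Y : RT} (h : Del leaf (node {D, F}) Y) :
    (D = leaf ∧ Y = node {F}) ∨ (F = leaf ∧ Y = node {D}) ∨
      (∃ D', Del leaf D D' ∧ Y = node {D', F}) ∨ ∃ F', Del leaf F F' ∧ Y = node {D, F'} := by
  rw [Multiset.insert_eq_cons] at h
  rcases del_iff.1 h with ⟨M, h1, rfl⟩ | ⟨E, E', M, h1, h2, rfl⟩
  · rcases Multiset.cons_eq_cons.1 h1 with ⟨h3, h4⟩ | ⟨_, N, h3, h4⟩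
    · left
      exact ⟨h3, by rw [h4]⟩
    · have hN : N = 0 := by
        have := congrArg Multiset.card h3
        simp at this
        exact this
      subst hN
      right; left
      exact ⟨by simpa using h3, by rw [h4]; rfl⟩
  · rcases Multiset.cons_eq_cons.1 h1 with ⟨h3, h4⟩ | ⟨_, N, h3, h4⟩
    · subst h3
      right; right; left
      exact ⟨E', h2, by rw [← h4]; rfl⟩
    · have hN : N = 0 := by
        have := congrArg Multiset.card h3
        simp at this
        exact this
      subst hN
      have : F = E := by simpa using h3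
      subst this
      right; right; right
      refine ⟨E', h2, ?_⟩
      rw [h4, Multiset.cons_swap]
      rfl

theorem card_of_del_up {G A : RT} (h : Del leaf (node {G}) A) : Multiset.card (ch A) ≤ 1 := by
  rcases del_up.1 h with ⟨_, rfl⟩ | ⟨X', _, rfl⟩
  · simp [leaf]
  · simp

theorem rest_leaf {P D : RT} {N : Multiset RT} (h : ch P = D ::ₘ N) (hs : size P = size D + 2) :
    P = node {D, leaf} := by
  have h1 : P = node (D ::ₘ N) := by rw [← h, node_ch]
  have h2 : size P = size D + size (node N) := by rw [h1, size_cons]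
  have h3 : node N = node {leaf} := size_eq_two (by omega)
  rw [h1, node_inj.1 h3]
  rfl

theorem ll_H4 : LL_H4 := by
  intro A m hm hA dA hQS
  have hAl : A ≠ leaf := by
    rintro rfl
    rw [size_leaf] at hA
    omega
  -- the choice
  have hc : (∃ D₁ D₂, Q A D₁ D₂ ∧ ∀ C, A = node {C, leaf} → D₂ = node {C} ∧ ¬ IsPt C) ∨
      A = node {leaf, Pt (m - 2)} := by
    by_cases hC : ∃ C, A = node {C, leaf}
    · obtain ⟨C, rfl⟩ := hC
      rw [size_pair, size_leaf] at hA
      by_cases hP : IsPt C
      · right
        rw [hP.eq, show m - 2 = size C by omega]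
        exact congrArg node (Multiset.cons_swap _ _ _)
      · left
        obtain ⟨C', hC'⟩ := del_exists (X := C) (by
          rintro rfl
          exact hP isPt_leaf)
        have hrd := RD1 (A := C) (A' := C') (B := leaf) (NB := 0) (M := 0)
          (by rw [size_leaf]; omega) hC' (Or.inl ⟨rfl, rfl⟩) (by
            intro h
            have := h.size1
            rw [size_leaf] at this
            omega)
        refine ⟨_, _, hrd, ?_⟩
        intro E hE
        have h1 := node_inj.1 hE
        rw [pair_eq] at h1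
        rcases h1 with ⟨h1, _⟩ | ⟨h1, h2⟩
        · subst h1
          exact ⟨by rw [zero_add]; rfl, hP⟩
        · exfalso
          rw [h1, size_leaf] at hA
          omega
    · left
      obtain ⟨D₁, D₂, h⟩ := hQS
      exact ⟨D₁, D₂, h, fun C hC' => absurd ⟨C, hC'⟩ hC⟩
  rcases hc with ⟨D₁, D₂, ⟨h1, h2, hne, huni⟩, hsp⟩ | hc
  · left
    have s1 := h1.size1
    have s2 := h2.size1
    refine masterH _ D₁ A D₂ A m (by omega) (by omega) hA (by omega) hA
      (UCard.of_del (Del.deep _ h1)) (UCard.of_del (Del.deep _ h2)) ?_ ?_ ?_ ?_ ?_ ?_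
    · intro h
      exact hne ((Multiset.cons_inj_left _).1 (node_inj.1 h))
    · intro W V hW hV h
      have hWV : W = V := by
        rcases h with ⟨h, _⟩ | ⟨h, h'⟩
        · exact h
        · rw [h, ← h']
      subst hWV
      rw [huni W hW hV]
      exact UI.refl _
    · intro W G _ hG _
      have := card_of_del_up hG
      omega
    · intro F V hF _ _
      have := card_of_del_up hF
      omega
    · intro F G hF _ _
      have := card_of_del_up hF
      omega
    · intro P P' hP hP' _ _ h
      exfalso
      have s3 := hP.size1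
      have s4 := hP'.size1
      rcases Multiset.cons_eq_cons.1 h with ⟨h3, _⟩ | ⟨_, N, h3, h4⟩
      · exact hne h3
      · have h5 := rest_leaf h3 (by omega)
        rw [h5] at hP
        rcases del_pair hP with ⟨h6, _⟩ | ⟨_, h6⟩ | ⟨D', h6, h7⟩ | ⟨F', h6, _⟩
        · rw [h6, size_leaf] at s2
          omega
        · rw [h6, card_ch_up] at dA
          omega
        · obtain ⟨h8, h9⟩ := hsp D' h7
          rw [h8] at h6
          exact h9 (PL1 h6)
        · exact not_del_leaf h6
  · exact Or.inr hc

theorem ll_H5 : LL_H5 := by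
  intro A₁ m hm hA hQS
  have hnp : ¬ IsPt A₁ := fun h => not_QS_of_isPt h hQS
  obtain ⟨D₁, D₂, h1, h2, hne, huni⟩ := hQS
  have s1 := h1.size1
  have s2 := h2.size1
  have hk1 : ∀ D, Del leaf A₁ D → A₁ = node {D} → False := by
    intro D h h'
    rw [h'] at h
    exact hnp (by rw [h']; exact PL1' h)
  have hk2 : Del leaf (node {node {A₁}}) (node {A₁}) → False := fun h => hnp (isPt_up.1 (PL1 h))
  have hk3 : ∀ D, Del leaf A₁ D → Del leaf (node {node {node {D}}}) (node {A₁}) → False := by
    intro D h h'
    rcases del_up.1 h' with ⟨h4, _⟩ | ⟨X', h4, h5⟩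
    · have := congrArg size h4
      rw [size_up, size_leaf] at this
      have := size_pos (node {D})
      omega
    · rw [up_inj] at h5
      subst h5
      exact hnp (PL2' h4 h)
  refine masterH _ (node {D₁}) (node {A₁}) (node {D₂}) (node {A₁}) m (by omega)
    (by rw [size_up]; omega) (by rw [size_up]; omega) (by rw [size_up]; omega)
    (by rw [size_up]; omega) (UCard.of_del ?_) (UCard.of_del ?_) ?_ ?_ ?_ ?_ ?_ ?_
  · rw [ch_node]
    exact Del.deep _ h1.up
  · rw [ch_node]
    exact Del.deep _ h2.up
  · intro h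
    exact hne (up_inj.1 ((Multiset.cons_inj_left _).1 (node_inj.1 h)))
  · intro W V hW hV h
    have hWV : W = V := by
      rcases h with ⟨h, _⟩ | ⟨h, h'⟩
      · exact h
      · rw [h, ← h']
    subst hWV
    rcases del_to_up.1 hW with h4 | ⟨W', h4, h5⟩
    · rcases del_to_up.1 hV with h6 | ⟨V', h6, h7⟩
      · exfalso
        rw [h4] at h6
        have h8 := node_inj.1 h6
        rw [pair_eq] at h8
        rcases h8 with ⟨_, h8⟩ | ⟨h8, h9⟩
        · exact hne h8
        · exact hne (h9.trans h8)
      · rw [h4] at h6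
        exact absurd h6.symm up_ne_pair
    · rcases del_to_up.1 hV with h6 | ⟨V', h6, h7⟩
      · rw [h4] at h6
        exact absurd h6 up_ne_pair
      · rw [h4, up_inj] at h6
        subst h6
        rw [h4, huni W' h5 h7, ch_node]
        exact UI.refl _
  · intro W G _ hG h
    rcases h with ⟨_, h⟩ | ⟨_, h⟩
    · exact absurd (up_inj.1 h) (fun h => hk1 D₂ h2 h)
    · subst h
      exact absurd hG hk2
  · intro F V hF _ h
    rcases h with ⟨_, h⟩ | ⟨h, _⟩
    · exact absurd (up_inj.1 h).symm (fun h => hk1 D₁ h1 h)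
    · subst h
      exact absurd hF hk2
  · intro F G hF _ h
    rcases h with ⟨_, h⟩ | ⟨h, _⟩
    · exact absurd (up_inj.1 h) hne
    · subst h
      exact absurd hF (hk3 D₂ h2)
  · intro P P' hP hP' cP cP' h
    exfalso
    rcases del_to_up.1 hP with h4 | ⟨W', h4, _⟩
    · rcases del_to_up.1 hP' with h6 | ⟨V', h6, _⟩
      · rw [h4, h6] at h
        exact hne (up_inj.1 ((Multiset.cons_inj_left _).1 h))
      · rw [h6, card_ch_up] at cP'
        omega
    · rw [h4, card_ch_up] at cP
      omega

end Pool.Agent.Helper13K9.Drn
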