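import Pool.Agent.Helper13K9.Drn.Masters

/-!
# Two leaves with isomorphic cards are similar
-/

set_option autoImplicit false

namespace Pool.Agent.Helper13K9.Drn

open Multiset

/-- `In K D Y`, and `D⁺` is `D` with a leaf at the vertex which is the root of `Y` -/
inductive In3 : RT → RT → RT → RT → Prop
  | root (K D : RT) : In3 K D (node (leaf ::ₘ ch D)) (node (K ::ₘ ch D))
  | deep {K E E' Y : RT} (N : Multiset RT) : In3 (node (K ::ₘ N)) E E' Y →
      In3 K (node (E ::ₘ N)) (node (E' ::ₘ N)) Y

theorem In3.del {K D D' Y : RT} (h : In3 K D D' Y) : Del leaf D' D := by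
  induction h with
  | root K D =>
    have := Del.here (S := leaf) (ch D)
    rwa [node_ch] at this
  | @deep K E E' Y N h0 ih => exact Del.deep N ih

theorem In3.ui {K D D' Y : RT} (h : In3 K D D' Y) : UI (node {Y}) (node (K ::ₘ ch D')) := by
  induction h with
  | root K D =>
    have h1 := UI.re (node (K ::ₘ ch D)) 0
    have h2 : ch (node (K ::ₘ ch D)) = K ::ₘ ch D := ch_node _
    rw [h2] at h1
    rw [ch_node, Multiset.cons_swap]
    exact h1
  | @deep K E E' Y N h0 ih =>
    refine ih.trans ?_
    have h1 := (UI.re E' (K ::ₘ N)).symm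
    rw [Multiset.cons_swap] at h1
    rwa [ch_node]

theorem In.in3 {K D Y : RT} (h : In K D Y) : ∃ D', In3 K D D' Y := by
  induction h with
  | root K D => exact ⟨_, In3.root K D⟩
  | @deep K E Y N h0 ih =>
    obtain ⟨D', h1⟩ := ih
    exact ⟨_, In3.deep N h1⟩

theorem In3.cases' {K D D' Y : RT} (h : In3 K D D' Y) :
    (D' = node (leaf ::ₘ ch D) ∧ Y = node (K ::ₘ ch D)) ∨
      ∃ E E' N, D = node (E ::ₘ N) ∧ D' = node (E' ::ₘ N) ∧ In3 (node (K ::ₘ N)) E E' Y := by
  cases h with
  | root K D => exact Or.inl ⟨rfl, rfl⟩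
  | @deep _ E E' Y N h0 => exact Or.inr ⟨E, E', N, rfl, rfl, h0⟩

theorem In3.unique {K D D' Y Y' : RT} (h : In3 K D D' Y) (h' : In3 K D D' Y') : Y = Y' := by
  induction h generalizing Y' with
  | root K D =>
    rcases h'.cases' with ⟨_, h2⟩ | ⟨E, E', N, h1, h2, _⟩
    · exact h2.symm
    · exfalso
      have h3 := congrArg Multiset.card (node_inj.1 h2)
      rw [h1] at h3
      simp at h3
  | @deep K E E' Y N h0 ih =>
    rcases h'.cases' with ⟨h2, _⟩ | ⟨F, F', N', h1, h2, h3⟩
    · exfalso
      have h3 := congrArg Multiset.card (node_inj.1 h2)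
      simp at h3
    · have e1 := node_inj.1 h1
      have e2 := node_inj.1 h2
      rcases Multiset.cons_eq_cons.1 e1 with ⟨h4, h5⟩ | ⟨hne, N₀, h4, h5⟩
      · subst h4 h5
        have h6 := (Multiset.cons_inj_left _).1 e2
        subst h6
        exact ih h3
      · exfalso
        rw [h4, h5] at e2
        rcases Multiset.cons_eq_cons.1 e2 with ⟨_, h6⟩ | ⟨_, N₁, h6, h7⟩
        · exact hne ((Multiset.cons_inj_left _).1 h6).symm
        · have s1 := h0.del.size1
          have h8 : E' ∈ E ::ₘ N₀ := by rw [h7]; exact Multiset.mem_cons_self _ _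
          have h9 : F' ∈ F ::ₘ N₀ := by rw [h6]; exact Multiset.mem_cons_self _ _
          -- cancel `N₀`: `{E', F} = {F', E}`
          have e3 : ({E', F} : Multiset RT) = {F', E} := by
            have e4 : ({E', F} : Multiset RT) + N₀ = {F', E} + N₀ := by
              simpa only [Multiset.insert_eq_cons, Multiset.cons_add, Multiset.singleton_add]
                using e2
            exact add_right_cancel e4
          rcases pair_eq.1 e3 with ⟨_, h10⟩ | ⟨h10, _⟩
          · exact hne h10.symm
          · rw [h10] at s1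
            omega

/-- `S⁺` is `S` with a leaf at the vertex which is the root of `X` -/
def In2 (S S' X : RT) : Prop :=
  (S' = node (leaf ::ₘ ch S) ∧ X = S) ∨
    ∃ D M D', S = node (D ::ₘ M) ∧ S' = node (D' ::ₘ M) ∧ In3 (node M) D D' X

theorem In2.exists {S X : RT} (h : UI S X) : ∃ S', In2 S S' X := by
  rcases (ui_iff S X).1 h with rfl | ⟨D, M, rfl, h1⟩
  · exact ⟨_, Or.inl ⟨rfl, rfl⟩⟩
  · obtain ⟨D', h2⟩ := h1.in3
    exact ⟨_, Or.inr ⟨D, M, D', rfl, rfl, h2⟩⟩

theorem In2.del {S S' X : RT} (h : In2 S S' X) : Del leaf S' S := by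
  rcases h with ⟨rfl, rfl⟩ | ⟨D, M, D', rfl, rfl, h⟩
  · have := Del.here (S := leaf) (ch X)
    rwa [node_ch] at this
  · exact Del.deep M h.del

theorem In2.ui {S S' X : RT} (h : In2 S S' X) : UI (node {X}) S' := by
  rcases h with ⟨rfl, rfl⟩ | ⟨D, M, D', rfl, rfl, h⟩
  · exact UI.re X 0
  · refine h.ui.trans ?_
    have := (UI.re D' M).symm
    exact this

theorem In2.unique {S S' X Y : RT} (h : In2 S S' X) (h' : In2 S S' Y) : X = Y := by
  rcases h with ⟨h1, rfl⟩ | ⟨D, M, D', h1, h2, h3⟩
  · rcases h' with ⟨_, h2⟩ | ⟨E, N, E', h2, h3, _⟩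
    · exact h2.symm
    · exfalso
      rw [h3, h2, ch_node] at h1
      have := congrArg Multiset.card (node_inj.1 h1)
      simp at this
  · rcases h' with ⟨h4, _⟩ | ⟨E, N, E', h4, h5, h6⟩
    · exfalso
      rw [h2, h1, ch_node] at h4
      have := congrArg Multiset.card (node_inj.1 h4)
      simp at this
    · -- as in `In3.unique`
      subst h1 h2
      have e1 := node_inj.1 h4
      have e2 := node_inj.1 h5
      rcases Multiset.cons_eq_cons.1 e1 with ⟨h7, h8⟩ | ⟨hne, N₀, h7, h8⟩
      · subst h7 h8
        have h9 := (Multiset.cons_inj_left _).1 e2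
        subst h9
        exact h3.unique h6
      · exfalso
        rw [h7, h8] at e2
        have s1 := h3.del.size1
        have e3 : ({D', E} : Multiset RT) = {E', D} := by
          have e4 : ({D', E} : Multiset RT) + N₀ = {E', D} + N₀ := by
            simpa only [Multiset.insert_eq_cons, Multiset.cons_add, Multiset.singleton_add]
              using e2
          exact add_right_cancel e4
        rcases pair_eq.1 e3 with ⟨_, h10⟩ | ⟨h10, _⟩
        · exact hne h10.symm
        · rw [h10] at s1
          omega

theorem rest_zero {P D : RT} {N : Multiset RT} (h : ch P = D ::ₘ N) (hs : size P = size D + 1) :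
    P = node {D} := by
  have h1 : P = node (D ::ₘ N) := by rw [← h, node_ch]
  have h2 : size P = size D + size (node N) := by rw [h1, size_cons]
  have h3 : node N = leaf := size_eq_one (by omega)
  rw [h1, node_inj.1 h3]
  rfl

theorem halves_in3 {A B X : RT} (h : UI (node (A ::ₘ ch B)) X) :
    (∃ A', In3 B A A' X) ∨ ∃ B', In3 A B B' X := by
  rcases (ui_iff _ _).1 h with rfl | ⟨D, M, h1, h2⟩
  · exact Or.inr ⟨_, In3.root A B⟩
  · rcases Multiset.cons_eq_cons.1 (node_inj.1 h1) with ⟨h3, h4⟩ | ⟨_, N, h3, h4⟩
    · subst h3 h4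
      rw [node_ch] at h2
      exact Or.inl h2.in3
    · subst h4
      right
      have h5 := (In.deep N h2).in3
      rwa [← h3, node_ch] at h5

theorem lib_HP : Lib_HP := by
  intro X Y hXY hN
  by_cases hX1 : size X = 1
  · rw [size_eq_one hX1, size_eq_one (hXY.size_eq.symm.trans hX1)]
  rcases lib_exists X with ⟨M₀, h1, h2⟩ | ⟨A, B, h1, h2⟩
  · -- one centroid
    have hs := h1.size_eq
    rw [hs] at h2 hX1
    obtain ⟨S₁, a1⟩ := In2.exists h1.symm
    obtain ⟨S₂, b1⟩ := In2.exists (h1.symm.trans hXY)
    have hS : UI S₁ S₂ := a1.ui.symm.trans (hN.trans b1.ui)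
    suffices h : S₁ = S₂ by
      subst h
      exact a1.unique b1
    have s1 := a1.del.size1
    have s2 := b1.del.size1
    have hp := size_pos (node M₀)
    have br : ∀ S', Del leaf S' (node M₀) → ∀ E ∈ ch S', 2 * size E ≤ size S' := by
      intro S' hS' E hE
      have s3 := hS'.size1
      obtain ⟨B, N, M, e1, e2, e3⟩ := del_rp.1 hS'
      rw [ch_node] at e2
      rw [e1] at hE
      rcases Multiset.mem_cons.1 hE with rfl | hE
      · rcases e3 with ⟨rfl, _⟩ | ⟨B', h4, rfl⟩
        · rw [size_leaf]
          omega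
        · have := h4.size1
          have := h2 B' (by rw [e2]; simp)
          omega
      · have := h2 E (by rw [e2]; exact Multiset.mem_add.2 (Or.inr hE))
        omega
    by_cases c1 : Bal S₁
    · by_cases c2 : Bal S₂
      · exact Bal.unique c1 c2 hS
      · exfalso
        unfold Bal at c2
        push Not at c2
        obtain ⟨E, hE, h5⟩ := c2
        have h6 := br S₂ b1.del E hE
        obtain ⟨M, hM⟩ := Multiset.exists_cons_of_mem hE
        have h7 : S₂ = node (E ::ₘ ch (node M)) := by rw [ch_node, ← hM, node_ch]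
        have h8 : size S₂ = size E + size (node M) := by rw [h7, size_cons_ch]
        exact bal_half (X := S₁) (A := E) (B := node M) (by rw [← h7]; exact hS) c1 (by omega)
    · have c1' := c1
      unfold Bal at c1
      push Not at c1
      obtain ⟨E, hE, h5⟩ := c1
      have h6 := br S₁ a1.del E hE
      obtain ⟨M, hM⟩ := Multiset.exists_cons_of_mem hE
      have h7 : S₁ = node (E ::ₘ ch (node M)) := by rw [ch_node, ← hM, node_ch]
      have h8 : size S₁ = size E + size (node M) := by rw [h7, size_cons_ch]
      by_cases c2 : Bal S₂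
      · exfalso
        exact bal_half (X := S₂) (A := E) (B := node M) (by rw [← h7]; exact hS.symm) c2
          (by omega)
      · unfold Bal at c2
        push Not at c2
        obtain ⟨F, hF, i5⟩ := c2
        have i6 := br S₂ b1.del F hF
        obtain ⟨M', hM'⟩ := Multiset.exists_cons_of_mem hF
        have i7 : S₂ = node (F ::ₘ ch (node M')) := by rw [ch_node, ← hM', node_ch]
        have i8 : size S₂ = size F + size (node M') := by rw [i7, size_cons_ch]
        have h9 := bi E (node M) F (node M') (by rw [← h7, ← i7]; exact hS) (by omega) (by omega)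
        rcases h9 with ⟨h9, h10⟩ | ⟨h9, h10⟩
        · rw [h7, i7, h9, h10]
        · -- swapped halves
          have k7 : S₁ = node (E ::ₘ M) := by rw [h7, ch_node]
          have l7 : S₂ = node (F ::ₘ M') := by rw [i7, ch_node]
          -- `M₀ = E₀ :: M`, `M₀ = F₀ :: M'`
          have form : ∀ S' E M, Del leaf S' (node M₀) → S' = node (E ::ₘ M) →
              2 * size E = size S' → ∃ E₀, Del leaf E E₀ ∧ M₀ = E₀ ::ₘ M := by
            intro S' E M hd hS' h2E
            have sd := hd.size1
            rw [hS'] at hd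
            rcases del_iff.1 hd with ⟨M₁, e1, e2⟩ | ⟨D, D', M₁, e1, e2, e3⟩
            · exfalso
              have e2' := node_inj.1 e2
              rcases Multiset.cons_eq_cons.1 e1 with ⟨e4, e5⟩ | ⟨_, N, e4, e5⟩
              · rw [e4, size_leaf] at h2E
                omega
              · have e6 : E ∈ M₀ := by rw [e2', e5]; exact Multiset.mem_cons_self _ _
                have := h2 E e6
                omega
            · have e3' := node_inj.1 e3
              rcases Multiset.cons_eq_cons.1 e1 with ⟨e4, e5⟩ | ⟨_, N, e4, e5⟩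
              · subst e4 e5
                exact ⟨D', e2, e3'⟩
              · exfalso
                have e6 : E ∈ M₀ := by
                  rw [e3', e5]
                  exact Multiset.mem_cons_of_mem (Multiset.mem_cons_self _ _)
                have := h2 E e6
                omega
          obtain ⟨E₀, e1, e2⟩ := form S₁ E M a1.del k7 (by omega)
          obtain ⟨F₀, f1, f2⟩ := form S₂ F M' b1.del l7 (by omega)
          have t1 := e1.size1
          have t2 := f1.size1
          rw [e2] at f2
          rcases Multiset.cons_eq_cons.1 f2 with ⟨h3, h4⟩ | ⟨hne, N, h3, h4⟩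
          · subst h4
            rw [k7, l7, h9, h10]
          · exfalso
            apply hne
            have g1 : E = node {E₀} := by
              apply rest_zero (N := N) _ t1
              rw [h9, ch_node, h4]
            have g2 : F = node {F₀} := by
              apply rest_zero (N := N) _ t2
              rw [← h10, ch_node, h3]
            rw [g1] at e1
            rw [g2] at f1
            exact (PL1 e1).unique (PL1 f1) (by omega)
  · -- two halves
    have hs := h1.size_eq
    rw [size_cons_ch] at hs
    have same : ∀ A B X Y A₁ A₂ : RT, size A = size B → In3 B A A₁ X → In3 B A A₂ Y →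
        UI (node {X}) (node {Y}) → X = Y := by
      intro A B X Y A₁ A₂ h2 h3 h4 hN
      have s1 := h3.del.size1
      have s2 := h4.del.size1
      have h5 := Bal.unique (balN (m := size A) h2.symm s1) (balN (m := size A) h2.symm s2)
        (h3.ui.symm.trans (hN.trans h4.ui))
      have h6 : A₁ = A₂ := by
        rw [← node_ch A₁, ← node_ch A₂, (Multiset.cons_inj_right _).1 (node_inj.1 h5)]
      subst h6
      exact h3.unique h4
    have cross : ∀ X Y A₁ B₁ : RT, In3 B A A₁ X → In3 A B B₁ Y →
        UI (node {X}) (node {Y}) → X = Y := by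
      intro X Y A₁ B₁ h3 h4 hN
      have s1 := h3.del.size1
      have s2 := h4.del.size1
      have h5 := Bal.unique (balN (m := size A) h2.symm s1) (balN (m := size A) rfl (by omega))
        (h3.ui.symm.trans (hN.trans h4.ui))
      rcases Multiset.cons_eq_cons.1 (node_inj.1 h5) with ⟨h6, h7⟩ | ⟨hne, N, h6, h7⟩
      · subst h6
        have h8 : A₁ = B₁ := by rw [← node_ch A₁, ← node_ch B₁, h7]
        subst h8
        exact h3.unique h4
      · exfalso
        apply hne
        have g1 := rest_zero h6 s1
        have g2 := rest_zero h7 s2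
        have e1 := h3.del
        have e2 := h4.del
        rw [g1] at e1
        rw [g2] at e2
        exact (PL1 e2).unique (PL1 e1) (by omega)
    rcases halves_in3 h1.symm with ⟨A₁, a1⟩ | ⟨B₁, a1⟩
    · rcases halves_in3 (h1.symm.trans hXY) with ⟨A₂, a2⟩ | ⟨B₂, a2⟩
      · exact same A B X Y A₁ A₂ h2 a1 a2 hN
      · exact cross X Y A₁ B₂ a1 a2 hN
    · rcases halves_in3 (h1.symm.trans hXY) with ⟨A₂, a2⟩ | ⟨B₂, a2⟩
      · exact (cross Y X A₂ B₁ a2 a1 hN.symm).symm
      · exact same B A X Y B₁ B₂ h2.symm a1 a2 hN

end Pool.Agent.Helper13K9.Drn
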