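import Pool.Agent.Helper13K9.Drn.QH

/-!
# Pairs of leaves: the pieces

`Master*`: which trees are determined by two leaf cards, given the forms of the cards at their
centroids. `LL_*`: the cases.
-/

set_option autoImplicit false

namespace Pool.Agent.Helper13K9.Drn

open Multiset

/-! ## Masters (helper13) -/

/-- two halves `P`, `Q`, and a further leaf in `P`; the tree rooted at the root of `P` -/
def Ext (P Q' R : RT) : Prop := ∃ W, Del leaf W P ∧ R = node (Q' ::ₘ ch W)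

/-- both cards are rooted at their centroid, which is the centroid of the tree -/
def MasterR : Prop := ∀ X Y₁ Y₂ : RT, Q X Y₁ Y₂ → 3 ≤ size X →
  (∀ D ∈ ch Y₁, 2 * (size D + 1) < size X) → (∀ D ∈ ch Y₂, 2 * (size D + 1) ≤ size X) → LLgood X

/-- `T` has `2m` vertices, the cards `2m-1`, with a branch with `m-1` vertices at their centroid -/
def MasterH : Prop := ∀ (T A₁ B₁ A₂ B₂ : RT) (m : ℕ), 3 ≤ m → size A₁ + 1 = m → size B₁ = m →
  size A₂ + 1 = m → size B₂ = m → UCard T (node (A₁ ::ₘ ch B₁)) → UCard T (node (A₂ ::ₘ ch B₂)) →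
  node (A₁ ::ₘ ch B₁) ≠ node (A₂ ::ₘ ch B₂) →
  (∀ W V, Del leaf W A₁ → Del leaf V A₂ → (W = V ∧ B₁ = B₂) ∨ (W = B₂ ∧ B₁ = V) →
    UI (node (W ::ₘ ch B₁)) T) →
  (∀ W G, Del leaf W A₁ → Del leaf (node {G}) B₂ →
    (W = G ∧ B₁ = node {A₂}) ∨ (W = node {A₂} ∧ B₁ = G) → UI (node (W ::ₘ ch B₁)) T) →
  (∀ F V, Del leaf (node {F}) B₁ → Del leaf V A₂ →
    (F = V ∧ node {A₁} = B₂) ∨ (F = B₂ ∧ node {A₁} = V) → UI (node {F, A₁}) T) →
  (∀ F G, Del leaf (node {F}) B₁ → Del leaf (node {G}) B₂ →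
    (F = G ∧ A₁ = A₂) ∨ (F = node {A₂} ∧ node {A₁} = G) → UI (node {F, A₁}) T) →
  (∀ P P', Del leaf P B₁ → Del leaf P' B₂ → 2 ≤ Multiset.card (ch P) →
    2 ≤ Multiset.card (ch P') → A₁ ::ₘ ch P = A₂ ::ₘ ch P' → UI (node (A₁ ::ₘ ch P)) T) →
  LLgood T

/-- `T` has `2m+1` vertices, the cards have two halves -/
def MasterN0 : Prop := ∀ (T P₁ Q₁ P₂ Q₂ : RT) (m : ℕ), 3 ≤ m → size P₁ = m → size Q₁ = m →
  size P₂ = m → size Q₂ = m → UCard T (node (P₁ ::ₘ ch Q₁)) → UCard T (node (P₂ ::ₘ ch Q₂)) →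
  ¬ ((P₁ = P₂ ∧ Q₁ = Q₂) ∨ (P₁ = Q₂ ∧ Q₁ = P₂)) →
  (∀ R, Ext P₁ Q₁ R ∨ Ext Q₁ P₁ R → Ext P₂ Q₂ R ∨ Ext Q₂ P₂ R → UI R T) → LLgood T

/-- `T` has `2m+1` vertices, the first card is balanced, the second has two halves -/
def MasterN1 : Prop := ∀ (T : RT) (K : Multiset RT) (P Q' : RT) (m : ℕ), 3 ≤ m → size P = m →
  size Q' = m → (∀ D ∈ K, size D + 1 ≤ m) → UCard T (node K) → UCard T (node (P ::ₘ ch Q')) →
  (∀ R, Del leaf R (node K) → Ext P Q' R ∨ Ext Q' P R → UI R T) → LLgood T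

/-! ## Cases -/

/-- two halves, different, root degrees at least two -/
def LL_H1 : Prop := ∀ (A B : RT) (m : ℕ), 5 ≤ m → size A = m → size B = m → A ≠ B →
  2 ≤ Multiset.card (ch A) → 2 ≤ Multiset.card (ch B) → LLgood (node (A ::ₘ ch B))

/-- two halves `A`, `node {B₁}` with root degrees at least two / one -/
def LL_H2 : Prop := ∀ (A B₁ : RT) (m : ℕ), 5 ≤ m → size A = m → size B₁ + 1 = m →
  2 ≤ Multiset.card (ch A) →
  LLgood (node {A, B₁}) ∨ (A = node {leaf, Pt (m - 2)} ∧ B₁ = Pt (m - 1))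

/-- two halves `node {A₁}`, `node {B₁}` -/
def LL_H3 : Prop := ∀ (A₁ B₁ : RT) (m : ℕ), 5 ≤ m → size A₁ + 1 = m → size B₁ + 1 = m →
  A₁ ≠ B₁ → ¬ IsPt A₁ → ¬ IsPt B₁ → LLgood (node {node {A₁}, B₁})

/-- two equal halves, root degree at least two -/
def LL_H4 : Prop := ∀ (A : RT) (m : ℕ), 5 ≤ m → size A = m → 2 ≤ Multiset.card (ch A) → QS A →
  LLgood (node (A ::ₘ ch A)) ∨ A = node {leaf, Pt (m - 2)}

/-- two equal halves, root degree one -/
def LL_H5 : Prop := ∀ (A₁ : RT) (m : ℕ), 5 ≤ m → size A₁ + 1 = m → QS A₁ →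
  LLgood (node {node {A₁}, A₁})

/-- `2m+1` vertices, two branches with `m` vertices, different -/
def LL_N0 : Prop := ∀ (B₁ B₂ : RT) (m : ℕ), 5 ≤ m → size B₁ = m → size B₂ = m → B₁ ≠ B₂ →
  ¬ IsPt B₁ → ¬ IsPt B₂ → LLgood (node {B₁, B₂})

/-- `2m+1` vertices, two equal branches with `m` vertices -/
def LL_N0' : Prop := ∀ (B : RT) (m : ℕ), 5 ≤ m → size B = m → QS B → LLgood (node {B, B})

/-- `2m+1` vertices, one branch with `m` vertices and at least two other branches -/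
def LL_N1 : Prop := ∀ (B₁ : RT) (M : Multiset RT) (m : ℕ), 5 ≤ m → size B₁ = m →
  size (node M) = m + 1 → 2 ≤ Multiset.card M → LLgood (node (B₁ ::ₘ M))

end Pool.Agent.Helper13K9.Drn
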