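import Pool.Agent.Helper13K9.Drn.Tasks

/-!
# Positions and centroids
-/

set_option autoImplicit false

namespace Pool.Agent.Helper13K9.Drn

open Multiset

theorem size_lt_of_mem {X D : RT} (h : D ∈ ch X) : size D < size X := by
  rw [size_eq X]
  have : size D ≤ ((ch X).map size).sum :=
    Multiset.single_le_sum (fun _ _ => Nat.zero_le _) _ (Multiset.mem_map_of_mem _ h)
  omega

theorem Sub.size_le {S X : RT} (h : Sub S X) : size S ≤ size X := by
  induction h with
  | refl => exact le_rfl
  | deep hD _ ih => exact ih.trans (size_lt_of_mem hD).le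

theorem Sub.cases' {S X : RT} (h : Sub S X) : S = X ∨ ∃ D ∈ ch X, Sub S D := by
  cases h with
  | refl => exact Or.inl rfl
  | deep hD h' => exact Or.inr ⟨_, hD, h'⟩

theorem Sub.trans {S X Y : RT} (h : Sub S X) (h' : Sub X Y) : Sub S Y := by
  induction h' with
  | refl => exact h
  | deep hD _ ih => exact Sub.deep hD ih

theorem size_cons (D : RT) (M : Multiset RT) : size (node (D ::ₘ M)) = size D + size (node M) := by
  rw [size_node, size_node, Multiset.map_cons, Multiset.sum_cons]; omega

theorem size_cons_ch (D X : RT) : size (node (D ::ₘ ch X)) = size D + size X := by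
  rw [size_cons, node_ch]

/-- nested or disjoint -/
theorem Sub.nested {S S' : RT} : ∀ {Y : RT}, Sub S Y → Sub S' Y → size Y < size S + size S' →
    Sub S S' ∨ Sub S' S := by
  intro Y
  induction Y using RT.ind with
  | h M ih =>
    intro h h' hs
    rcases h.cases' with rfl | ⟨D, hD, h1⟩
    · exact Or.inr h'
    rcases h'.cases' with rfl | ⟨D', hD', h2⟩
    · exact Or.inl h
    rw [ch_node] at hD hD'
    by_cases hDD : D = D'
    · subst hDD
      refine ih D hD h1 h2 ?_
      have := size_lt_of_mem (X := node M) (D := D) (by rw [ch_node]; exact hD)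
      omega
    · exfalso
      obtain ⟨N, rfl⟩ := Multiset.exists_cons_of_mem hD
      rcases Multiset.mem_cons.1 hD' with h3 | h3
      · exact hDD h3.symm
      obtain ⟨N', rfl⟩ := Multiset.exists_cons_of_mem h3
      have e1 := h1.size_le
      have e2 := h2.size_le
      rw [size_cons, size_cons] at hs
      omega

theorem In.step {K D Y Y' : RT} (h : In K D Y) (hr : Re Y Y') :
    In K D Y' ∨ Y' = node (D ::ₘ ch K) := by
  induction h with
  | root K D =>
    generalize hY : node (K ::ₘ ch D) = Y at hr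
    cases hr with
    | mk E M =>
      rw [node_inj] at hY
      rcases Multiset.cons_eq_cons.1 hY with ⟨h1, h2⟩ | ⟨_, N, h2, h3⟩
      · right
        rw [← h1, ← h2, node_ch]
      · left
        rw [h3]
        have : D = node (E ::ₘ N) := by rw [← h2, node_ch]
        rw [this]
        exact In.deep N (In.root _ _)
  | @deep K E Y N h0 ih =>
    rcases ih hr with h1 | h1
    · exact Or.inl (In.deep N h1)
    · left
      rw [h1, ch_node, Multiset.cons_swap]
      have := In.root K (node (E ::ₘ N))
      rwa [ch_node] at this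

theorem In.ui {K D Y : RT} (h : In K D Y) : UI (node (K ::ₘ ch D)) Y := by
  induction h with
  | root K D => exact UI.refl _
  | @deep K E Y N h0 ih =>
    rw [ch_node, Multiset.cons_swap]
    exact (UI.re E (K ::ₘ N)).trans ih

theorem ui_iff : Lib_UI_iff := by
  intro X Y
  constructor
  · intro h
    unfold UI at h
    induction h with
    | refl => exact Or.inl rfl
    | tail _ hr ih =>
      rename_i Y Y'
      rcases ih with rfl | ⟨D, M, rfl, hin⟩
      · right
        cases hr with
        | mk D M => exact ⟨D, M, rfl, In.root _ _⟩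
      · rcases hin.step hr with h1 | h1
        · exact Or.inr ⟨D, M, rfl, h1⟩
        · left
          rw [h1, ch_node]
  · rintro (rfl | ⟨D, M, rfl, hin⟩)
    · exact UI.refl _
    · exact (UI.re D M).trans hin.ui

theorem In.up {K D Y : RT} (h : In K D Y) : ∃ U S, Y = node (U ::ₘ ch S) ∧ Sub S D ∧
    size U + size S = size K + size D ∧ ((S = D ∧ U = K) ∨ size S < size D) := by
  induction h with
  | root K D => exact ⟨K, D, rfl, Sub.refl, rfl, Or.inl ⟨rfl, rfl⟩⟩
  | @deep K E Y N h0 ih =>
    obtain ⟨U, S, h1, h2, h3, h4⟩ := ih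
    have h5 := h2.size_le
    rw [size_cons] at h3
    refine ⟨U, S, h1, Sub.deep (by rw [ch_node]; exact Multiset.mem_cons_self _ _) h2, ?_, ?_⟩
    · rw [h3, size_cons]; omega
    · right
      rw [size_cons]
      have := size_pos (node N)
      omega

/-- the form of `UI` used most -/
theorem UI.cases {X Y : RT} (h : UI X Y) : X = Y ∨ ∃ D M U S, X = node (D ::ₘ M) ∧
    Y = node (U ::ₘ ch S) ∧ Sub S D ∧ size U + size S = size X ∧
    ((S = D ∧ U = node M) ∨ (size S < size D ∧ size (node M) < size U)) := by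
  rcases (ui_iff X Y).1 h with rfl | ⟨D, M, rfl, hin⟩
  · exact Or.inl rfl
  · right
    obtain ⟨U, S, h1, h2, h3, h4⟩ := hin.up
    refine ⟨D, M, U, S, rfl, h1, h2, by rw [h3, size_cons]; omega, ?_⟩
    rcases h4 with h4 | h4
    · exact Or.inl h4
    · right
      exact ⟨h4, by omega⟩

/-- balanced root -/
def Bal (X : RT) : Prop := ∀ D ∈ ch X, 2 * size D < size X

theorem Bal.unique {X Y : RT} (hX : Bal X) (hY : Bal Y) (h : UI X Y) : X = Y := by
  rcases h.cases with h | ⟨D, M, U, S, rfl, rfl, h1, h2, h3⟩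
  · exact h
  · exfalso
    have e1 := hX D (by rw [ch_node]; exact Multiset.mem_cons_self _ _)
    have e2 := hY U (by rw [ch_node]; exact Multiset.mem_cons_self _ _)
    have e3 := h1.size_le
    have e4 := h.size_eq
    omega

theorem uni : Lib_uni := by
  intro M M' h h1 h2
  have := Bal.unique (X := node M) (Y := node M') (by unfold Bal; rwa [ch_node])
    (by unfold Bal; rwa [ch_node]) h
  exact node_inj.1 this

/-- the vertices of a tree with two halves where all branches have at most half the size -/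
theorem half_cases {A B Y : RT} (h : UI (node (A ::ₘ ch B)) Y) (hAB : size A = size B)
    (hY : ∀ D ∈ ch Y, 2 * size D ≤ size Y) : Y = node (A ::ₘ ch B) ∨ Y = node (B ::ₘ ch A) := by
  have hs : size (node (A ::ₘ ch B)) = size A + size B := size_cons_ch A B
  rcases h.cases with h0 | ⟨D, M, U, S, h0, rfl, h1, h2, h3⟩
  · exact Or.inl h0.symm
  · have e2 := hY U (by rw [ch_node]; exact Multiset.mem_cons_self _ _)
    have e4 := h.size_eq
    rw [node_inj] at h0
    rcases Multiset.cons_eq_cons.1 h0 with ⟨h5, h6⟩ | ⟨_, N, h5, h6⟩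
    · rcases h3 with ⟨rfl, rfl⟩ | ⟨h3, _⟩
      · right
        rw [← h5, ← h6, node_ch]
      · exfalso
        rw [← h5] at h3
        omega
    · exfalso
      have h7 : size D < size B := size_lt_of_mem (by rw [h5]; exact Multiset.mem_cons_self _ _)
      have h8 := h1.size_le
      omega

theorem bi : Lib_bi := by
  intro A B A' B' h h1 h2
  have e := h.size_eq
  rw [size_cons_ch, size_cons_ch] at e
  have hY : ∀ D ∈ ch (node (A' ::ₘ ch B')), 2 * size D ≤ size (node (A' ::ₘ ch B')) := by
    intro D hD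
    rw [ch_node] at hD
    rw [size_cons_ch]
    rcases Multiset.mem_cons.1 hD with rfl | hD
    · omega
    · have := size_lt_of_mem hD
      omega
  have key : ∀ {P Q P' Q' : RT}, size P = size Q → size P' = size Q' → size P = size P' →
      P' ::ₘ ch Q' = P ::ₘ ch Q → P = P' ∧ Q = Q' := by
    intro P Q P' Q' h1 h2 h3 h4
    rcases Multiset.cons_eq_cons.1 h4 with ⟨h5, h6⟩ | ⟨_, N, h5, h6⟩
    · refine ⟨h5.symm, ?_⟩
      rw [← node_ch Q, ← node_ch Q', h6]
    · exfalso
      have := size_lt_of_mem (X := Q') (D := P) (by rw [h5]; exact Multiset.mem_cons_self _ _)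
      omega
  rcases half_cases h h1 hY with h3 | h3
  · left
    exact key h1 h2 (by omega) (node_inj.1 h3)
  · right
    have := key h1.symm h2 (by omega) (node_inj.1 h3)
    exact ⟨this.2, this.1⟩

theorem uni_bi : Lib_uni_bi := by
  intro M A B h hM hAB
  have h' := h.symm
  have e := h'.size_eq
  rw [size_cons_ch] at e
  rcases half_cases h' hAB (fun D hD => by rw [ch_node] at hD; have := hM D hD; omega) with h3 | h3
  · have := hM A (by rw [node_inj] at h3; rw [h3]; exact Multiset.mem_cons_self _ _)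
    omega
  · have := hM B (by rw [node_inj] at h3; rw [h3]; exact Multiset.mem_cons_self _ _)
    omega

theorem bal_half {X A B : RT} (h : UI X (node (A ::ₘ ch B))) (hX : Bal X) (hAB : size A = size B) :
    False := by
  refine uni_bi (ch X) A B (by rwa [node_ch]) (fun D hD => ?_) hAB
  rw [node_ch]
  exact hX D hD

theorem lib_exists : Lib_exists := by
  have key : ∀ s : ℕ, ∀ K D : RT, size D = s → size K < size D →
      (∃ M, UI (node (K ::ₘ ch D)) (node M) ∧ ∀ E ∈ M, 2 * size E < size (node (K ::ₘ ch D))) ∨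
      ∃ A B, UI (node (K ::ₘ ch D)) (node (A ::ₘ ch B)) ∧ size A = size B := by
    intro s
    induction s using Nat.strong_induction_on with
    | _ s ih =>
      intro K D hs hK
      by_cases hb : ∀ E ∈ (K ::ₘ ch D), 2 * size E < size (node (K ::ₘ ch D))
      · exact Or.inl ⟨_, UI.refl _, hb⟩
      push Not at hb
      obtain ⟨E, hE, hb⟩ := hb
      rw [size_cons_ch] at hb
      rcases Multiset.mem_cons.1 hE with rfl | hE
      · omega
      obtain ⟨N, hN⟩ := Multiset.exists_cons_of_mem hE
      have hDs : size D = size E + size (node N) := by rw [← node_ch D, hN, size_cons]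
      have hui : UI (node (K ::ₘ ch D)) (node (node (K ::ₘ N) ::ₘ ch E)) := by
        rw [hN, Multiset.cons_swap]
        exact UI.re E (K ::ₘ N)
      rcases Nat.lt_or_ge (size (node (K ::ₘ N))) (size E) with h1 | h1
      · have h2 := ih (size E) (by have := size_pos (node N); omega) (node (K ::ₘ N)) E rfl h1
        have h3 := hui.size_eq
        rcases h2 with ⟨M, h4, h5⟩ | ⟨A, B, h4, h5⟩
        · exact Or.inl ⟨M, hui.trans h4, by rw [h3]; exact h5⟩
        · exact Or.inr ⟨A, B, hui.trans h4, h5⟩
      · right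
        refine ⟨node (K ::ₘ N), E, hui, ?_⟩
        rw [size_cons] at h1 ⊢
        omega
  intro X
  by_cases hb : ∀ E ∈ ch X, 2 * size E < size X
  · exact Or.inl ⟨ch X, by rw [node_ch]; exact UI.refl _, hb⟩
  push Not at hb
  obtain ⟨E, hE, hb⟩ := hb
  obtain ⟨N, hN⟩ := Multiset.exists_cons_of_mem hE
  have hX : X = node (E ::ₘ N) := by rw [← hN, node_ch]
  have hui : UI X (node (node N ::ₘ ch E)) := by rw [hX]; exact UI.re E N
  have hs : size X = size E + size (node N) := by rw [hX, size_cons]
  rcases Nat.lt_or_ge (size (node N)) (size E) with h1 | h1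
  · have h2 := key _ (node N) E rfl h1
    have h3 := hui.size_eq
    rcases h2 with ⟨M, h4, h5⟩ | ⟨A, B, h4, h5⟩
    · exact Or.inl ⟨M, hui.trans h4, by rw [h3]; exact h5⟩
    · exact Or.inr ⟨A, B, hui.trans h4, h5⟩
  · exact Or.inr ⟨node N, E, hui, by omega⟩

theorem Del.add {S F E : RT} (h : Del S F E) (K : RT) :
    Del S (node (K ::ₘ ch F)) (node (K ::ₘ ch E)) := by
  cases h with
  | here M =>
    rw [ch_node, ch_node, Multiset.cons_swap]
    exact Del.here _
  | deep M h =>
    rw [ch_node, ch_node, Multiset.cons_swap, Multiset.cons_swap K]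
    exact Del.deep _ h

theorem Del.step {S H K K' : RT} (h : Del S H K) (hr : Re K K') :
    ∃ H', Del S H' K' ∧ Re H H' := by
  cases hr with
  | mk E M =>
    generalize hK : node (E ::ₘ M) = K at h
    cases h with
    | here M0 =>
      rw [node_inj] at hK
      subst hK
      refine ⟨node (node (S ::ₘ M) ::ₘ ch E), Del.deep _ (Del.here M), ?_⟩
      rw [Multiset.cons_swap]
      exact Re.mk E (S ::ₘ M)
    | deep N h =>
      rename_i F F'
      rw [node_inj] at hK
      rcases Multiset.cons_eq_cons.1 hK with ⟨h1, h2⟩ | ⟨_, N', h1, h2⟩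
      · subst h1 h2
        exact ⟨_, h.add (node M), Re.mk F M⟩
      · subst h1 h2
        refine ⟨node (node (F ::ₘ N') ::ₘ ch E), Del.deep _ (Del.deep _ h), ?_⟩
        rw [Multiset.cons_swap]
        exact Re.mk E (F ::ₘ N')

theorem Del.transport {S H K K' : RT} (h : Del S H K) (hr : UI K K') :
    ∃ H', Del S H' K' ∧ UI H H' := by
  unfold UI at hr
  induction hr with
  | refl => exact ⟨H, h, UI.refl _⟩
  | tail _ hr ih =>
    obtain ⟨H', h1, h2⟩ := ih
    obtain ⟨H'', h3, h4⟩ := h1.step hr
    exact ⟨H'', h3, h2.trans (Relation.ReflTransGen.single h4)⟩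

theorem attach : Lib_attach := by
  intro K K' D h
  have h1 : Del D (node (D ::ₘ ch K)) K := by
    have := Del.here (S := D) (ch K)
    rwa [node_ch] at this
  obtain ⟨H', h2, h3⟩ := h1.transport h
  refine ⟨H', h2, UI.trans ?_ h3⟩
  have := (UI.re D (ch K)).symm
  rwa [node_ch] at this

/-- a card can be rooted as we like -/
theorem UCard.root {Z Y Y' : RT} (h : UCard Z Y) (hY : UI Y Y') :
    ∃ Z', UI Z Z' ∧ Del leaf Z' Y' := by
  obtain ⟨Z₁, Y₁, h1, h2, h3⟩ := h
  obtain ⟨H', h4, h5⟩ := h2.transport (h3.trans hY)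
  exact ⟨H', h1.trans h5, h4⟩

theorem UCard.of_del {X Y : RT} (h : Del leaf X Y) : UCard X Y := ⟨X, Y, UI.refl _, h, UI.refl _⟩

theorem LLgood.ui {X X' : RT} (h : LLgood X) (hX : UI X X') : LLgood X' := by
  obtain ⟨Y₁, Y₂, ⟨A, B, h1, h2, h3⟩, ⟨A', B', h4, h5, h6⟩, h7, h8⟩ := h
  exact ⟨Y₁, Y₂, ⟨A, B, hX.symm.trans h1, h2, h3⟩, ⟨A', B', hX.symm.trans h4, h5, h6⟩, h7,
    fun Z hZ hZ' => (h8 Z hZ hZ').trans hX⟩

theorem NLgood.ui {X X' : RT} (h : NLgood X) (hX : UI X X') : NLgood X' := by
  obtain ⟨X₁, X₂, h1, h2, h3, h4⟩ := h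
  exact ⟨X₁, X₂, hX.symm.trans h1, hX.symm.trans h2, h3,
    fun Z₁ Z₂ h5 h6 h7 => (h4 Z₁ Z₂ h5 h6 h7).trans hX⟩

end Pool.Agent.Helper13K9.Drn
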