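import Pool.Agent.Helper13K9.Drn.H45

/-!
# Assembly: every large rooted tree type is good
-/

set_option autoImplicit false

namespace Pool.Agent.Helper13K9.Drn

open Multiset

theorem Del.branch_le {X Y E : RT} (h : Del leaf X Y) (hE : E ∈ ch Y) :
    ∃ D ∈ ch X, size E ≤ size D := by
  obtain ⟨B, N, M, h1, h2, h3⟩ := del_rp.1 h
  rw [h2] at hE
  rw [h1]
  rcases Multiset.mem_add.1 hE with hE | hE
  · exact ⟨B, Multiset.mem_cons_self _ _, by have := h3.size_eq hE; omega⟩
  · exact ⟨E, Multiset.mem_cons_of_mem hE, le_rfl⟩

/-- good in either sense -/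
def Good (X : RT) : Prop := LLgood X ∨ NLgood X

theorem Good.ui {X Y : RT} (h : Good X) (hXY : UI X Y) : Good Y := by
  rcases h with h | h
  · exact Or.inl (h.ui hXY)
  · exact Or.inr (h.ui hXY)

theorem exists_max {M : Multiset RT} (hM : M ≠ 0) : ∃ A ∈ M, ∀ D ∈ M, size D ≤ size A := by
  induction M using Multiset.induction_on with
  | empty => exact absurd rfl hM
  | cons a M ih =>
    by_cases h : M = 0
    · subst h
      exact ⟨a, Multiset.mem_cons_self _ _, fun D hD => by
        rcases Multiset.mem_cons.1 hD with rfl | h
        · exact le_rfl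
        · exact absurd h (Multiset.notMem_zero _)⟩
    · obtain ⟨A, hA, h1⟩ := ih h
      rcases Nat.le_total (size a) (size A) with h2 | h2
      · exact ⟨A, Multiset.mem_cons_of_mem hA, fun D hD => by
          rcases Multiset.mem_cons.1 hD with rfl | h
          · exact h2
          · exact h1 D h⟩
      · exact ⟨a, Multiset.mem_cons_self _ _, fun D hD => by
          rcases Multiset.mem_cons.1 hD with rfl | h
          · exact le_rfl
          · exact (h1 D h).trans h2⟩

theorem size_const {M : Multiset RT} {s : ℕ} (h : ∀ F ∈ M, size F = s) :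
    size (node M) = Multiset.card M * s + 1 := by
  rw [size_node]
  have : M.map size = Multiset.replicate (Multiset.card M) s := by
    rw [Multiset.eq_replicate]
    refine ⟨by simp, ?_⟩
    intro b hb
    obtain ⟨F, hF, rfl⟩ := Multiset.mem_map.1 hb
    exact h F hF
  rw [this, Multiset.sum_replicate, smul_eq_mul]
  omega

theorem robust (hstar : NL_star) (hsym : NL_sym) (M : Multiset RT) (h5 : 5 ≤ size (node M))
    (h1 : ∀ D ∈ M, 2 * (size D + 1) ≤ size (node M))
    (h2 : ∀ A B M', M = A ::ₘ B ::ₘ M' → 2 * (size A + 1) < size (node M) ∨
      2 * (size B + 1) < size (node M)) : Good (node M) := by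
  have hM : M ≠ 0 := by
    rintro rfl
    have : size (node 0) = 1 := size_leaf
    omega
  by_cases hs : ∀ E ∈ M, ∀ F ∈ M, size E = size F
  · -- all branches have the same size
    obtain ⟨D, hD⟩ := Multiset.exists_mem_of_ne_zero hM
    have hsz : size (node M) = Multiset.card M * size D + 1 := size_const (fun F hF => hs F hF D hD)
    have hcard : 2 ≤ Multiset.card M := by
      have := h1 D hD
      by_contra hc
      have hc1 : Multiset.card M = 1 := by
        have := Multiset.card_pos.2 hM
        omega
      rw [hc1] at hsz
      omega
    have hlt : ∀ E ∈ M, 2 * (size E + 1) < size (node M) := by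
      intro E hE
      obtain ⟨M₁, rfl⟩ := Multiset.exists_cons_of_mem hD
      have hM₁ : M₁ ≠ 0 := by
        rintro rfl
        simp at hcard
      obtain ⟨F, hF⟩ := Multiset.exists_mem_of_ne_zero hM₁
      obtain ⟨M₂, rfl⟩ := Multiset.exists_cons_of_mem hF
      have e1 := hs E hE D hD
      have e2 := hs E hE F (Multiset.mem_cons_of_mem hF)
      rcases h2 D F M₂ rfl with h | h
      · omega
      · omega
    have hcard3 : 3 ≤ Multiset.card M := by
      by_contra hc
      have hc2 : Multiset.card M = 2 := by omega
      rw [hc2] at hsz
      have := hlt D hD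
      omega
    rcases cls (node M) with ⟨Y₁, Y₂, hQ⟩ | hH
    · left
      refine masterR _ Y₁ Y₂ hQ (by omega) ?_ ?_
      · intro E hE
        obtain ⟨D, hD, hle⟩ := hQ.1.branch_le hE
        rw [ch_node] at hD
        have := hlt D hD
        omega
      · intro E hE
        obtain ⟨D, hD, hle⟩ := hQ.2.1.branch_le hE
        rw [ch_node] at hD
        have := hlt D hD
        omega
    · right
      rcases hH.cases' with h | ⟨E, M', h, _, hE⟩
      · exact absurd (node_inj.1 h) hM
      · have hM' := node_inj.1 h
        have hEM : E ∈ M := by rw [hM']; exact Multiset.mem_cons_self _ _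
        by_cases hE1 : size E = 1
        · have : M = Multiset.replicate (Multiset.card M) leaf := by
            rw [Multiset.eq_replicate]
            refine ⟨rfl, fun F hF => size_eq_one ?_⟩
            rw [hs F hF E hEM, hE1]
          rw [this]
          exact hstar _ (by omega)
        · have := size_pos E
          exact hsym M (size E) E (by omega) hcard3 (fun F hF => hs F hF E hEM) hEM hE.homog
  · -- two different sizes
    left
    obtain ⟨A, hA, hmax⟩ := exists_max hM
    have : ∃ B ∈ M, size B < size A := by
      by_contra hc
      push Not at hc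
      apply hs
      intro E hE F hF
      have e1 := hmax E hE
      have e2 := hmax F hF
      have e3 := hc E hE
      have e4 := hc F hF
      omega
    obtain ⟨B, hB, hBA⟩ := this
    obtain ⟨M₁, rfl⟩ := Multiset.exists_cons_of_mem hA
    have hB' : B ∈ M₁ := by
      rcases Multiset.mem_cons.1 hB with h | h
      · rw [h] at hBA
        omega
      · exact h
    obtain ⟨M₂, rfl⟩ := Multiset.exists_cons_of_mem hB'
    obtain ⟨A', NB, hA', hNB, hQ⟩ := RD1' M₂ hBA
    have sA := hA'.size1
    have e0 := h1 A (Multiset.mem_cons_self _ _)
    refine masterR _ _ _ hQ (by omega) ?_ ?_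
    · intro E hE
      rw [ch_node] at hE
      rcases Multiset.mem_cons.1 hE with rfl | hE
      · omega
      · rcases Multiset.mem_cons.1 hE with rfl | hE
        · omega
        · have e1 := hmax E (Multiset.mem_cons_of_mem (Multiset.mem_cons_of_mem hE))
          obtain ⟨M₃, rfl⟩ := Multiset.exists_cons_of_mem hE
          rcases h2 A E (B ::ₘ M₃) (by rw [Multiset.cons_swap E B]) with h | h
          · omega
          · exact h
    · intro E hE
      obtain ⟨D, hD, hle⟩ := hQ.2.1.branch_le hE
      rw [ch_node] at hD
      have := h1 D hD
      omega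

/-! ### Tails -/

theorem tail_ui (W : RT) (j : ℕ) : ∀ k : ℕ, 1 ≤ k →
    UI (node {Nn j W, Pt k}) (node (Pt (k + 1 + j) ::ₘ ch W)) := by
  induction j with
  | zero =>
    intro k hk
    obtain ⟨k, rfl⟩ := Nat.exists_eq_add_of_le' hk
    exact UI.re W {Pt (k + 1)}
  | succ j ih =>
    intro k hk
    rw [Nn_succ]
    have h1 := UI.re (node {Nn j W}) {Pt k}
    rw [ch_node] at h1
    have h2 : node (node {Pt k} ::ₘ {Nn j W}) = node {Nn j W, Pt (k + 1)} := by
      obtain ⟨k, rfl⟩ := Nat.exists_eq_add_of_le' hk
      exact congrArg node (Multiset.cons_swap _ _ _)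
    rw [h2] at h1
    have h3 := h1.trans (ih (k + 1) (by omega))
    rwa [show k + 1 + 1 + j = k + 1 + (j + 1) by omega] at h3

theorem Pt_zero_or (i : ℕ) : ∃ i', 1 ≤ i' ∧ Pt i = Pt i' := by
  rcases i with _ | i
  · exact ⟨1, le_rfl, rfl⟩
  · exact ⟨i + 1, by omega, rfl⟩

theorem tail_good (htail : NL_tail) (hspider : NL_spider) {W : RT} {L : ℕ}
    (hW : 2 ≤ Multiset.card (ch W)) (h1 : size W + 1 ≤ L) (h8 : 8 ≤ L) :
    Good (node (Pt L ::ₘ ch W)) := by
  right
  by_cases h : ∃ i j, W = node {Pt i, Pt j}
  · obtain ⟨i, j, rfl⟩ := h
    obtain ⟨i', hi', hi⟩ := Pt_zero_or i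
    obtain ⟨j', hj', hj⟩ := Pt_zero_or j
    rw [hi, hj] at h1 ⊢
    rw [size_pair, size_Pt' hi', size_Pt' hj'] at h1
    rw [ch_node]
    rcases Nat.le_total i' j' with h2 | h2
    · have := hspider i' j' L hi' h2 (by omega) (by omega)
      have e : (Pt L ::ₘ {Pt i', Pt j'} : Multiset RT) = {Pt i', Pt j', Pt L} := by
        simp only [Multiset.insert_eq_cons, ← Multiset.singleton_add]
        abel
      rwa [e]
    · have := hspider j' i' L hj' h2 (by omega) (by omega)
      have e : (Pt L ::ₘ {Pt i', Pt j'} : Multiset RT) = {Pt j', Pt i', Pt L} := by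
        simp only [Multiset.insert_eq_cons, ← Multiset.singleton_add]
        abel
      rwa [e]
  · push Not at h
    exact htail W L hW h h1 h8

theorem chain_good (htail : NL_tail) (hspider : NL_spider) {W : RT} {j k : ℕ} (hk : 1 ≤ k)
    (hW : 2 ≤ Multiset.card (ch W)) (h1 : size W ≤ k + j) (h8 : 7 ≤ k + j) :
    Good (node {Nn j W, Pt k}) :=
  (tail_good htail hspider (L := k + 1 + j) hW (by omega) (by omega)).ui (tail_ui W j k hk).symm

theorem isPt_eq_Pt {X : RT} {m : ℕ} (h : IsPt X) (hs : size X = m) : X = Pt m := by
  rw [h.eq, hs]

/-! ### Two halves -/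

theorem good_halves (hpath : NL_path) (hspider : NL_spider) (htail : NL_tail) (hlegs : NL_legs)
    (hdstar : NL_dstar) (hdouble : NL_double) (hchain : NL_chain)
    (hH1 : LL_H1) (hH2 : LL_H2) (hH3 : LL_H3) {A B : RT} {m : ℕ} (hm : 10 ≤ m) (hA : size A = m)
    (hB : size B = m) : Good (node (A ::ₘ ch B)) := by
  have key : ∀ X : RT, size X = m → 2 ≤ Multiset.card (ch X) ∨ ∃ Y, X = node {Y} := by
    intro X hX
    by_cases h : 2 ≤ Multiset.card (ch X)
    · exact Or.inl h
    · right
      rcases Nat.lt_or_ge (Multiset.card (ch X)) 1 with h1 | h1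
      · exfalso
        have : ch X = 0 := by
          rw [← Multiset.card_eq_zero]
          omega
        have h2 : X = leaf := by rw [← node_ch X, this]; rfl
        rw [h2, size_leaf] at hX
        omega
      · have : Multiset.card (ch X) = 1 := by omega
        obtain ⟨Y, hY⟩ := Multiset.card_eq_one.1 this
        exact ⟨Y, by rw [← hY, node_ch]⟩
  -- the mixed case
  have mixed : ∀ A B₁ : RT, size A = m → size B₁ + 1 = m → 2 ≤ Multiset.card (ch A) →
      Good (node {A, B₁}) := by
    intro A B₁ hA hB₁ hc
    rcases hH2 A B₁ m (by omega) hA hB₁ hc with h | ⟨rfl, rfl⟩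
    · exact Or.inl h
    · right
      have h1 := hspider 1 (m - 2) m le_rfl (by omega) (by omega) (by omega)
      refine h1.ui ?_
      have e : (({Pt 1, Pt (m - 2), Pt m} : Multiset RT)) = node {Pt (m - 1)} ::ₘ
          {leaf, Pt (m - 2)} := by
        have e1 : Pt m = node {Pt (m - 1)} := by
          obtain ⟨l, rfl⟩ : ∃ l, m = l + 2 := ⟨m - 2, by omega⟩
          rfl
        have e2 : Pt 1 = leaf := rfl
        rw [e1, e2]
        simp only [Multiset.insert_eq_cons, ← Multiset.singleton_add]
        abel
      rw [e]
      have h2 := UI.re (node {leaf, Pt (m - 2)}) {Pt (m - 1)}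
      rw [ch_node] at h2
      exact h2.symm
  by_cases hAB : A = B
  · subst hAB
    rcases key A hA with hc | ⟨A₁, rfl⟩
    · rcases cls A with hQ | hH
      · rcases ll_H4 A m (by omega) hA hc hQ with h | h
        · exact Or.inl h
        · right
          have := hlegs (m - 2) (by omega)
          rw [h, ch_node]
          exact this
      · right
        rcases hH.cases' with rfl | ⟨D, M', rfl, h1, hD⟩
        · rw [size_leaf] at hA
          omega
        · rw [ch_node] at hc ⊢
          have hsz : ∀ F ∈ D ::ₘ M', size F = size D := by
            intro F hF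
            rcases Multiset.mem_cons.1 hF with rfl | hF
            · rfl
            · exact h1 F hF
          have hs := size_const hsz
          rw [hA] at hs
          rcases hD.cases' with rfl | ⟨E, M'', rfl, h3, hE⟩
          · rw [size_leaf, mul_one] at hs
            have : leaf ::ₘ M' = Multiset.replicate (Multiset.card (leaf ::ₘ M')) leaf := by
              rw [Multiset.eq_replicate]
              refine ⟨rfl, fun F hF => size_eq_one ?_⟩
              rw [hsz F hF, size_leaf]
            rw [this]
            exact hdstar _ (by omega)
          · have hs2 : 2 ≤ size (node (E ::ₘ M'')) := by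
              rw [size_cons]
              have := size_pos E
              have := size_pos (node M'')
              omega
            refine hdouble _ (size (node (E ::ₘ M''))) _ E hs2 hc hsz (Multiset.mem_cons_self _ _)
              hD.homog ?_ hE.homog ?_ ?_
            · rw [ch_node]
              exact Multiset.mem_cons_self _ _
            · rw [hA]
              omega
            · rintro ⟨e1, e2⟩
              rw [e1, e2] at hs
              omega
    · rw [size_up] at hA
      rw [ch_node]
      change Good (node {node {A₁}, A₁})
      rcases cls A₁ with hQ | hH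
      · exact Or.inl (ll_H5 A₁ m (by omega) hA hQ)
      · rcases path_or_chain A₁ with hP | ⟨j, W, rfl, hW⟩
        · right
          have e1 := isPt_eq_Pt hP (m := m - 1) (by omega)
          -- the path with `2m` vertices
          have h2 : ∀ k i : ℕ, 1 ≤ k → 1 ≤ i → UI (node {Pt k, Pt i}) (Pt (k + i + 1)) := by
            intro k
            induction k with
            | zero => intro i h; omega
            | succ k ih =>
              intro i _ hi
              rcases k with _ | k
              · have h3 := UI.re leaf {Pt i}
                have e3 : ch leaf = 0 := by rw [leaf, ch_node]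
                rw [e3] at h3
                obtain ⟨l, rfl⟩ := Nat.exists_eq_add_of_le' hi
                rw [show 0 + 1 + (l + 1) + 1 = l + 3 by omega]
                exact h3
              · have h3 := UI.re (Pt (k + 2)) {Pt i}
                have e3 : ch (Pt (k + 2)) = {Pt (k + 1)} := by
                  show ch (node {Pt (k + 1)}) = _
                  rw [ch_node]
                rw [e3] at h3
                have e4 : node {Pt i} = Pt (i + 1) := by
                  obtain ⟨l, rfl⟩ := Nat.exists_eq_add_of_le' hi
                  rfl
                rw [e4] at h3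
                have h4 := ih (i + 1) (by omega) (by omega)
                have e5 : node (Pt (i + 1) ::ₘ {Pt (k + 1)}) = node {Pt (k + 1), Pt (i + 1)} :=
                  congrArg node (Multiset.cons_swap _ _ _)
                rw [e5] at h3
                rw [show k + 1 + 1 + i + 1 = k + 1 + (i + 1) + 1 by omega]
                exact h3.trans h4
          have e2 : node {A₁} = Pt m := by
            rw [e1]
            obtain ⟨l, rfl⟩ : ∃ l, m = l + 2 := ⟨m - 2, by omega⟩
            rfl
          rw [e2, e1]
          exact (hpath (m + (m - 1) + 1) (by omega)).ui (h2 m (m - 1) (by omega) (by omega)).symm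
        · right
          have hHW : HH W := by
            have : ∀ j : ℕ, HH (Nn j W) → HH W := by
              intro j
              induction j with
              | zero => exact id
              | succ j ih =>
                intro h
                rw [Nn_succ] at h
                exact ih h.up
            exact this j hH
          exact hchain W j hHW.homog hW
  · rcases key A hA with hcA | ⟨A₁, rfl⟩
    · rcases key B hB with hcB | ⟨B₁, rfl⟩
      · exact Or.inl (hH1 A B m (by omega) hA hB hAB hcA hcB)
      · rw [size_up] at hB
        rw [ch_node]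
        exact mixed A B₁ hA hB hcA
    · rw [size_up] at hA
      rcases key B hB with hcB | ⟨B₁, rfl⟩
      · refine (mixed B A₁ hB hA hcB).ui ?_
        have h2 := UI.re B {A₁}
        exact h2
      · rw [size_up] at hB
        rw [ch_node]
        have hne : A₁ ≠ B₁ := fun h => hAB (by rw [h])
        change Good (node {node {A₁}, B₁})
        by_cases hPB : IsPt B₁
        · rcases path_or_chain A₁ with hPA | ⟨j, W, rfl, hW⟩
          · exact absurd (hPA.unique hPB (by omega)) hne
          · rw [isPt_eq_Pt hPB (m := m - 1) (by omega), ← Nn_succ]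
            rw [size_Nn] at hA
            exact chain_good htail hspider (by omega) hW (by omega) (by omega)
        · by_cases hPA : IsPt A₁
          · rcases path_or_chain B₁ with hPB' | ⟨j, W, rfl, hW⟩
            · exact absurd hPB' hPB
            · have e2 : node {A₁} = Pt m := isPt_eq_Pt hPA.up (by rw [size_up]; omega)
              rw [size_Nn] at hB
              have e3 : node {node {A₁}, Nn j W} = node {Nn j W, Pt m} := by
                rw [e2]
                exact congrArg node (Multiset.cons_swap _ _ _)
              rw [e3]
              exact chain_good htail hspider (by omega) hW (by omega) (by omega)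
          · exact Or.inl (hH3 A₁ B₁ m (by omega) hA hB hne hPA hPB)

/-! ### One centroid -/

theorem good_bal (hstar : NL_star) (hsym : NL_sym) (htwo : NL_two) (hleaf : NL_leaf)
    (hspider : NL_spider) (htail : NL_tail)
    (hN0 : LL_N0) (hN0' : LL_N0') (hN1 : LL_N1) {M : Multiset RT} (h20 : 20 ≤ size (node M))
    (hb : ∀ D ∈ M, 2 * size D < size (node M)) : Good (node M) := by
  by_cases h1 : ∀ D ∈ M, 2 * (size D + 1) ≤ size (node M)
  · by_cases h2 : ∀ A B M', M = A ::ₘ B ::ₘ M' → 2 * (size A + 1) < size (node M) ∨
      2 * (size B + 1) < size (node M)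
    · exact robust hstar hsym M (by omega) h1 h2
    · push Not at h2
      obtain ⟨A, B, M', rfl, h3, h4⟩ := h2
      have e1 := h1 A (Multiset.mem_cons_self _ _)
      have e2 := h1 B (Multiset.mem_cons_of_mem (Multiset.mem_cons_self _ _))
      have e3 : size (node (A ::ₘ B ::ₘ M')) = size A + (size B + size (node M')) := by
        rw [size_cons, size_cons]
      have e4 : node M' = node {leaf} := size_eq_two (by omega)
      right
      have e5 : (A ::ₘ B ::ₘ M' : Multiset RT) = {leaf, A, B} := by
        rw [node_inj.1 e4]
        simp only [Multiset.insert_eq_cons, ← Multiset.singleton_add]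
        abel
      rw [e5]
      exact hleaf A B (by omega) (by omega)
  · push Not at h1
    obtain ⟨B₁, hB₁, h2⟩ := h1
    have h3 := hb B₁ hB₁
    obtain ⟨M', rfl⟩ := Multiset.exists_cons_of_mem hB₁
    have e1 : size (node (B₁ ::ₘ M')) = size B₁ + size (node M') := size_cons _ _
    by_cases hc : 2 ≤ Multiset.card M'
    · exact Or.inl (hN1 B₁ M' (size B₁) (by omega) rfl (by omega) hc)
    · have hc1 : Multiset.card M' = 1 := by
        rcases Nat.lt_or_ge (Multiset.card M') 1 with h | h
        · exfalso
          have : M' = 0 := by
            rw [← Multiset.card_eq_zero]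
            omega
          subst this
          have : size (node 0) = 1 := size_leaf
          omega
        · omega
      obtain ⟨B₂, rfl⟩ := Multiset.card_eq_one.1 hc1
      rw [size_up] at e1
      change Good (node {B₁, B₂})
      by_cases hBB : B₁ = B₂
      · subst hBB
        rcases cls B₁ with hQ | hH
        · exact Or.inl (hN0' B₁ (size B₁) (by omega) rfl hQ)
        · exact Or.inr (htwo B₁ (by omega) hH.homog)
      · by_cases hP2 : IsPt B₂
        · rcases path_or_chain B₁ with hP1 | ⟨j, W, rfl, hW⟩
          · exact absurd (hP1.unique hP2 (by omega)) hBB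
          · rw [isPt_eq_Pt hP2 rfl]
            rw [size_Nn] at *
            exact chain_good htail hspider (by omega) hW (by omega) (by omega)
        · by_cases hP1 : IsPt B₁
          · rcases path_or_chain B₂ with hP2' | ⟨j, W, rfl, hW⟩
            · exact absurd hP2' hP2
            · have e3 : node {B₁, Nn j W} = node {Nn j W, Pt (size B₁)} := by
                rw [← isPt_eq_Pt hP1 rfl]
                exact congrArg node (Multiset.cons_swap _ _ _)
              rw [e3]
              rw [size_Nn] at *
              exact chain_good htail hspider (by omega) hW (by omega) (by omega)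
          · exact Or.inl (hN0 B₁ B₂ (size B₁) (by omega) rfl (by omega) hBB hP1 hP2)

theorem main_rt (hstar : NL_star) (hsym : NL_sym) (htwo : NL_two) (hleaf : NL_leaf)
    (hpath : NL_path) (hspider : NL_spider) (htail : NL_tail) (hlegs : NL_legs)
    (hdstar : NL_dstar) (hdouble : NL_double) (hchain : NL_chain)
    (hH1 : LL_H1) (hH2 : LL_H2) (hH3 : LL_H3) (hN0 : LL_N0) (hN0' : LL_N0') (hN1 : LL_N1) :
    ∃ N : ℕ, ∀ X : RT, N ≤ size X → LLgood X ∨ NLgood X := by
  refine ⟨20, fun X hX => ?_⟩
  rcases lib_exists X with ⟨M, h1, h2⟩ | ⟨A, B, h1, h2⟩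
  · have hs := h1.size_eq
    rw [hs] at h2 hX
    exact Good.ui (good_bal hstar hsym htwo hleaf hspider htail hN0 hN0' hN1 hX h2) h1.symm
  · have hs := h1.size_eq
    rw [size_cons_ch] at hs
    exact Good.ui (good_halves hpath hspider htail hlegs hdstar hdouble hchain hH1 hH2 hH3
      (m := size A) (by omega) rfl h2.symm) h1.symm

end Pool.Agent.Helper13K9.Drn
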