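import Pool.Agent.Helper13K9.Drn.LLTasks

/-!
# Masters
-/

set_option autoImplicit false

namespace Pool.Agent.Helper13K9.Drn

open Multiset

theorem UCard.size_eq {X Y : RT} (h : UCard X Y) : size X = size Y + 1 := by
  obtain ⟨X', Y', h1, h2, h3⟩ := h
  rw [h1.size_eq, h2.size1, h3.size_eq]

theorem Del.branch {Z Y E : RT} (h : Del leaf Z Y) (hE : E ∈ ch Z) :
    size E = 1 ∨ ∃ D ∈ ch Y, size E ≤ size D + 1 := by
  obtain ⟨B, N, M, h1, h2, h3⟩ := del_rp.1 h
  rw [h1] at hE
  rw [h2]
  rcases Multiset.mem_cons.1 hE with rfl | hE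
  · rcases h3 with ⟨rfl, _⟩ | ⟨B', h4, rfl⟩
    · exact Or.inl size_leaf
    · right
      refine ⟨B', by simp, ?_⟩
      rw [h4.size1]
  · right
    exact ⟨E, Multiset.mem_add.2 (Or.inr hE), by omega⟩

theorem masterR : MasterR := by
  rintro X Y₁ Y₂ ⟨hX1, hX2, hne, huni⟩ h3 hb1 hb2
  have s1 := hX1.size1
  have s2 := hX2.size1
  refine ⟨Y₁, Y₂, UCard.of_del hX1, UCard.of_del hX2, ?_, ?_⟩
  · intro h
    refine hne (Bal.unique ?_ ?_ h)
    · intro D hD
      have := hb1 D hD
      omega
    · intro D hD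
      have := hb2 D hD
      omega
  · intro Z hZ1 hZ2
    have s3 := hZ1.size_eq
    obtain ⟨Z₁, a1, a2⟩ := hZ1.root (UI.refl _)
    obtain ⟨Z₂, b1, b2⟩ := hZ2.root (UI.refl _)
    have s4 := a1.size_eq
    have s5 := b1.size_eq
    have c1 : Bal Z₁ := by
      intro E hE
      rcases a2.branch hE with h | ⟨D, hD, h⟩
      · omega
      · have := hb1 D hD
        omega
    have c2 : ∀ E ∈ ch Z₂, 2 * size E ≤ size X := by
      intro E hE
      rcases b2.branch hE with h | ⟨D, hD, h⟩
      · omega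
      · have := hb2 D hD
        omega
    by_cases c3 : Bal Z₂
    · have h4 := c1.unique c3 (a1.symm.trans b1)
      subst h4
      rw [← huni _ a2 b2]
      exact a1
    · exfalso
      unfold Bal at c3
      push Not at c3
      obtain ⟨E, hE, h5⟩ := c3
      have h6 := c2 E hE
      obtain ⟨M, hM⟩ := Multiset.exists_cons_of_mem hE
      have h7 : Z₂ = node (E ::ₘ ch (node M)) := by rw [ch_node, ← hM, node_ch]
      have h8 : size Z₂ = size E + size (node M) := by rw [h7, size_cons_ch]
      refine bal_half (X := Z₁) (A := E) (B := node M) ?_ c1 (by omega)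
      rw [← h7]
      exact a1.symm.trans b1

theorem formH {Z A B : RT} {m : ℕ} (hm : 3 ≤ m) (hA : size A + 1 = m) (hB : size B = m)
    (h : UCard Z (node (A ::ₘ ch B))) :
    (∃ W, Del leaf W A ∧ UI Z (node (W ::ₘ ch B)) ∧ size W = m) ∨
    (∃ F, Del leaf (node {F}) B ∧ UI Z (node (F ::ₘ ch (node {A}))) ∧ size F = m) ∨
    ∃ P, Del leaf P B ∧ 2 ≤ Multiset.card (ch P) ∧ UI Z (node (A ::ₘ ch P)) ∧
      Bal (node (A ::ₘ ch P)) := by
  obtain ⟨Z', a1, a2⟩ := h.root (UI.refl _)
  have hBch : ∀ D ∈ ch B, size D + 1 ≤ m := fun D hD => by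
    have := size_lt_of_mem hD
    omega
  rcases del_to.1 a2 with rfl | ⟨D, D', M, rfl, h1, h2⟩
  · right; right
    refine ⟨node (leaf ::ₘ ch B), ?_, ?_, ?_, ?_⟩
    · have := Del.here (S := leaf) (ch B)
      rwa [node_ch] at this
    · rw [ch_node, Multiset.card_cons]
      have : ch B ≠ 0 := by
        intro h0
        have : B = leaf := by rw [← node_ch B, h0]; rfl
        rw [this, size_leaf] at hB
        omega
      have := Multiset.card_pos.2 this
      omega
    · rw [ch_node, Multiset.cons_swap]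
      exact a1
    · intro E hE
      rw [size_cons_ch, size_cons, node_ch, size_leaf]
      rw [ch_node, ch_node] at hE
      rcases Multiset.mem_cons.1 hE with rfl | hE
      · omega
      · rcases Multiset.mem_cons.1 hE with rfl | hE
        · rw [size_leaf]
          omega
        · have := hBch E hE
          omega
  · rcases Multiset.cons_eq_cons.1 h2 with ⟨h3, h4⟩ | ⟨_, N, h3, h4⟩
    · subst h3 h4
      exact Or.inl ⟨D, h1, a1, by rw [h1.size1]; omega⟩
    · subst h4
      have hB' : B = node (D' ::ₘ N) := by rw [← h3, node_ch]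
      have s1 : size B = size D' + size (node N) := by rw [hB', size_cons]
      have s2 := h1.size1
      by_cases hN : N = 0
      · subst hN
        right; left
        refine ⟨D, ?_, ?_, ?_⟩
        · rw [hB']
          exact h1.up
        · rw [ch_node]
          exact a1
        · have : size (node 0) = 1 := size_leaf
          omega
      · right; right
        have s3 : 2 ≤ size (node N) := by
          obtain ⟨E, hE⟩ := Multiset.exists_mem_of_ne_zero hN
          have := size_lt_of_mem (X := node N) (D := E) (by rwa [ch_node])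
          have := size_pos E
          omega
        refine ⟨node (D ::ₘ N), ?_, ?_, ?_, ?_⟩
        · rw [hB']
          exact Del.deep N h1
        · rw [ch_node, Multiset.card_cons]
          have := Multiset.card_pos.2 hN
          omega
        · rw [ch_node, Multiset.cons_swap]
          exact a1
        · intro E hE
          rw [size_cons_ch, size_cons]
          rw [ch_node, ch_node] at hE
          rcases Multiset.mem_cons.1 hE with rfl | hE
          · omega
          · rcases Multiset.mem_cons.1 hE with rfl | hE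
            · omega
            · have := hBch E (by rw [h3]; exact Multiset.mem_cons_of_mem hE)
              omega

theorem balH {A B : RT} {m : ℕ} (hm : 3 ≤ m) (hA : size A + 1 = m) (hB : size B = m) :
    Bal (node (A ::ₘ ch B)) := by
  intro D hD
  rw [size_cons_ch]
  rw [ch_node] at hD
  rcases Multiset.mem_cons.1 hD with rfl | hD
  · omega
  · have := size_lt_of_mem hD
    omega

theorem masterH : MasterH := by
  intro T A₁ B₁ A₂ B₂ m hm sA₁ sB₁ sA₂ sB₂ hT1 hT2 hne c11 c12 c21 c22 c33
  refine ⟨_, _, hT1, hT2, ?_, ?_⟩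
  · intro h
    exact hne (Bal.unique (balH hm sA₁ sB₁) (balH hm sA₂ sB₂) h)
  · intro Z hZ1 hZ2
    have sn₁ : size (node {A₁}) = m := by rw [size_up]; omega
    have sn₂ : size (node {A₂}) = m := by rw [size_up]; omega
    rcases formH hm sA₁ sB₁ hZ1 with ⟨W, a1, a2, a3⟩ | ⟨F, a1, a2, a3⟩ | ⟨P, a1, a2, a3, a4⟩
    · rcases formH hm sA₂ sB₂ hZ2 with ⟨V, b1, b2, b3⟩ | ⟨G, b1, b2, b3⟩ | ⟨P', b1, b2, b3, b4⟩
      · exact a2.trans (c11 W V a1 b1 (bi _ _ _ _ (a2.symm.trans b2) (by omega) (by omega)))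
      · exact a2.trans (c12 W G a1 b1 (bi _ _ _ _ (a2.symm.trans b2) (by omega) (by omega)))
      · exact absurd (bal_half (b3.symm.trans a2) b4 (by omega)) id
    · rcases formH hm sA₂ sB₂ hZ2 with ⟨V, b1, b2, b3⟩ | ⟨G, b1, b2, b3⟩ | ⟨P', b1, b2, b3, b4⟩
      · have := c21 F V a1 b1 (bi _ _ _ _ (a2.symm.trans b2) (by omega) (by omega))
        rw [ch_node] at a2
        exact a2.trans this
      · have h1 := bi _ _ _ _ (a2.symm.trans b2) (by omega) (by omega)
        rw [up_inj] at h1
        have := c22 F G a1 b1 h1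
        rw [ch_node] at a2
        exact a2.trans this
      · exact absurd (bal_half (b3.symm.trans a2) b4 (by omega)) id
    · rcases formH hm sA₂ sB₂ hZ2 with ⟨V, b1, b2, b3⟩ | ⟨G, b1, b2, b3⟩ | ⟨P', b1, b2, b3, b4⟩
      · exact absurd (bal_half (a3.symm.trans b2) a4 (by omega)) id
      · exact absurd (bal_half (a3.symm.trans b2) a4 (by omega)) id
      · exact a3.trans (c33 P P' a1 b1 a2 b2
          (node_inj.1 (Bal.unique a4 b4 (a3.symm.trans b3))))

theorem balN {Q' W : RT} {m : ℕ} (hQ : size Q' = m) (hW : size W = m + 1) :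
    Bal (node (Q' ::ₘ ch W)) := by
  intro D hD
  rw [size_cons_ch]
  rw [ch_node] at hD
  rcases Multiset.mem_cons.1 hD with rfl | hD
  · omega
  · have := size_lt_of_mem hD
    omega

theorem formN {Z P Q' : RT} {m : ℕ} (hP : size P = m) (hQ : size Q' = m)
    (h : UCard Z (node (P ::ₘ ch Q'))) :
    ∃ R, (Ext P Q' R ∨ Ext Q' P R) ∧ UI Z R ∧ Bal R := by
  obtain ⟨Z', a1, a2⟩ := h.root (UI.refl _)
  rcases del_to.1 a2 with rfl | ⟨D, D', M, rfl, h1, h2⟩
  · have h3 : Del leaf (node (leaf ::ₘ ch Q')) Q' := by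
      have := Del.here (S := leaf) (ch Q')
      rwa [node_ch] at this
    have h4 := h3.size1
    refine ⟨node (P ::ₘ ch (node (leaf ::ₘ ch Q'))), Or.inr ⟨_, h3, rfl⟩, ?_,
      balN hP (by omega)⟩
    rw [ch_node, Multiset.cons_swap]
    exact a1
  · have s2 := h1.size1
    rcases Multiset.cons_eq_cons.1 h2 with ⟨h3, h4⟩ | ⟨_, N, h3, h4⟩
    · subst h3 h4
      refine ⟨node (Q' ::ₘ ch D), Or.inl ⟨D, h1, rfl⟩, ?_, balN hQ (by omega)⟩
      have := UI.re D (ch Q')
      rw [node_ch] at this
      exact a1.trans this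
    · subst h4
      have hB' : Q' = node (D' ::ₘ N) := by rw [← h3, node_ch]
      have h5 : Del leaf (node (D ::ₘ N)) Q' := by
        rw [hB']
        exact Del.deep N h1
      have h6 := h5.size1
      refine ⟨node (P ::ₘ ch (node (D ::ₘ N))), Or.inr ⟨_, h5, rfl⟩, ?_, balN hP (by omega)⟩
      rw [ch_node, Multiset.cons_swap]
      exact a1

theorem masterN0 : MasterN0 := by
  intro T P₁ Q₁ P₂ Q₂ m hm sP₁ sQ₁ sP₂ sQ₂ hT1 hT2 hne c
  refine ⟨_, _, hT1, hT2, ?_, ?_⟩
  · intro h
    exact hne (bi _ _ _ _ h (by omega) (by omega))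
  · intro Z hZ1 hZ2
    obtain ⟨R₁, a1, a2, a3⟩ := formN sP₁ sQ₁ hZ1
    obtain ⟨R₂, b1, b2, b3⟩ := formN sP₂ sQ₂ hZ2
    have := Bal.unique a3 b3 (a2.symm.trans b2)
    subst this
    exact a2.trans (c R₁ a1 b1)

theorem masterN1 : MasterN1 := by
  intro T K P Q' m hm sP sQ hK hT1 hT2 c
  have s1 := hT1.size_eq
  have s2 := hT2.size_eq
  rw [size_cons_ch] at s2
  have hbK : Bal (node K) := by
    intro D hD
    rw [ch_node] at hD
    have := hK D hD
    omega
  refine ⟨_, _, hT1, hT2, ?_, ?_⟩
  · intro h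
    exact bal_half h hbK (by omega)
  · intro Z hZ1 hZ2
    obtain ⟨Z₁, a1, a2⟩ := hZ1.root (UI.refl _)
    obtain ⟨R₂, b1, b2, b3⟩ := formN sP sQ hZ2
    have s3 := hZ1.size_eq
    have s4 := a1.size_eq
    have c1 : Bal Z₁ := by
      intro E hE
      rcases a2.branch hE with h | ⟨D, hD, h⟩
      · omega
      · rw [ch_node] at hD
        have := hK D hD
        omega
    have := Bal.unique c1 b3 (a1.symm.trans b2)
    subst this
    exact a1.trans (c Z₁ a2 b1)

end Pool.Agent.Helper13K9.Drn
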