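import Pool.Agent.Helper13K9.Drn.HP
import Pool.Agent.Helper13K9.Drn.H45

/-!
# LL_N0, LL_N0', LL_H3
-/

set_option autoImplicit false

namespace Pool.Agent.Helper13K9.Drn

open Multiset

/-- the choice of cards -/
theorem choice {A B : RT} (hAB : A ≠ B) (hs : size A = size B) (hA : ¬ IsPt A) (hB : ¬ IsPt B) :
    ∃ A' B', Del leaf A A' ∧ Del leaf B B' ∧ A' ≠ B' ∧
      (∀ E, Del leaf B E → A = node {E} → B' = E) ∧
      (∀ E, Del leaf A E → B = node {E} → A' = E) := by
  have excl : ∀ E E', Del leaf B E → A = node {E} → Del leaf A E' → B = node {E'} → False := by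
    intro E E' h1 h2 h3 h4
    rw [h2] at h3
    rcases del_up.1 h3 with ⟨h5, _⟩ | ⟨X', h5, h6⟩
    · exact hA (by rw [h2, h5]; exact isPt_leaf.up)
    · rw [h4, h6] at h1
      exact hA (by rw [h2]; exact (PL2' h1 h5).up)
  have hAl : A ≠ leaf := by
    rintro rfl
    exact hA isPt_leaf
  have hBl : B ≠ leaf := by
    rintro rfl
    exact hB isPt_leaf
  by_cases c2 : ∃ E, Del leaf B E ∧ A = node {E}
  · obtain ⟨E, h1, h2⟩ := c2
    obtain ⟨A', h3⟩ := del_exists hAl
    refine ⟨A', E, h3, h1, ?_, ?_, ?_⟩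
    · intro h
      rw [h2, h] at h3
      exact hA (by rw [h2]; exact PL1' h3)
    · intro E' _ h4
      rw [h2, up_inj] at h4
      exact h4
    · intro E' h4 h5
      exact absurd (excl E E' h1 h2 h4 h5) id
  · by_cases c3 : ∃ E, Del leaf A E ∧ B = node {E}
    · obtain ⟨E, h1, h2⟩ := c3
      obtain ⟨B', h3⟩ := del_exists hBl
      refine ⟨E, B', h1, h3, ?_, ?_, ?_⟩
      · intro h
        rw [h2, ← h] at h3
        exact hB (by rw [h2]; exact PL1' h3)
      · intro E' h4 h5
        exact absurd ⟨E', h4, h5⟩ c2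
      · intro E' _ h4
        rw [h2, up_inj] at h4
        exact h4
    · obtain ⟨A', B', h1, h2, h3⟩ := choose_ne hAB hs hA hB
      exact ⟨A', B', h1, h2, h3, fun E h4 h5 => absurd ⟨E, h4, h5⟩ c2,
        fun E h4 h5 => absurd ⟨E, h4, h5⟩ c3⟩

/-- a branch `D` with all but one vertex of the rest -/
theorem mem_rest {W D : RT} (h : D ∈ ch W) (hs : size W = size D + 1) : W = node {D} := by
  obtain ⟨N, hN⟩ := Multiset.exists_cons_of_mem h
  exact rest_zero hN hs

theorem ll_N0 : LL_N0 := by
  intro B₁ B₂ m hm s1 s2 hne hP1 hP2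
  obtain ⟨B₁', B₂', h1, h2, h3, h4, h5⟩ := choice hne (by omega) hP1 hP2
  have t1 := h1.size1
  have t2 := h2.size1
  have k1 : B₁ ≠ node {B₁'} := by
    intro h
    have h6 := h1
    rw [h] at h6
    exact hP1 (by rw [h]; exact PL1' h6)
  have k2 : B₂ ≠ node {B₂'} := by
    intro h
    have h6 := h2
    rw [h] at h6
    exact hP2 (by rw [h]; exact PL1' h6)
  refine masterN0 _ B₂ (node {B₁'}) B₁ (node {B₂'}) m (by omega) s2 (by rw [size_up]; omega) s1
    (by rw [size_up]; omega) (UCard.of_del ?_) (UCard.of_del ?_) ?_ ?_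
  · rw [ch_node]
    have e : node (B₂ ::ₘ {B₁'}) = node (B₁' ::ₘ {B₂}) := congrArg node (Multiset.cons_swap _ _ _)
    rw [e]
    exact Del.deep _ h1
  · rw [ch_node]
    have e : node {B₁, B₂} = node (B₂ ::ₘ {B₁}) := congrArg node (Multiset.cons_swap _ _ _)
    have e' : node (B₁ ::ₘ {B₂'}) = node (B₂' ::ₘ {B₁}) := congrArg node (Multiset.cons_swap _ _ _)
    rw [e, e']
    exact Del.deep _ h2
  · rintro (⟨h, _⟩ | ⟨h, _⟩)
    · exact hne h.symm
    · exact k2 h
  · intro R hR1 hR2
    rcases hR1 with ⟨W, hW, rfl⟩ | ⟨W, hW, rfl⟩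
    · rcases hR2 with ⟨V, hV, hR⟩ | ⟨V, hV, hR⟩
      · -- (1,1)
        exfalso
        have sV := hV.size1
        rcases Multiset.cons_eq_cons.1 (node_inj.1 hR) with ⟨h6, _⟩ | ⟨_, N, _, h7⟩
        · exact h3 (up_inj.1 h6)
        · have h8 := rest_zero (P := V) (D := node {B₁'}) (N := N) h7 (by rw [size_up]; omega)
          rw [h8] at hV
          exact hP1 (PL2' hV h1)
      · -- (1,2)
        have sW := hW.size1
        rcases Multiset.cons_eq_cons.1 (node_inj.1 hR) with ⟨h6, _⟩ | ⟨_, N, h7, _⟩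
        · exact absurd h6.symm k1
        · have h8 := rest_zero (P := W) (D := B₁) (N := N) h7 (by omega)
          rw [h8] at hW
          rcases del_up.1 hW with ⟨h9, _⟩ | ⟨E, h9, h10⟩
          · exact absurd (h9 ▸ isPt_leaf) hP1
          · have h11 := h5 E h9 h10
            rw [h8, ch_node, h11, ← h10]
            have e : node (B₂ ::ₘ {B₁}) = node {B₁, B₂} :=
              congrArg node (Multiset.cons_swap _ _ _)
            rw [e]
            exact UI.refl _
    · rcases hR2 with ⟨V, hV, hR⟩ | ⟨V, hV, hR⟩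
      · -- (2,1)
        have sV := hV.size1
        rcases Multiset.cons_eq_cons.1 (node_inj.1 hR) with ⟨h6, _⟩ | ⟨_, N, _, h7⟩
        · exact absurd h6 k2
        · have h8 := rest_zero (P := V) (D := B₂) (N := N) h7 (by omega)
          rw [h8] at hV
          rcases del_up.1 hV with ⟨h9, _⟩ | ⟨E, h9, h10⟩
          · exact absurd (h9 ▸ isPt_leaf) hP2
          · have h11 := h4 E h9 h10
            rw [hR, h8, ch_node, h11, ← h10]
            exact UI.refl _
      · -- (2,2)
        have sW := hW.size1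
        rw [size_up] at sW
        rcases Multiset.cons_eq_cons.1 (node_inj.1 hR) with ⟨h6, _⟩ | ⟨_, N, h7, _⟩
        · exact absurd h6.symm hne
        · have h8 := rest_zero (P := W) (D := B₁) (N := N) h7 (by omega)
          rw [h8, ch_node]
          have e : node (B₂ ::ₘ {B₁}) = node {B₁, B₂} :=
            congrArg node (Multiset.cons_swap _ _ _)
          rw [e]
          exact UI.refl _

theorem ll_N0' : LL_N0' := by
  intro B m hm s hQS
  have hnp : ¬ IsPt B := fun h => not_QS_of_isPt h hQS
  obtain ⟨D₁, D₂, h1, h2, hne, huni⟩ := hQS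
  have s1 := h1.size1
  have s2 := h2.size1
  have k : ∀ D, Del leaf B D → B ≠ node {D} := by
    intro D h h'
    rw [h'] at h
    exact hnp (by rw [h']; exact PL1' h)
  refine masterN0 _ B (node {D₁}) B (node {D₂}) m (by omega) s (by rw [size_up]; omega) s
    (by rw [size_up]; omega) (UCard.of_del ?_) (UCard.of_del ?_) ?_ ?_
  · rw [ch_node]
    have e : node (B ::ₘ {D₁}) = node (D₁ ::ₘ {B}) := congrArg node (Multiset.cons_swap _ _ _)
    rw [e]
    exact Del.deep _ h1
  · rw [ch_node]
    have e : node (B ::ₘ {D₂}) = node (D₂ ::ₘ {B}) := congrArg node (Multiset.cons_swap _ _ _)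
    rw [e]
    exact Del.deep _ h2
  · rintro (⟨_, h⟩ | ⟨h, _⟩)
    · exact hne (up_inj.1 h)
    · exact k D₂ h2 h
  · intro R hR1 hR2
    rcases hR1 with ⟨W, hW, rfl⟩ | ⟨W, hW, rfl⟩
    · have sW := hW.size1
      exfalso
      rcases hR2 with ⟨V, hV, hR⟩ | ⟨V, hV, hR⟩
      · -- (1,1)
        have sV := hV.size1
        rcases Multiset.cons_eq_cons.1 (node_inj.1 hR) with ⟨h6, _⟩ | ⟨_, N, _, h7⟩
        · exact hne (up_inj.1 h6)
        · have h8 := rest_zero (P := V) (D := node {D₁}) (N := N) h7 (by rw [size_up]; omega)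
          rw [h8] at hV
          exact hnp (PL2' hV h1)
      · -- (1,2)
        rcases Multiset.cons_eq_cons.1 (node_inj.1 hR) with ⟨h6, _⟩ | ⟨_, N, h7, _⟩
        · exact k D₁ h1 h6.symm
        · have h8 := rest_zero (P := W) (D := B) (N := N) h7 (by omega)
          rw [h8] at hW
          exact hnp (PL1 hW)
    · rcases hR2 with ⟨V, hV, hR⟩ | ⟨V, hV, hR⟩
      · -- (2,1)
        exfalso
        have sV := hV.size1
        rcases Multiset.cons_eq_cons.1 (node_inj.1 hR) with ⟨h6, _⟩ | ⟨_, N, _, h7⟩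
        · exact k D₂ h2 h6
        · have h8 := rest_zero (P := V) (D := B) (N := N) h7 (by omega)
          rw [h8] at hV
          exact hnp (PL1 hV)
      · -- (2,2)
        have e := (Multiset.cons_inj_right B).1 (node_inj.1 hR)
        have hWV : W = V := by rw [← node_ch W, ← node_ch V, e]
        subst hWV
        rcases del_to_up.1 hW with h4 | ⟨W', h4, h5⟩
        · rcases del_to_up.1 hV with h6 | ⟨V', h6, h7⟩
          · exfalso
            rw [h4] at h6
            rcases pair_eq.1 (node_inj.1 h6) with ⟨_, h8⟩ | ⟨h8, h9⟩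
            · exact hne h8
            · exact hne (h9.trans h8)
          · rw [h4] at h6
            exact absurd h6.symm up_ne_pair
        · rcases del_to_up.1 hV with h6 | ⟨V', h6, h7⟩
          · rw [h4] at h6
            exact absurd h6 up_ne_pair
          · rw [h4, up_inj] at h6
            subst h6
            rw [h4, huni W' h5 h7, ch_node]
            exact UI.refl _

theorem ll_H3 : LL_H3 := by
  intro A₁ B₁ m hm sA sB hne hPA hPB
  obtain ⟨A', B', h1, h2, h3, h4, h5⟩ := choice hne (by omega) hPA hPB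
  have t1 := h1.size1
  have t2 := h2.size1
  have kA : A₁ ≠ node {A'} := by
    intro h
    have h6 := h1
    rw [h] at h6
    exact hPA (by rw [h]; exact PL1' h6)
  have kB : B₁ ≠ node {B'} := by
    intro h
    have h6 := h2
    rw [h] at h6
    exact hPB (by rw [h]; exact PL1' h6)
  have hT : UI (node {node {A₁}, B₁}) (node {node {B₁}, A₁}) := by
    have := UI.re (node {A₁}) {B₁}
    rw [ch_node] at this
    exact this
  refine masterH _ (node {A'}) (node {B₁}) (node {B'}) (node {A₁}) m (by omega)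
    (by rw [size_up]; omega) (by rw [size_up]; omega) (by rw [size_up]; omega)
    (by rw [size_up]; omega) (UCard.of_del ?_) ⟨_, _, hT, ?_, UI.refl _⟩ ?_ ?_ ?_ ?_ ?_ ?_
  · rw [ch_node]
    exact Del.deep _ h1.up
  · rw [ch_node]
    exact Del.deep _ h2.up
  · intro h
    rw [ch_node, ch_node] at h
    rcases pair_eq.1 (node_inj.1 h) with ⟨_, h6⟩ | ⟨_, h6⟩
    · exact hne h6.symm
    · exact kB h6
  · intro W V _ _ h
    rcases h with ⟨_, h⟩ | ⟨h, _⟩
    · exact absurd (up_inj.1 h).symm hne
    · rw [h, ch_node]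
      exact UI.refl _
  · intro W G _ hG h
    rcases h with ⟨_, h⟩ | ⟨h, h'⟩
    · exact absurd (up_inj.1 h) kB
    · rw [← h'] at hG
      rcases del_up.1 hG with ⟨h6, _⟩ | ⟨X, h6, h7⟩
      · have := congrArg size h6
        rw [size_up, size_leaf] at this
        omega
      · rw [up_inj] at h7
        subst h7
        rcases del_up.1 h6 with ⟨h8, _⟩ | ⟨E, h8, h9⟩
        · exact absurd (h8 ▸ isPt_leaf) hPB
        · have h10 := h4 E h8 h9
          rw [h, h10, ← h9, ch_node]
          exact UI.refl _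
  · intro F V hF _ h
    rcases h with ⟨_, h⟩ | ⟨h, _⟩
    · exact absurd (up_inj.1 h).symm kA
    · rw [h] at hF
      rcases del_up.1 hF with ⟨h6, _⟩ | ⟨X, h6, h7⟩
      · have := congrArg size h6
        rw [size_up, size_leaf] at this
        omega
      · rw [up_inj] at h7
        subst h7
        rcases del_up.1 h6 with ⟨h8, _⟩ | ⟨E, h8, h9⟩
        · exact absurd (h8 ▸ isPt_leaf) hPA
        · have h10 := h5 E h8 h9
          rw [h, h10, ← h9]
          exact UI.refl _
  · intro F G hF _ h
    rcases h with ⟨_, h⟩ | ⟨h, _⟩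
    · exact absurd (up_inj.1 h) h3
    · exfalso
      rw [h] at hF
      rcases del_up.1 hF with ⟨h6, _⟩ | ⟨X, h6, h7⟩
      · have := congrArg size h6
        rw [size_up, size_up, size_leaf] at this
        omega
      · rw [up_inj] at h7
        subst h7
        exact hPB (PL2' h6 h2)
  · intro P P' hP hP' cP cP' h
    exfalso
    rcases del_to_up.1 hP with h6 | ⟨W', h6, _⟩
    · rcases del_to_up.1 hP' with h8 | ⟨V', h8, _⟩
      · rw [h6, h8, ch_node, ch_node] at h
        have e : ({node {A'}, B₁} : Multiset RT) = {node {B'}, A₁} := by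
          have e1 : ({node {A'}, B₁} : Multiset RT) + {leaf} = {node {B'}, A₁} + {leaf} := by
            have e2 : ∀ a b : RT, ({a, b} : Multiset RT) + {leaf} = a ::ₘ {leaf, b} := by
              intro a b
              simp only [Multiset.insert_eq_cons, ← Multiset.singleton_add]
              abel
            rw [e2, e2, h]
          exact add_right_cancel e1
        rcases pair_eq.1 e with ⟨_, h9⟩ | ⟨_, h9⟩
        · exact hne h9.symm
        · exact kB h9
      · rw [h8, card_ch_up] at cP'
        omega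
    · rw [h6, card_ch_up] at cP
      omega

end Pool.Agent.Helper13K9.Drn
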