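import Pool.Agent.Helper13K9.Drn.DelL

/-!
# Rooted pairs of leaves, homogeneous trees
-/

set_option autoImplicit false

namespace Pool.Agent.Helper13K9.Drn

open Multiset

/-- `X` is determined, as a rooted tree, by the cards `Y₁ ≠ Y₂` -/
def Q (X Y₁ Y₂ : RT) : Prop :=
  Del leaf X Y₁ ∧ Del leaf X Y₂ ∧ Y₁ ≠ Y₂ ∧ ∀ Z, Del leaf Z Y₁ → Del leaf Z Y₂ → Z = X

theorem Q.symm {X Y₁ Y₂ : RT} (h : Q X Y₁ Y₂) : Q X Y₂ Y₁ :=
  ⟨h.2.1, h.1, h.2.2.1.symm, fun Z h1 h2 => h.2.2.2 Z h2 h1⟩

/-- comparison of the two cards of a tree -/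
theorem two_del {Z Y₁ Y₂ : RT} (h1 : Del leaf Z Y₁) (h2 : Del leaf Z Y₂) :
    (∃ P N₁ N₂ M, ch Z = P ::ₘ M ∧ Rp P N₁ ∧ Rp P N₂ ∧ ch Y₁ = N₁ + M ∧ ch Y₂ = N₂ + M) ∨
    ∃ P₁ P₂ N₁ N₂ M, ch Z = P₁ ::ₘ P₂ ::ₘ M ∧ Rp P₁ N₁ ∧ Rp P₂ N₂ ∧ ch Y₁ = N₁ + P₂ ::ₘ M ∧
      ch Y₂ = N₂ + P₁ ::ₘ M := by
  obtain ⟨P₁, N₁, M₁, a1, a2, a3⟩ := del_rp.1 h1
  obtain ⟨P₂, N₂, M₂, b1, b2, b3⟩ := del_rp.1 h2
  rw [a1] at b1
  rcases Multiset.cons_eq_cons.1 b1 with ⟨h3, h4⟩ | ⟨_, N, h3, h4⟩
  · subst h3 h4
    exact Or.inl ⟨_, _, _, _, a1, a3, b3, a2, b2⟩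
  · subst h3 h4
    exact Or.inr ⟨_, _, _, _, _, a1, a3, b3, a2, b2⟩

/-- two branches of different sizes -/
theorem RD1 {A A' B : RT} {NB M : Multiset RT} (hs : size B < size A) (hA : Del leaf A A')
    (hB : Rp B NB) (hAB : Del leaf A B → A' = B) :
    Q (node (A ::ₘ B ::ₘ M)) (node (A' ::ₘ B ::ₘ M)) (node (NB + A ::ₘ M)) := by
  have hA1 := hA.size1
  have hAB1 : A ≠ B := by rintro rfl; omega
  have hAA : A ≠ A' := hA.ne
  have hANB : A ∉ NB := fun h => by have := hB.size_eq h; omega
  have hBNB : B ∉ NB := fun h => by have := hB.size_eq h; omega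
  have hA'NB : A' ∉ NB := fun h => by have := hB.size_eq h; omega
  refine ⟨Del.deep _ hA, ?_, ?_, ?_⟩
  · rw [Multiset.cons_swap]
    exact hB.del _
  · intro h
    have h1 := node_inj.1 h
    have h2 : A' ::ₘ B ::ₘ M = {A'} + {B} + M := by
      rw [add_assoc, Multiset.singleton_add, Multiset.singleton_add]
    have h3 : NB + A ::ₘ M = NB + {A} + M := by
      rw [add_assoc, Multiset.singleton_add]
    rw [h2, h3] at h1
    have h4 := add_right_cancel h1
    have h5 : A ∈ ({A'} + {B} : Multiset RT) := by rw [h4]; simp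
    simp only [Multiset.mem_add, Multiset.mem_singleton] at h5
    rcases h5 with h5 | h5
    · exact hAA h5
    · exact hAB1 h5
  · intro Z hZ1 hZ2
    rcases two_del hZ1 hZ2 with ⟨P, N₁, N₂, M₁, h1, h2, h3, h4, h5⟩ |
      ⟨P₁, P₂, N₁, N₂, M₁, h1, h2, h3, h4, h5⟩
    · exfalso
      rw [ch_node] at h4 h5
      -- N₁ + NB + {A} = N₂ + {A'} + {B}
      have e : N₁ + NB + {A} = N₂ + {A'} + {B} := by
        have e1 : (N₁ + NB + {A}) + (M + M₁) = (N₂ + {A'} + {B}) + (M + M₁) := by
          have e2 : N₁ + NB + {A} + (M + M₁) = (N₁ + M₁) + (NB + A ::ₘ M) := by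
            rw [← Multiset.singleton_add A M]; abel
          have e3 : N₂ + {A'} + {B} + (M + M₁) = (N₂ + M₁) + (A' ::ₘ B ::ₘ M) := by
            rw [← Multiset.singleton_add B M, ← Multiset.singleton_add A']; abel
          rw [e2, e3, ← h4, ← h5, add_comm]
        exact add_right_cancel e1
      have e2 : A ∈ N₂ + {A'} + {B} := by rw [← e]; simp
      simp only [Multiset.mem_add, Multiset.mem_singleton] at e2
      have e3 : A ∈ N₂ := by
        rcases e2 with (h | h) | h
        · exact h
        · exact absurd h hAA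
        · exact absurd h hAB1
      obtain ⟨h6, h7⟩ := h3.del' e3
      subst h7
      have e4 : N₁ + NB = {A'} + {B} := by
        have : (N₁ + NB) + {A} = ({A'} + {B}) + {A} := by rw [e]; abel
        exact add_right_cancel this
      have e5 : B ∈ N₁ := by
        have : B ∈ N₁ + NB := by rw [e4]; simp
        rcases Multiset.mem_add.1 this with h | h
        · exact h
        · exact absurd h hBNB
      obtain ⟨h8, h9⟩ := h2.del' e5
      subst h9
      have e6 : NB = {A'} := by
        have : ({B} : Multiset RT) + NB = {B} + {A'} := by rw [e4, add_comm]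
        exact add_left_cancel this
      exact hA'NB (by rw [e6]; simp)
    · rw [ch_node] at h4 h5
      have hZ : Z = node (P₁ ::ₘ P₂ ::ₘ M₁) := by rw [← h1, node_ch]
      have h4' : {A'} + {B} + M = N₁ + {P₂} + M₁ := by
        rw [add_assoc, add_assoc, Multiset.singleton_add, Multiset.singleton_add,
          Multiset.singleton_add, h4]
      have h5' : NB + {A} + M = N₂ + {P₁} + M₁ := by
        rw [add_assoc, add_assoc, Multiset.singleton_add, Multiset.singleton_add, h5]
      have e : N₁ + {P₂} + NB + {A} = {A'} + {B} + N₂ + {P₁} := by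
        have e1 : (N₁ + {P₂} + NB + {A}) + (M + M₁) = ({A'} + {B} + N₂ + {P₁}) + (M + M₁) := by
          have e2 : (N₁ + {P₂} + NB + {A}) + (M + M₁) = (N₁ + {P₂} + M₁) + (NB + {A} + M) := by
            abel
          rw [e2, ← h4', h5']
          abel
        exact add_right_cancel e1
      by_cases hP : P₁ = A
      · subst hP
        have e2 : N₁ + {P₂} + NB = {A'} + {B} + N₂ := add_right_cancel e
        -- the deleted branch is replaced by `N₁ = {N₁'}`
        rcases h2 with ⟨h6, _⟩ | ⟨N₁', h6, h7⟩
        · exfalso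
          rw [h6, size_leaf] at hs
          have := size_pos B
          omega
        · subst h7
          by_cases hN : N₁' = A'
          · subst hN
            rw [hZ, node_inj]
            have e3 : {B} + M = {P₂} + M₁ := by
              have : {N₁'} + ({B} + M) = {N₁'} + ({P₂} + M₁) := by
                rw [← add_assoc, ← add_assoc, h4']
              exact add_left_cancel this
            rw [Multiset.singleton_add, Multiset.singleton_add] at e3
            rw [e3]
          · exfalso
            have h8 : N₁' ∈ {A'} + {B} + N₂ := by rw [← e2]; simp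
            simp only [Multiset.mem_add, Multiset.mem_singleton] at h8
            rcases h8 with (h8 | h8) | h8
            · exact hN h8
            · subst h8
              exact hN (hAB h6).symm
            · obtain ⟨_, h9⟩ := h3.del' h8
              subst h9
              have e3 : {P₂} + NB = {A'} + {B} := by
                have : ({P₂} + NB) + {N₁'} = ({A'} + {B}) + {N₁'} := by rw [← e2]; abel
                exact add_right_cancel this
              have e4 : B ∈ ({P₂} : Multiset RT) + NB := by rw [e3]; simp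
              have e5 : A' ∈ ({P₂} : Multiset RT) + NB := by rw [e3]; simp
              simp only [Multiset.mem_add, Multiset.mem_singleton] at e4 e5
              rcases e4 with e4 | e4
              · rcases e5 with e5 | e5
                · subst e4
                  subst e5
                  have e6 : NB = {A'} := add_left_cancel e3
                  exact hA'NB (by rw [e6]; simp)
                · exact hA'NB e5
              · exact hBNB e4
      · exfalso
        have h8 : A ∈ {A'} + {B} + N₂ + {P₁} := by rw [← e]; simp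
        simp only [Multiset.mem_add, Multiset.mem_singleton] at h8
        rcases h8 with ((h8 | h8) | h8) | h8
        · exact hAA h8
        · exact hAB1 h8
        · obtain ⟨h9, h10⟩ := h3.del' h8
          subst h10
          have h11 := h9.size1
          have e2 : N₁ + {P₂} + NB = {A'} + {B} + {P₁} := by
            have : (N₁ + {P₂} + NB) + {A} = ({A'} + {B} + {P₁}) + {A} := by rw [e]; abel
            exact add_right_cancel this
          have e3 : P₂ ∈ ({A'} : Multiset RT) + {B} + {P₁} := by rw [← e2]; simp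
          simp only [Multiset.mem_add, Multiset.mem_singleton] at e3
          rcases e3 with (e3 | e3) | e3
          · rw [e3] at h11; omega
          · rw [e3] at h11; omega
          · subst e3
            have e4 : N₁ + NB = {A'} + {B} := by
              have : (N₁ + NB) + {P₂} = ({A'} + {B}) + {P₂} := by rw [← e2]; abel
              exact add_right_cancel this
            have e5 : B ∈ N₁ + NB := by rw [e4]; simp
            rcases Multiset.mem_add.1 e5 with h | h
            · have := h2.size_eq h
              omega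
            · exact hBNB h
        · exact hP h8.symm

/-- all branches have the same size and one of them is good -/
theorem R2iso {D D₁ D₂ : RT} {M : Multiset RT} (hM : ∀ E ∈ M, size E = size D)
    (h : Q D D₁ D₂) : Q (node (D ::ₘ M)) (node (D₁ ::ₘ M)) (node (D₂ ::ₘ M)) := by
  obtain ⟨hD1, hD2, hne, huni⟩ := h
  have hs1 := hD1.size1
  have hs2 := hD2.size1
  refine ⟨Del.deep _ hD1, Del.deep _ hD2, ?_, ?_⟩
  · intro h
    exact hne ((Multiset.cons_inj_left M).1 (node_inj.1 h))
  · intro Z hZ1 hZ2
    rcases two_del hZ1 hZ2 with ⟨P, N₁, N₂, M₁, h1, h2, h3, h4, h5⟩ |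
      ⟨P₁, P₂, N₁, N₂, M₁, h1, h2, h3, h4, h5⟩
    · rw [ch_node] at h4 h5
      have e : N₁ + {D₂} = N₂ + {D₁} := by
        have e1 : (N₁ + {D₂}) + (M + M₁) = (N₂ + {D₁}) + (M + M₁) := by
          have e2 : N₁ + {D₂} + (M + M₁) = (N₁ + M₁) + (D₂ ::ₘ M) := by
            rw [← Multiset.singleton_add D₂ M]; abel
          have e3 : N₂ + {D₁} + (M + M₁) = (N₂ + M₁) + (D₁ ::ₘ M) := by
            rw [← Multiset.singleton_add D₁ M]; abel
          rw [e2, e3, ← h4, ← h5, add_comm]
        exact add_right_cancel e1
      rcases singleton_add_eq e with ⟨h6, _⟩ | ⟨h6, h7⟩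
      · exact absurd h6.symm hne
      · obtain ⟨h8, h9⟩ := h3.del' h6
        obtain ⟨h10, h11⟩ := h2.del' h7
        subst h9 h11
        have h12 := huni P h10 h8
        subst h12
        have h13 : M = M₁ := by
          rw [Multiset.singleton_add] at h4
          exact (Multiset.cons_inj_right D₁).1 h4
        rw [h13, ← h1, node_ch]
    · rw [ch_node] at h4 h5
      have hZ : Z = node (P₁ ::ₘ P₂ ::ₘ M₁) := by rw [← h1, node_ch]
      have h4' : {D₁} + M = N₁ + {P₂} + M₁ := by
        rw [add_assoc, Multiset.singleton_add, Multiset.singleton_add, h4]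
      have h5' : {D₂} + M = N₂ + {P₁} + M₁ := by
        rw [add_assoc, Multiset.singleton_add, Multiset.singleton_add, h5]
      have e : N₁ + {P₂} + {D₂} = N₂ + {P₁} + {D₁} := by
        have e1 : (N₁ + {P₂} + {D₂}) + (M + M₁) = (N₂ + {P₁} + {D₁}) + (M + M₁) := by
          have e2 : (N₁ + {P₂} + {D₂}) + (M + M₁) = (N₁ + {P₂} + M₁) + ({D₂} + M) := by abel
          rw [e2, ← h4', h5']
          abel
        exact add_right_cancel e1
      have e2 : D₂ ∈ N₂ + {P₁} + {D₁} := by rw [← e]; simp
      simp only [Multiset.mem_add, Multiset.mem_singleton] at e2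
      rcases e2 with (e2 | e2) | e2
      · obtain ⟨h6, h7⟩ := h3.del' e2
        subst h7
        have e3 : N₁ + {P₂} = {P₁} + {D₁} := by
          have : (N₁ + {P₂}) + {D₂} = ({P₁} + {D₁}) + {D₂} := by rw [e]; abel
          exact add_right_cancel this
        rcases singleton_add_eq e3 with ⟨h8, _⟩ | ⟨h8, h9⟩
        · have := h6.size1
          rw [h8] at this
          omega
        · obtain ⟨h10, h11⟩ := h2.del' h9
          subst h11
          rw [Multiset.mem_singleton] at h8
          subst h8
          have h12 := huni P₂ h10 h6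
          subst h12
          rw [hZ, node_inj]
          have : {D₁} + M = {D₁} + ({P₂} + M₁) := by rw [h4']; abel
          rw [add_left_cancel this, Multiset.singleton_add]
      · -- `P₁ = D₂`
        subst e2
        exfalso
        have h6 : ∀ E ∈ N₁, False := by
          intro E hE
          have h7 := h2.size_eq hE
          have h8 : E ∈ {D₁} + M := by rw [h4']; simp [hE]
          rcases Multiset.mem_add.1 h8 with h9 | h9
          · rw [Multiset.mem_singleton] at h9
            rw [h9] at h7
            omega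
          · rw [hM E h9] at h7
            omega
        have h7 : N₁ = 0 := Multiset.eq_zero_of_forall_notMem h6
        rcases h2 with ⟨h8, _⟩ | ⟨_, _, h9⟩
        · rw [h8, size_leaf] at hs2
          apply hne
          rw [h8]
          exact size_eq_one (by omega)
        · rw [h7] at h9
          exact absurd h9.symm (Multiset.singleton_ne_zero _)
      · exact absurd e2.symm hne

/-- some rooted pair -/
def QS (X : RT) : Prop := ∃ Y₁ Y₂, Q X Y₁ Y₂

/-- hereditarily homogeneous -/
inductive HH : RT → Prop
  | base : HH leaf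
  | step (D : RT) (M : Multiset RT) : (∀ F ∈ M, size F = size D) → HH D → HH (node (D ::ₘ M))

theorem HH.cases' {X : RT} (h : HH X) :
    X = leaf ∨ ∃ D M, X = node (D ::ₘ M) ∧ (∀ F ∈ M, size F = size D) ∧ HH D := by
  cases h with
  | base => exact Or.inl rfl
  | step D M h1 h2 => exact Or.inr ⟨D, M, rfl, h1, h2⟩

theorem HH.homog {X : RT} (h : HH X) : Homog X := by
  rcases h.cases' with rfl | ⟨D, M, rfl, h1, _⟩
  · intro E hE
    simp [Drn.leaf] at hE
  · have key : ∀ E ∈ ch (node (D ::ₘ M)), size E = size D := by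
      intro E hE
      rw [ch_node] at hE
      rcases Multiset.mem_cons.1 hE with rfl | hE
      · rfl
      · exact h1 E hE
    intro E hE F hF
    rw [key E hE, key F hF]

theorem HH.up {X : RT} : HH (node {X}) → HH X := by
  intro h
  rcases h.cases' with h | ⟨D, M, h, h1, h2⟩
  · have := congrArg Multiset.card (node_inj.1 h)
    simp at this
  · have h3 := node_inj.1 h
    have hM : M = 0 := by
      have := congrArg Multiset.card h3
      simp at this
      exact this
    subst hM
    have : X = D := by simpa using h3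
    rwa [this]

theorem cls (X : RT) : QS X ∨ HH X := by
  induction X using RT.ind with
  | h M ih =>
    by_cases hM : M = 0
    · subst hM
      exact Or.inr HH.base
    obtain ⟨D, hD⟩ := Multiset.exists_mem_of_ne_zero hM
    by_cases hs : ∀ E ∈ M, ∀ F ∈ M, size E = size F
    · obtain ⟨M', rfl⟩ := Multiset.exists_cons_of_mem hD
      rcases ih D hD with ⟨D₁, D₂, h⟩ | h
      · exact Or.inl ⟨_, _, R2iso (fun E hE => hs E (Multiset.mem_cons_of_mem hE) D hD) h⟩
      · exact Or.inr (HH.step D M' (fun F hF => hs F (Multiset.mem_cons_of_mem hF) D hD) h)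
    · left
      push Not at hs
      have key : ∀ A B : RT, A ∈ M → B ∈ M → size B < size A → QS (node M) := by
        intro A B hA hB h
        obtain ⟨M₁, rfl⟩ := Multiset.exists_cons_of_mem hA
        rcases Multiset.mem_cons.1 hB with h1 | h1
        · rw [h1] at h
          omega
        obtain ⟨M₂, rfl⟩ := Multiset.exists_cons_of_mem h1
        have hAl : A ≠ leaf := by
          rintro rfl
          rw [size_leaf] at h
          have := size_pos B
          omega
        obtain ⟨NB, hNB⟩ := Rp.exists B
        by_cases hAB : Del leaf A B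
        · exact ⟨_, _, RD1 h hAB hNB (fun _ => rfl)⟩
        · obtain ⟨A', hA'⟩ := del_exists hAl
          exact ⟨_, _, RD1 h hA' hNB (fun h => absurd h hAB)⟩
      obtain ⟨E, hE, F, hF, hne⟩ := hs
      rcases Nat.lt_or_gt_of_ne hne with h | h
      · exact key F E hF hE h
      · exact key E F hE hF h

/-- the pair with the largest branch -/
theorem RD1' {A B : RT} (M : Multiset RT) (hs : size B < size A) :
    ∃ A' NB, Del leaf A A' ∧ Rp B NB ∧
      Q (node (A ::ₘ B ::ₘ M)) (node (A' ::ₘ B ::ₘ M)) (node (NB + A ::ₘ M)) := by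
  have hAl : A ≠ leaf := by
    rintro rfl
    rw [size_leaf] at hs
    have := size_pos B
    omega
  obtain ⟨NB, hNB⟩ := Rp.exists B
  by_cases hAB : Del leaf A B
  · exact ⟨_, _, hAB, hNB, RD1 hs hAB hNB (fun _ => rfl)⟩
  · obtain ⟨A', hA'⟩ := del_exists hAl
    exact ⟨_, _, hA', hNB, RD1 hs hA' hNB (fun h => absurd h hAB)⟩

theorem not_QS_of_isPt {X : RT} (h : IsPt X) : ¬ QS X := by
  rintro ⟨Y₁, Y₂, h1, h2, h3, _⟩
  have := h1.size1
  have := h2.size1
  exact h3 ((h.del h1).unique (h.del h2) (by omega))

end Pool.Agent.Helper13K9.Drn
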