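import Mathlib

/-!
# Isomorphism types of finite rooted trees

`RT` is the type of isomorphism types of finite rooted trees: `node M` is the tree whose root has
the multiset `M` of branches. (Realised on `ℕ` through a bijection of `ℕ` with `Multiset ℕ`.)
-/

set_option autoImplicit false

namespace Pool.Agent.Helper13K9.Drn

/-- Isomorphism types of finite rooted trees. -/
def RT : Type := ℕ

/-- the tree with the given branches -/
def node (M : Multiset RT) : RT := Denumerable.eqv (Multiset ℕ) M

/-- the branches at the root -/
def ch (X : RT) : Multiset RT := (Denumerable.eqv (Multiset ℕ)).symm X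

@[simp] theorem ch_node (M : Multiset RT) : ch (node M) = M :=
  (Denumerable.eqv (Multiset ℕ)).symm_apply_apply M

@[simp] theorem node_ch (X : RT) : node (ch X) = X :=
  (Denumerable.eqv (Multiset ℕ)).apply_symm_apply X

theorem node_inj {M N : Multiset RT} : node M = node N ↔ M = N :=
  ⟨fun h => by rw [← ch_node M, h, ch_node], fun h => by rw [h]⟩

private theorem mem_raise : ∀ (l : List ℕ) (n a : ℕ), a ∈ Denumerable.raise l n → a ≤ n + l.sum
  | [], _, _, h => by simp [Denumerable.raise] at h
  | m :: l, n, a, h => by
    rw [Denumerable.raise, List.mem_cons] at h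
    rcases h with h | h
    · rw [h, List.sum_cons]; omega
    · have := mem_raise l (m + n) a h
      rw [List.sum_cons]; omega

private theorem sum_le_encode : ∀ l : List ℕ, l.sum + l.length ≤ Encodable.encode l
  | [] => by simp
  | m :: l => by
    have h := sum_le_encode l
    have h2 := Nat.add_le_pair m (Encodable.encode l)
    rw [Encodable.encode_list_cons, List.sum_cons, List.length_cons]
    simp only [Encodable.encode_nat] at *
    omega

private theorem mem_lt_aux (n a : ℕ) (h : a ∈ (Denumerable.eqv (Multiset ℕ)).symm n) : a < n := by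
  have h1 : a ∈ Denumerable.raise (Denumerable.ofNat (List ℕ) n) 0 := by
    have : (Denumerable.eqv (Multiset ℕ)).symm n = Multiset.map (Denumerable.ofNat ℕ)
      (Denumerable.raise (Denumerable.ofNat (List ℕ) n) 0 : List ℕ) := rfl
    rw [this] at h
    obtain ⟨b, hb, hc⟩ := Multiset.mem_map.1 h
    rw [← hc]
    simpa using hb
  have h2 := mem_raise _ _ _ h1
  have h3 := sum_le_encode (Denumerable.ofNat (List ℕ) n)
  rw [Denumerable.encode_ofNat] at h3
  have h4 : 0 < (Denumerable.ofNat (List ℕ) n).length := by
    rcases hl : Denumerable.ofNat (List ℕ) n with _ | ⟨b, l⟩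
    · rw [hl] at h1
      simp [Denumerable.raise] at h1
    · simp
  omega

theorem mem_ch_lt {X D : RT} (h : D ∈ ch X) : @LT.lt ℕ _ D X := mem_lt_aux X D h

/-- Induction on rooted trees. -/
theorem RT.ind {P : RT → Prop} (h : ∀ M : Multiset RT, (∀ D ∈ M, P D) → P (node M)) (X : RT) :
    P X := by
  have key : ∀ n : ℕ, P n := by
    intro n
    induction n using Nat.strong_induction_on with
    | _ n ih =>
      have h1 := h (ch n) (fun D hD => ih D (mem_ch_lt hD))
      have h2 : node (ch n) = n := node_ch n
      exact h2 ▸ h1
  exact key X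

/-- number of vertices -/
def size (X : RT) : ℕ :=
  1 + ((ch X).attach.map (fun D => size D.1)).sum
termination_by (show ℕ from X)
decreasing_by exact mem_ch_lt D.2

theorem size_eq (X : RT) : size X = 1 + ((ch X).map size).sum := by
  rw [size]
  congr 2
  exact Multiset.attach_map_val' (ch X) size

@[simp] theorem size_node (M : Multiset RT) : size (node M) = 1 + (M.map size).sum := by
  rw [size_eq, ch_node]

theorem size_pos (X : RT) : 0 < size X := by
  rw [size_eq]; omega

/-- the tree with one vertex -/
def leaf : RT := node 0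

@[simp] theorem size_leaf : size leaf = 1 := by simp [leaf]

/-- re-rooting at a neighbour of the root -/
inductive Re : RT → RT → Prop
  | mk (D : RT) (M : Multiset RT) : Re (node (D ::ₘ M)) (node (node M ::ₘ ch D))

/-- `UI X Y`: `X` and `Y` are isomorphic as unrooted trees -/
def UI : RT → RT → Prop := Relation.ReflTransGen Re

/-- `Del S X Y`: `Y` is obtained from `X` by deleting a pendant subtree (a vertex different from the
root and its descendants) of type `S`. For `S = leaf`: `Y` arises by deletion of a leaf which is not
the root. -/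
inductive Del (S : RT) : RT → RT → Prop
  | here (M : Multiset RT) : Del S (node (S ::ₘ M)) (node M)
  | deep {D D' : RT} (M : Multiset RT) : Del S D D' → Del S (node (D ::ₘ M)) (node (D' ::ₘ M))

/-- `UCard X Y`: up to unrooted isomorphism `Y` is `X` without a leaf. -/
def UCard (X Y : RT) : Prop := ∃ X' Y', UI X X' ∧ Del leaf X' Y' ∧ UI Y' Y

/-- determined by two leaf cards -/
def LLgood (X : RT) : Prop :=
  ∃ Y₁ Y₂, UCard X Y₁ ∧ UCard X Y₂ ∧ ¬ UI Y₁ Y₂ ∧ ∀ Z, UCard Z Y₁ → UCard Z Y₂ → UI Z X

/-- determined by the cards of two vertices (`X₁`, `X₂`: the tree rooted at these vertices); the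
components of the two cards have different sizes -/
def NLgood (X : RT) : Prop :=
  ∃ X₁ X₂, UI X X₁ ∧ UI X X₂ ∧ (∀ D ∈ ch X₁, ∀ E ∈ ch X₂, size D ≠ size E) ∧
    ∀ Z₁ Z₂, UI Z₁ Z₂ → Multiset.Rel UI (ch Z₁) (ch X₁) → Multiset.Rel UI (ch Z₂) (ch X₂) →
      UI Z₁ X

/-! ### First properties -/

theorem Re.symm {X Y : RT} (h : Re X Y) : Re Y X := by
  cases h with
  | mk D M =>
    have := Re.mk (node M) (ch D)
    rwa [node_ch, ch_node] at this

theorem UI.refl (X : RT) : UI X X := Relation.ReflTransGen.refl

theorem UI.trans {X Y Z : RT} (h : UI X Y) (h' : UI Y Z) : UI X Z :=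
  Relation.ReflTransGen.trans h h'

theorem UI.symm {X Y : RT} (h : UI X Y) : UI Y X := by
  unfold UI at *
  induction h with
  | refl => exact Relation.ReflTransGen.refl
  | tail _ h2 ih => exact Relation.ReflTransGen.head h2.symm ih

theorem UI.re (D : RT) (M : Multiset RT) : UI (node (D ::ₘ M)) (node (node M ::ₘ ch D)) :=
  Relation.ReflTransGen.single (Re.mk D M)

theorem Re.size_eq {X Y : RT} (h : Re X Y) : size X = size Y := by
  cases h with
  | mk D M =>
    rw [size_node, size_node, Multiset.map_cons, Multiset.map_cons, Multiset.sum_cons,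
      Multiset.sum_cons, size_node, Drn.size_eq D]
    omega

theorem UI.size_eq {X Y : RT} (h : UI X Y) : size X = size Y := by
  unfold UI at h
  induction h with
  | refl => rfl
  | tail _ h2 ih => rw [ih, h2.size_eq]

theorem Del.size_eq {S X Y : RT} (h : Del S X Y) : size X = size S + size Y := by
  induction h with
  | here M => rw [size_node, size_node, Multiset.map_cons, Multiset.sum_cons]; omega
  | deep M _ ih =>
    rw [size_node, size_node, Multiset.map_cons, Multiset.map_cons, Multiset.sum_cons,
      Multiset.sum_cons, ih]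
    omega

end Pool.Agent.Helper13K9.Drn
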