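import Pool.Agent.Helper13K9.Drn.Tasks

/-!
# Paper proofs for the `NL_*` families (project DRN)

Conventions. `X ~ Y` is `UI X Y`; `|X|` is `size X`. For a family member `X` we give `X₁, X₂` (the
tree rooted at the two chosen vertices). `Z₁ ~ Z₂` is the unknown tree rooted at the two vertices
`y` (for `Z₁`) and `x` (for `Z₂`) with `Rel UI (ch Z₁) (ch X₁)`, `Rel UI (ch Z₂) (ch X₂)`; so the
sizes (and unrooted types) of the branches of `Z₁`, `Z₂` are known. Since the branch sizes of `X₁`,
`X₂` are different, `Z₁ ≠ Z₂`, and `Lib_UI_iff` gives: `Z₁ = node (F ::ₘ M')` and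
`In (node M') F Z₂` for some branch `F` (`x` lies in `F`). By induction on `In` (lemma `In.up` of
the library): `Z₂ = node (U ::ₘ ch S)`, `Sub S F`, and either `S = F, U = node M'`
(`x` is the root of `F`) or `|S| < |F|`, `|U| > |node M'|`; always `|U| + |S| = |Z|`.
Also useful: (root lemma) `Lib_root`; Lib_HP; Lib_uni (centroid). `P i = Pt i`.

* `NL_sym`. `n = ds + 1`, `d ≥ 3`. `X₁ = node M`, `X₂ = node (node (M - D) ::ₘ ch D)`; branch sizes
  `s, ..., s` and `n - s, e, ..., e`. `Z₁ = node M₁`, all sizes `s`; `x ∈ F`. The branch `U` of `Z₂`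
  has size `≥ n - s`; all others have total `< s`; so the branch of `Z₂` of size `n - s` is `U` and
  `|U| = n - s`, hence `x` is the root of `F`: `Z₂ = node (node (M₁ - F) ::ₘ ch F)`. Matching
  sizes, `node (M₁ - F) ~ node (M - D)` and `Rel UI (ch F) (ch D)`. Both `node (M₁-F)` and
  `node (M-D)` are balanced (`2 s < (d-1) s + 1`), so `M₁ - F = M - D` by `Lib_uni`. Cancelling in
  `Rel UI M₁ M`: `F ~ D`. By `Lib_root` (D homogeneous) `F = D`. So `Z₁ = node M`.
* `NL_two`. `n = 2s+1`. `X₁ = node {D, D}`, `X₂ = node (node {D} ::ₘ ch D)`; sizes `s, s` and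
  `s + 1, e, ..`. As before `x` is the root of a branch `F`, `Z₁ = node {F, F'}`, `F ~ D`,
  `F' ~ D`, `node {F'} ~ node {D}`, so `F' = D` by `Lib_HP`; `Rel UI (ch F) (ch D)`, so `F = D`.
* `NL_path`. Even `n = 2m`: `X₁ = node {P m, P (m-1)}`, `X₂ = node {P (m+1), P (m-2)}`; odd
  `n = 2m+1`: `node {P m, P m}`, `node {P (m+1), P (m-1)}`. All branches of `Z₁`, `Z₂` are unrooted
  paths. (`X ~ P k` iff `X = node {P i, P j}` or `X = P k`, `i + j + 1 = k`.) So a vertex of
  degree `≥ 3` of `Z` has degree `3` and is a neighbour of `y` and of `x`: then `Z` is a spider with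
  three legs, `y`, `x` are first vertices of legs and the sizes do not fit; otherwise no vertex has
  degree `≥ 3`. In terms of branches: `Z₁ = node {F, F'}`, `F = P i` or `node {P i, P j}` etc.
* `NL_spider` (`i ≤ j ≤ l`). `X₁ = node {P i, P j, P l}` (branching vertex `c`), `X₂` rooted at the
  first vertex `s` of the SHORTEST leg: `node {P (i-1), node {P j, P l}}` (`i ≥ 2`) or
  `node {node {P j, P l}}` (`i = 1`). Sizes `i, j, l` and `i - 1, j + l + 1`. `Z₁` has three
  branches, `x ∈ F`. If `x` is not the root of `F` then `U` contains `y` with its three branches,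
  but `U` is an unrooted path: contradiction. So `x` is the root of `F`, `U = node (M' )` with two
  branches is an unrooted path, so both are `P _`; the other branch of `Z₂` is `E` with
  `F = node {E}` an unrooted path with `E` an unrooted path, so `F = P _` (for `i = 1`: `F = leaf`).
  Sizes: `|F| - 1 ∈ {i - 1, j + l + 1}` so `|F| = i`.
* `NL_tail`. `w = |W|`, `L ≥ w + 1`, tail `t₁ .. t_L` (`t₁` next to the root of `W`). If
  `w ≠ L - 2` use `(t₁, t₂)`, else `(t₂, t₃)`. In general for `(t_i, t_{i+1})`: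
  `X₁ = node {Nn (i-1) W, P (L-i)}`, `X₂ = node {Nn i W, P (L-i-1)}`.
  For `i = 1`, `w ≠ L - 2`: `Z₁ = node {C, Q}`, `C ~ W`, `Q ~ P (L-1)`; `Z₂`: `{w + 1, L - 2}`.
  (a) `x ∈ Q`: `|U| ≥ w + 1`. Either `|U| = w + 1`, then `x` is the root of `Q`,
  `U = node {C} ~ node {W}` so `C = W` (HP), and `Q = node {P'}`, `Q`, `P'` unrooted paths, so
  `Q = P (L-1)`. Or `U ~ P (L-2)`, an unrooted path which contains `C ~ W`: but `W` is not an
  unrooted path. (b) `x ∈ C`: `|U| ≥ L`, so `|U| = w + 1 = L`, `x` is the root of `C`,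
  `C = node {E}`, `E ~ P (L - 2)`, `U = node {Q} ~ node {W}`: `node {Q}` is a path with a leaf, so has
  at most one vertex of degree `≥ 3`, and that vertex is the root of `W`, so `W = node {P i, P j}`,
  excluded. For `i = 2`, `w = L - 2` the same argument (sizes `{L-1, L-2}` and `{L, L-3}`).
* `NL_leaf`. `X₁ = node {leaf, B₁, B₂}`, `X₂ = node {node {B₁, B₂}}` (rooted at the leaf).
  `Z₂ = node {K}`, `K ~ node {B₁, B₂}`, balanced. `K` arises (up to `~`) from `Z₁` by deletion of a
  leaf: `Del leaf Z₁ K'`, `K' ~ K` (library: `UI Z₁ (node {K})` and `Z₁ ≠ node {K}` gives this).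
  `K'` is balanced, so `K' = node {B₁, B₂}`; `Z₁ = node {leaf, F₁, F₂}`, and `K'` has two branches
  only if the leaf is deleted.
* `NL_star`: root at the centre and at a leaf. `NL_dstar`: `A = node (replicate k leaf)`;
  `X₁ = node (A ::ₘ replicate k leaf)`, `X₂` rooted at a leaf next to the root of `X₁`. As in
  `NL_leaf`: `Del leaf Z₁ K'`, `K' ~ node (A ::ₘ replicate (k-1) leaf)` whose balanced form is
  `node (node (replicate (k-1) leaf) ::ₘ replicate k leaf)`; `Z₁ = node (F ::ₘ replicate k leaf)`,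
  `F ~ A`, so `F = A` or `F = node {node (replicate (k-1) leaf)}`.
* `NL_legs`: the tree `q_k ... q_1 b a p_1 ... p_k` with leaves `β` at `b` and `α` at `a`. Good
  pairs: `(α, p₂)` (also `(p₁,p₂)`, `(a,p₂)`, `(p₂,p₃)`). For `(α, p₂)`: `H` is the spider
  `S_b(1, k, k+1)` plus a leaf `x`; `H - y` (`deg y = 2`) is `P (k-2)` plus a tree with two adjacent
  vertices of degree 3 of which one has two leaf neighbours.
* `NL_double`. `m = ks + 1 = |node M|`, `k = card M ≥ 2`, `n = 2m`, `e = |E|`, `D' = node (ch D - E)`.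
  `X₁` rooted at the root of `D` (in the half `a`), `X₂` at the root of `E`. Let
  `K₁ = node (node (M - D) ::ₘ M)` (`~` the tree without `D`; sizes `s^k, m - s`),
  `K₂ = node (node (M - D + D') ::ₘ M)` (`~` the tree without `E`; sizes `s^k, m - e`). By
  `Lib_attach` the unknown tree `Z` satisfies `Z ~ H₁`, `Del D_x H₁ K₁`, `Rel UI (ch D_x) (ch D)`
  and `Z ~ H₂`, `Del D_y H₂ K₂`, `Rel UI (ch D_y) (ch E)`.
  `H₁` is one of: (1a) `node (D_x ::ₘ node (M-D) ::ₘ M)`; (1b) `node (F⁺ ::ₘ node (M-D) ::ₘ (M - F))`,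
  `|F⁺| = 2s`; (1c) `node (N₁ ::ₘ M)` with `Del D_x N₁ (node (M - D))`. `H₂`: (2a)
  `node (D_y ::ₘ node (M-D+D') ::ₘ M)`; (2b) `node (F⁺ ::ₘ node (M-D+D') ::ₘ (M-F))`, `|F⁺| = s + e`;
  (2c) `node (N₂ ::ₘ M)` with `Del D_y N₂ (node (M-D+D'))`. (a), (b) are balanced, (c) is two halves
  `node M`, `N_i`. Unbalanced/balanced do not mix (`Lib_uni_bi`); (1a),(1b) against (2a),(2b):
  `Lib_uni` and sizes give a contradiction except `k = 2, e = 1`, (1b)/(2b), where the multiset
  equation forces `s = 2`, excluded. (1c)/(2c): `Lib_bi` gives `N₁ = N₂` (or both equal `node M`).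
  `N₁ ∈ {node (D_x ::ₘ (M-D)), node (F⁺ ::ₘ (M-D-F))}` and `N₂ ∈ {node (D_y ::ₘ D' ::ₘ (M-D)),
  node (F⁺ ::ₘ D' ::ₘ (M-D-F)), node (D'' ::ₘ (M-D))}` with `Del D_y D'' D'`: number and sizes of
  the branches leave only the first with the last: `D_x = D''`, `Del D_y D_x D'`. All branches of
  `D_x` have size `e`, so `D_y` is a branch: `ch D_x = D_y ::ₘ (ch D - E)`, so `D_y ~ E`,
  `D_y = E` by `Lib_root`, `D_x = D`, `N₁ = node M`.
* `NL_chain`. `D = Nn j B`, `s = |D|`, `n = 2s + 2`, the path `D - a - b - D`.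
  `X₁ = node {D, node {D}}` (rooted at `a`), `X₂ = node (node {node {D}} ::ₘ ch D)` (root of `D`).
  Sizes `s, s+1` and `s + 2, e, ...`. `Z₁ = node {Y, X}`, `Y ~ D`, `X ~ node {D}`. The branch of
  `Z₂` of size `s + 2` is `U`. Either `x` is the root of `Y`: `U = node {X} ~ node {node {D}}`, so
  `X = node {D}` (HP), `Y ~ D` and `Rel UI (ch Y) (ch D)` so `Y = D`. Or `x ∈ X`, `|S| = s`, so
  `X = node {S}`, `x` root of `S`, `U = node {node {Y}} ~ node {node {D}}`, `Rel UI (ch S) (ch D)`,
  `node {S} ~ node {D}`, `Y ~ D`. Lemma β: `Y ~ D`, `node {node {Y}} ~ node {node {D}}` imply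
  `Y = D`. For `S`: if `j = 0`, `node {S} ~ node (leaf ::ₘ ch S)`, `node {D} ~ node (leaf ::ₘ ch B)`
  are balanced, so `ch S = ch B`; if `j ≥ 1`: `S = node {S'}`, `S' ~ Nn (j-1) B`,
  `node {node {S'}} ~ node {node {Nn (j-1) B}}`, so `S' = Nn (j-1) B` by β.
  Proof of β (`D = Nn j B`, `k = card (ch B) ≥ 2`, branches of size `s₀`): let `w` be the vertex of
  `node {node {Y}}` where it looks like `C = node (P (j+2) ::ₘ ch B)` (the root of `B` in
  `node {node {D}}`); `w ∈ Y` since it has degree `≥ 3`: `C = node (U ::ₘ ch S)`, `Sub S Y`. If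
  `U = P (j+2)` then `ch S = ch B` and everything above `S` is a path: `Y = D`. Otherwise
  `U ∈ ch B`, so `|S| = 1 + (k-1) s₀ + j + 2` and `S` has a branch `P (j+2)`, others of size `s₀`.
  Let `w'` be the vertex of `Y` where it looks like the root of `B` in `D`:
  `node (P j ::ₘ ch B)` (`B` if `j = 0`). If `w'` is the root of `Y`: `j = 0` gives `Y = B = D`;
  `j ≥ 1` gives `Y = node (P j ::ₘ ch B)`; now `w` is not the root of `Y` (its degree in
  `node {node {Y}}` is too big), so `S` is inside a branch of `Y`, too small. If `w'` is not the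
  root: `Y`-code `node (U' ::ₘ ch S')`; `U' = P j` gives `Y = D` as before; else `|U'| = s₀`,
  `|S'| = 1 + (k-1) s₀ + j`, and `|S| + |S'| > |Y|`, so `S, S'` are nested: `S'` is inside a branch
  of `S` (sizes `s₀` or `P (j+2)`), impossible by size or because `P (j+2)` has no vertex of
  degree `≥ 3`. (`k=2, j=0`: check separately, `B = node {E, F}`, degree of `w'` is 2.)
-/
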