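import Pool.Agent.Helper13K9.Drn.LLTasks

/-!
# Paper proofs of the LL_* cases (helper13)

Notation: `X → Y` is `Del leaf X Y`; `•` = leaf; `N X = node {X}`; for a card `Y` of `X` we write
`X = Y⁺`. Tools in `DelL`: `del_iff`, `del_to`, `del_up`, `del_to_up`, `del_exists`, `PL1`
(`N Y → Y` implies `Y` path), `PL2` (`N N Y → X → Y` implies `Y` path), `PL2'`, `IsPt.del`,
`IsPt.unique`, `isPt_up`, `choose_ne` (A ≠ B same size, neither path: cards A' ≠ B'), `Rp`,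
`del_rp`, `pair_eq`, `up_ne_pair`, `size_eq_one`. In `QH`: `Q`, `QS`, `RD1`, `RD1'`, `R2iso`,
`two_del`, `not_QS_of_isPt`.

## LL_H1 (use MasterH with A₁ := A', B₁ := B, A₂ := B', B₂ := A)
T = node(A::ch B), A ≠ B, both root degrees ≥ 2. Y₁ = node(A'::ch B), Y₂ = node(B'::ch A).
Choice: if A = node{C,•} and B = node{E,•}: C ≠ E; one of them is not a path, WLOG (symmetry
A ↔ B; node(A::ch B) ~ node(B::ch A) by UI.re) C not a path: A' := N C, B' := node{E',•}.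
Otherwise any A' ≠ B' (choose_ne; neither A nor B is a path as paths have root degree ≤ 1).
Y₁ ≠ Y₂: either A' = B' & A = B, or A' ∈ ch A with size m-1 so A = N A'. No.
c11: {W,B} = {V,A}, W → A', V → B': B ≠ A so W = A. (UI refl.)
c12, c21, c22: N G → A (resp. N F → B) impossible by root degree.
c33: A'::ch P = B'::ch P', P → B, P' → A. A' ≠ B' so A' ∈ ch P', size P' = m+1: P' = node{A',•},
P = node{B',•}. P' → A: A = N A' (no) or A = node{A'',•} with A' → A''. Same B = node{B'',•},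
B' → B''. So we are in the first choice: C = A'', and A' = N C → C, PL1: C path. No.

## LL_H2 (MasterH with A₁ := A', B₁ := N B₁, A₂ := N B₁', B₂ := A)
T = node{A,B₁}, B = N B₁ (T is node(A::ch (N B₁))), root degree of A ≥ 2. Y₁ = node{A',B₁},
Y₂ = node(N B₁'::ch A). Choice of A': if A → B₁ then A' := B₁. Else if A = node{C,•}: if B₁ is a
path A' := N C, else A' := node{C',•}. Else any. B₁': any card of B₁.
Y₁ ≠ Y₂: 2 versus ≥ 3 branches.
c11: W → A', V → N B₁', {W,N B₁} = {V,A}: A ≠ N B₁ so V = N B₁, W = A fine.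
c12: N G → A impossible (root degree).
c21: N F → N B₁ i.e. F → B₁; V → N B₁'; {F,N A'} = {V,A}: A = N A' no; so F = A, N A' = V. So
A → B₁, hence A' = B₁ and node{F,A'} = node{A,B₁} = T.
c22: N G → A impossible.
c33: P → N B₁ with ≥ 2 branches: P = node{B₁,•}. P' → A. {A',B₁,•} = N B₁' :: ch P'.
 N B₁' is A' or B₁ (m ≥ 5).
 (i) N B₁' = B₁: PL1: B₁ = Pt(m-1). P' = node{A',•} → A → A', A ≠ N A' so A = node{C,•} with
  A' → C. If A → B₁: A' = B₁, C = Pt(m-2): the exceptional case of the statement. If not: A' = N C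
  → C so C is a path, A = node{Pt(m-2),•} → N Pt(m-2) = B₁. Contradiction.
 (ii) N B₁' = A' ≠ B₁: P' = node{B₁,•} → A, A ≠ N B₁ (else N B₁... root degree) so
  A = node{C,•} with B₁ → C, A → A' = N B₁' so C = B₁'. If A → B₁: A' = B₁, no.
  If B₁ path: B₁ = N B₁' no. Else A' = node{C',•} ≠ N B₁'.

## LL_H3 (MasterH with A₁ := N A₁', B₁ := N B₁, A₂ := N B₁', B₂ := N A₁)
T = node{N A₁,B₁}, A₁ ≠ B₁ not paths, size m-1. Y₁ = node{N A₁',B₁}, Y₂ = node{N B₁',A₁}.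
Choice: (c2) if A₁ = N E for a card E of B₁ take B₁' := E, A₁' any; (c3) if B₁ = N E for a card
E of A₁ take A₁' := E, B₁' any; else A₁' ≠ B₁' (choose_ne). (c2),(c3) are not both possible: if
A₁ = N E, B₁ → E, B₁ = N E', A₁ → E' then N E → E' so E' = N E'' with E → E''; B₁ = N N E'' → E
→ E'', PL2: E'' path, B₁ path.
Always A₁' ≠ B₁': in (c2) A₁ = N B₁' → A₁' = B₁' gives path by PL1; same in (c3).
Y₁ ≠ Y₂: {N A₁',B₁} = {N B₁',A₁}: B₁ = A₁ or B₁ = N B₁' (PL1).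
c11: {W,N B₁} = {V,N A₁} so V = N B₁, W = N A₁ fine.
c12: W → N A₁', N G → N A₁ (G → A₁), {W,N B₁} = {G,N N B₁'}: N B₁ = N N B₁' no (PL1), so
W = N N B₁', N B₁ = G → A₁: so A₁ = N E with B₁ → E (or B₁ = • no): (c2), A₁ = N B₁', W = N A₁.
c21: symmetric. F → B₁, V → N B₁', {F, N N A₁'} = {V, N A₁}: N N A₁' = N A₁ no, so F = N A₁,
 V = N N A₁', N A₁ → B₁: (c3) B₁ = N A₁', F = N A₁, node{F,N A₁'} = node{N A₁,B₁} = T.
c22: F → B₁, G → A₁: (F = G and N A₁' = N B₁') no; F = N N B₁' → B₁ → B₁': PL2 no.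
c33: P = node{B₁,•}, P' = node{A₁,•}: {N A₁',B₁,•} = {N B₁',A₁,•}: as in Y₁ ≠ Y₂.

## LL_N0 (MasterN0 with P₁ := B₂, Q₁ := N B₁', P₂ := B₁, Q₂ := N B₂')
T = node{B₁,B₂}, Y₁ = node{B₁',B₂} = node(B₂::ch(N B₁')), Y₂ = node{B₁,B₂'}. Choice as in LL_H3:
(c2) B₁ = N E for a card E of B₂: B₂' := E; (c3) B₂ = N E for a card E of B₁: B₁' := E; else
B₁' ≠ B₂'. Cards different: {B₂,N B₁'} = {B₁,N B₂'}: B₂ = B₁ or (B₂ = N B₂' PL1).
Ext B₂ (N B₁') R: R = node(N B₁'::ch W), W → B₂.   Ext (N B₁') B₂ R: R = node(B₂::ch W), W → N B₁'.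
(1,1) node(N B₁'::ch W) = node(N B₂'::ch V), W → B₂, V → B₁: N B₁' ≠ N B₂' so N B₁' ∈ ch V,
 V = N N B₁' → B₁ → B₁' PL2 no.
(1,2) node(N B₁'::ch W) = node(B₁::ch V), W → B₂, V → N B₂': N B₁' = B₁ no (PL1), so B₁ ∈ ch W,
 W = N B₁ → B₂ so B₂ = N E, B₁ → E: (c3) B₂ = N B₁', R = node{N B₁',B₁} = T.
(2,1) symmetric: B₂ ∈ ch V, V = N B₂ → B₁, (c2) B₁ = N B₂', R = node{B₂,N B₂'} = T.
(2,2) node(B₂::ch W) = node(B₁::ch V), W → N B₁': B₁ ∈ ch W, size W = m+1 so W = N B₁: R = T.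

## LL_N0' (MasterN0 with P₁ = P₂ := B, Q₁ := N D₁, Q₂ := N D₂)
T = node{B,B}, Q B D₁ D₂, Y₁ = node{D₁,B}, Y₂ = node{D₂,B}; B is not a path.
(1,1) node(N D₁::ch W) = node(N D₂::ch V), W,V → B: N D₁ ∈ ch V, V = N N D₁ → B → D₁: PL2' no.
(1,2) node(N D₁::ch W) = node(B::ch V), W → B, V → N D₂: N D₁ = B no; B ∈ ch W: W = N B → B no.
(2,1) same. (2,2) node(B::ch W) = node(B::ch V), W → N D₁, V → N D₂: W = V; W = N W' with
W' → D₁; W = V = N W' so W' → D₂: W' = B, R = T; or W = node{D₁,•} = V, V = node{D₂,•} (V = N V'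
no): D₁ = D₂ no.

## LL_N1 (MasterN1 with K := B₁'::M, P := B₁, Q' := R_v)
T = node(B₁::M), R := node M, size m+1, card M ≥ 2. R → R_v, B₁ → B₁'. Y₁ = node(B₁'::M),
Y₂ = node(B₁::ch R_v). Choices:
 R_v := B₁ if R → B₁; else if M = {C,•}: R_v := N C; else any.
 B₁' : if M = {C,•}: (if B₁ → C: B₁' := C; else if B₁ = node{E,•}: B₁' := N E; else any); else any.
All D ∈ B₁'::M have size ≤ m-1 (sizes in M sum to m, at least two).
Ext B₁ R_v R': R' = node(R_v::ch W), W → B₁. Ext R_v B₁ R': R' = node(B₁::ch W), W → R_v.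
(b) node(B₁::ch W) → node(B₁'::M), W → R_v: by del_rp the changed branch has size m (B₁'::M has
 only sizes ≤ m-1), if it is not B₁ then B₁ remains: no. So B₁ → X', X'::ch W = B₁'::M. X' = B₁':
 ch W = M, R' = T. Otherwise X' ∈ M, B₁' ∈ ch W, the rest has size 1: M = {X',•}. So M = {C,•},
 C = X' (m ≥ 5), B₁ → C so B₁' = C = X'. Contradiction.
(a) node(R_v::ch W) → node(B₁'::M), W → B₁: the changed branch is R_v: R_v → X',
 X'::ch W = B₁'::M. If X' = B₁': W = R so R → B₁, R_v = B₁, R' = node(B₁::M) = T.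
 Otherwise M = {X',•}, ch W = {B₁',•}, C = X'. W = node{B₁',•} → B₁: B₁ = N B₁' or
 B₁ = node{E,•} with B₁' → E.
  - R → B₁: R_v = B₁ → C so B₁' = C = X'. Contradiction (or R' = T).
  - not: R_v = N C → X' = C so C = Pt(m-1) (PL1). If B₁ = N B₁': if B₁ → C, B₁' = C no. But
    N C → C.. B₁ = N B₁' and R = node{C,•} does not → B₁. B₁ → B₁'. Is B₁' = C? B₁ → C fails
    here (else B₁' = C = X'), so B₁' ≠ C and we need a contradiction: if B₁' arbitrary this can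
    happen only if N B₁' → B₁', i.e. B₁' = Pt(m-1) = C (PL1). OK contradiction.
    If B₁ = node{E,•}: B₁ → C excluded as before, so B₁' = N E → E, E = Pt(m-2), B₁' = Pt(m-1) = C,
    contradiction to B₁' ≠ C.
-/
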