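import Pool.Agent.Helper13K9.Drn.RT

/-!
# Project DRN (MP_b148a6_co, frozen S10859): the pieces

Every large tree is determined by two degree-associated cards. Rooted tree types `RT` are in
`Drn.RT`. The whole problem splits as: `Bridge` (graphs ↔ `RT`), `Lib` (positions, centroids,
re-rooting), `LL` (pairs of leaves) and the `NL_*` families (pairs with a vertex of degree `≥ 2`).
-/

set_option autoImplicit false

namespace Pool.Agent.Helper13K9.Drn

/-! ## Library -/

/-- `Sub S X`: `S` is `X` or hangs somewhere in `X`. -/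
inductive Sub (S : RT) : RT → Prop
  | refl : Sub S S
  | deep {D X : RT} : D ∈ ch X → Sub S D → Sub S X

/-- `In K D Y`: take the tree which consists of `D` with one more branch `K` at the root of `D`;
`Y` is this tree rooted at one of the vertices of `D`. -/
inductive In : RT → RT → RT → Prop
  | root (K D : RT) : In K D (node (K ::ₘ ch D))
  | deep {K E Y : RT} (N : Multiset RT) : In (node (K ::ₘ N)) E Y → In K (node (E ::ₘ N)) Y

/-- `X` has a branch `D` such that `Y` is `X` rooted at a vertex of `D`, or `Y = X`. -/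
def Lib_UI_iff : Prop := ∀ X Y : RT, UI X Y ↔ X = Y ∨ ∃ D M, X = node (D ::ₘ M) ∧ In (node M) D Y

/-- balanced roots (unique centroids) are unique -/
def Lib_uni : Prop := ∀ M M' : Multiset RT, UI (node M) (node M') →
  (∀ D ∈ M, 2 * size D < size (node M)) → (∀ D ∈ M', 2 * size D < size (node M')) → M = M'

/-- two halves are unique -/
def Lib_bi : Prop := ∀ A B A' B' : RT, UI (node (A ::ₘ ch B)) (node (A' ::ₘ ch B')) →
  size A = size B → size A' = size B' → (A = A' ∧ B = B') ∨ (A = B' ∧ B = A')

/-- no tree has both a balanced root and two halves -/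
def Lib_uni_bi : Prop := ∀ (M : Multiset RT) (A B : RT), UI (node M) (node (A ::ₘ ch B)) →
  (∀ D ∈ M, 2 * size D < size (node M)) → size A = size B → False

/-- existence of centroids -/
def Lib_exists : Prop := ∀ X : RT,
  (∃ M, UI X (node M) ∧ ∀ D ∈ M, 2 * size D < size X) ∨
    ∃ A B, UI X (node (A ::ₘ ch B)) ∧ size A = size B

/-- two similar leaves (Harary–Palmer): if unrooted `X ≅ Y` and unrooted `X`, `Y` with a further
leaf at the root are isomorphic, then `X ≅ Y` rooted -/
def Lib_HP : Prop := ∀ X Y : RT, UI X Y → UI (node {X}) (node {Y}) → X = Y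

/-- all branches have the same size -/
def Homog (D : RT) : Prop := ∀ E ∈ ch D, ∀ F ∈ ch D, size E = size F

/-- deletion of the root determines the position of the root in a homogeneous tree -/
def Lib_root : Prop := ∀ X Y : RT, Homog Y → UI X Y → Multiset.Rel UI (ch X) (ch Y) → X = Y

/-- attaching: a pendant subtree moves along a re-rooting of the rest -/
def Lib_attach : Prop := ∀ K K' D : RT, UI K K' →
  ∃ H', Del D H' K' ∧ UI (node (K ::ₘ ch D)) H'

/-! ## Families without a good pair of leaves

`Pt n` is the path with `n` vertices rooted at an end. -/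

/-- path with `n` vertices, rooted at an end (`n ≥ 1`) -/
def Pt : ℕ → RT
  | 0 => leaf
  | 1 => leaf
  | n + 2 => node {Pt (n + 1)}

def NL_star : Prop := ∀ k : ℕ, 2 ≤ k → NLgood (node (Multiset.replicate k leaf))

def NL_dstar : Prop := ∀ k : ℕ, 3 ≤ k →
  NLgood (node (node (Multiset.replicate k leaf) ::ₘ Multiset.replicate k leaf))

def NL_path : Prop := ∀ n : ℕ, 8 ≤ n → NLgood (Pt n)

def NL_spider : Prop := ∀ i j l : ℕ, 1 ≤ i → i ≤ j → j ≤ l → 8 ≤ i + j + l →
  NLgood (node {Pt i, Pt j, Pt l})

/-- a branching vertex with a long tail -/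
def NL_tail : Prop := ∀ (W : RT) (L : ℕ), 2 ≤ Multiset.card (ch W) →
  (∀ i j : ℕ, W ≠ node {Pt i, Pt j}) → size W + 1 ≤ L → 8 ≤ L → NLgood (node (Pt L ::ₘ ch W))

/-- two branches of the same size and a leaf -/
def NL_leaf : Prop := ∀ B₁ B₂ : RT, size B₁ = size B₂ → 3 ≤ size B₁ → NLgood (node {leaf, B₁, B₂})

/-- a path with legs at its two middle vertices -/
def NL_legs : Prop := ∀ k : ℕ, 7 ≤ k →
  NLgood (node {node {leaf, Pt k}, leaf, Pt k})

/-- all branches have the same size `s`, at least three branches -/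
def NL_sym : Prop := ∀ (M : Multiset RT) (s : ℕ) (D : RT), 2 ≤ s → 3 ≤ Multiset.card M →
  (∀ F ∈ M, size F = s) → D ∈ M → Homog D → NLgood (node M)

/-- two equal branches -/
def NL_two : Prop := ∀ D : RT, 3 ≤ size D → Homog D → NLgood (node {D, D})

/-- two equal halves with root degree at least two -/
def NL_double : Prop := ∀ (M : Multiset RT) (s : ℕ) (D E : RT), 2 ≤ s → 2 ≤ Multiset.card M →
  (∀ F ∈ M, size F = s) → D ∈ M → Homog D → E ∈ ch D → Homog E →
  5 ≤ size (node M) + 0 → ¬ (s = 2 ∧ Multiset.card M = 2) → NLgood (node (node M ::ₘ M))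

/-- `j` times a new root -/
def Nn (j : ℕ) (X : RT) : RT := (fun Y => node {Y})^[j] X

/-- two equal halves with root degree one -/
def NL_chain : Prop := ∀ (B : RT) (j : ℕ), Homog B → 2 ≤ Multiset.card (ch B) →
  NLgood (node {node {Nn j B}, Nn j B})

end Pool.Agent.Helper13K9.Drn
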